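import Pool.Agent.Y472.C.Defs
import Pool.Agent.TH563.V.StepT

/-!
# The step at a vertex with a circle, many variables
-/

set_option autoImplicit false

namespace Pool.Agent.N518.RC

open Finset Filter Topology Metric
open Pool.Agent.W711.HT hiding XX
open Pool.Agent.Y472
open Pool.Agent.W85.HT (Kc Kc_mem Kc_compact log_lim)
open Pool.Agent.W293.HT (GH cauchy2 isOpen_Rc zero_mem_Rc)
open Pool.Agent.TH563.UV (UN real_axis)
open Pool.Agent.TH563.Z (gh_up)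
open Pool.Agent.Y481 (itI itN itG Sep cw LI LN)
open scoped Real

lemma rcm {a b a' b' : ℝ} (h1 : a ≤ a') (h2 : b ≤ b') : Rc a b ⊆ Rc a' b' :=
  fun _ hz => ⟨lt_of_lt_of_le hz.1 h1, lt_of_lt_of_le hz.2 h2⟩

lemma Bx_update {L : ℕ} {r r' : ℝ} (hrr : r' ≤ r) {ψ : ℕ → ℂ} (hψ : ψ ∈ Bx L r') {j : ℕ} {w : ℂ}
    (hw : w ∈ Rc r r) : Function.update ψ j w ∈ Bx L r := by
  intro i hi
  by_cases h : i = j
  · rw [h, Function.update_self]
    exact hw
  · rw [Function.update_of_ne h]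
    exact rcm hrr hrr (hψ i hi)

/-- convergence of the updated sequences -/
lemma upd_lim {L : ℕ} {ψ : ℕ → ℕ → ℂ} {ψ₀ : ℕ → ℂ}
    (h : ∀ i < L, Tendsto (fun N => ψ N i) atTop (𝓝 (ψ₀ i))) (j : ℕ) {p : ℕ → ℂ} {p₀ : ℂ}
    (hp : Tendsto p atTop (𝓝 p₀)) :
    ∀ i < L, Tendsto (fun N => Function.update (ψ N) j (p N) i) atTop
      (𝓝 (Function.update ψ₀ j p₀ i)) := by
  intro i hi
  by_cases hij : i = j
  · subst hij
    simp only [Function.update_self]
    exact hp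
  · simp only [Function.update_of_ne hij]
    exact h i hi

/-- asymptotics at a vertex with a circle -/
theorem circ_step {L j : ℕ} (a : ℤ) {f : ℕ → (ℕ → ℂ) → ℂ} {S : (ℕ → ℂ) → ℂ} {r r' c B p : ℝ}
    (hr' : 0 < r') (hrr : r' ≤ r) (hr1 : r ≤ 1) (hc : 0 < c) (hp : 0 < p) (hB : 0 ≤ B)
    (hsep : ∀ N, Sep L (f N)) (hlim : SeqLim L r f S)
    (hdif : ∀ ψ ∈ Bx L r, DifferentiableOn ℂ (fun w => S (Function.update ψ j w)) (Rc r r))
    (hconc : ∀ ψ ∈ Bx L r, (deriv (deriv fun w => S (Function.update ψ j w)) (ψ j)).re ≤ -c)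
    (hev : ∀ ψ ∈ Bx L r, S (Function.update ψ j (-ψ j)) = S ψ)
    (hbd : ∀ ψ ∈ Bx L r, ‖S ψ‖ ≤ B) (hpos : ∀ ψ ∈ Bx L r, p ≤ (S ψ).re)
    (hfar : ∀ (ψ : ℕ → ℕ → ℂ) (ψ₀ : ℕ → ℂ), ψ₀ ∈ Bx L r' →
      (∀ i < L, Tendsto (fun N => ψ N i) atTop (𝓝 (ψ₀ i))) →
      ∃ κ : ℝ, 0 < κ ∧ ∀ᶠ N : ℕ in atTop, ∀ x y : ℝ, r / 4 ≤ |x| → |x| ≤ π → |y| ≤ 1 / N →
        ‖f N (Function.update (ψ N) j (x + y * Complex.I))‖ ≤
          Real.exp (N * ((S (Function.update ψ₀ j 0)).re - κ))) :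
    SeqLim L r' (fun N ψ => LI a N fun w => UN N w * f N (Function.update ψ j w))
      (fun ψ => S (Function.update ψ j 0)) := by
  have hr : 0 < r := lt_of_lt_of_le hr' hrr
  have hπ := Real.pi_gt_three
  intro ψ ψ₀ hψ₀ hψ
  obtain ⟨ρ, hρ⟩ : ∃ ρ : ℝ, ρ = r / 4 := ⟨_, rfl⟩
  have hρ0 : 0 < ρ := by rw [hρ]; positivity
  obtain ⟨Y, hY⟩ : ∃ Y : ℕ → ℂ → ℂ, Y = fun N w => f N (Function.update (ψ N) j w) := ⟨_, rfl⟩
  obtain ⟨G, hG⟩ : ∃ G : ℂ → ℂ, G = fun w => S (Function.update ψ₀ j w) := ⟨_, rfl⟩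
  have hB0 : ∀ w ∈ Rc r r, Function.update ψ₀ j w ∈ Bx L r := fun w hw => Bx_update hrr hψ₀ hw
  have hYd : ∀ N, Differentiable ℂ (Y N) := fun N => by rw [hY]; exact (hsep N).diff (ψ N) j
  -- the properties of `G`
  have hG0 : Function.update ψ₀ j (ψ₀ j) = ψ₀ := Function.update_eq_self _ _
  have hψ₀r : ψ₀ ∈ Bx L r := fun i hi => rcm hrr hrr (hψ₀ i hi)
  have hGd : DifferentiableOn ℂ G (Rc r r) := by rw [hG]; exact hdif ψ₀ hψ₀r
  have hsub3 : Rc (3 * ρ) (3 * ρ) ⊆ Rc r r := rcm (by rw [hρ]; linarith) (by rw [hρ]; linarith)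
  have hsub2 : Rc (2 * ρ) (2 * ρ) ⊆ Rc (3 * ρ) (3 * ρ) := rcm (by linarith) (by linarith)
  have hGe : ∀ w ∈ Rc r r, G (-w) = G w := by
    intro w hw
    have h := hev _ (hB0 w hw)
    rw [Function.update_self, Function.update_idem] at h
    rw [hG]
    exact h
  have hGc : ∀ w ∈ Rc r r, (deriv (deriv G) w).re ≤ -c := by
    intro w hw
    have h := hconc _ (hB0 w hw)
    rw [Function.update_self] at h
    simp only [Function.update_idem] at h
    rw [hG]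
    exact h
  have hGb : ∀ w ∈ Rc r r, ‖G w‖ ≤ B := by
    intro w hw
    rw [hG]
    exact hbd _ (hB0 w hw)
  have hGp : ∀ w ∈ Rc r r, p ≤ (G w).re := by
    intro w hw
    rw [hG]
    exact hpos _ (hB0 w hw)
  have hgh : GH ρ ρ c (8 * B / ρ ^ 2) G :=
    ⟨hGd.mono hsub3, fun w hw => hGe w (hsub3 hw), fun w hw => hGc w (hsub3 (hsub2 hw)),
      fun w hw => cauchy2 hρ0 le_rfl (hGd.mono hsub3) (fun z hz => hGb z (hsub3 hz)) hw⟩
  -- the asymptotics of `Y`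
  have hKsub : Kc (2 * ρ) (2 * ρ) ⊆ Rc r r := by
    intro w hw
    rw [Kc_mem] at hw
    exact ⟨by rw [hρ] at hw; linarith [hw.1], by rw [hρ] at hw; linarith [hw.2]⟩
  have hseq := Pool.Agent.W583.HT.seq ℂ (Kc (2 * ρ) (2 * ρ)) (Kc_compact _ _)
    (fun N w => Real.log ‖Y N w‖ / N) (fun w => (G w).re)
    (Complex.continuous_re.comp_continuousOn (hGd.continuousOn.mono hKsub)) (by
      intro q q₀ hq₀ hq hqt
      have h := hlim (fun N => Function.update (ψ N) j (q N)) (Function.update ψ₀ j q₀)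
        (hB0 q₀ (hKsub hq₀)) (upd_lim hψ j hqt)
      rw [hY, hG]
      exact h)
  have hMW : MW Y G (Rc (2 * ρ) (2 * ρ)) := by
    intro ε hε
    filter_upwards [hseq (min ε (p / 2)) (lt_min hε (by positivity)), eventually_ge_atTop 1] with
      N hN h1 w hw
    have hNp : (0 : ℝ) < N := by exact_mod_cast h1
    have h2 := hN w (by rw [Kc_mem]; exact ⟨hw.1.le, hw.2.le⟩)
    have h3 := hGp w (hsub3 (hsub2 hw))
    refine ⟨?_, ?_⟩
    · intro h0
      have h4 := h2.trans (min_le_right _ _)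
      simp only [h0, norm_zero, Real.log_zero, zero_div, zero_sub, abs_neg] at h4
      have h5 := le_abs_self (G w).re
      linarith
    · have h4 := h2.trans (min_le_left _ _)
      have h5 : Real.log ‖Y N w‖ / N - (G w).re = (Real.log ‖Y N w‖ - N * (G w).re) / N := by
        field_simp
      rw [h5, abs_div, abs_of_pos hNp, div_le_iff₀ hNp] at h4
      exact h4
  -- localisation
  obtain ⟨κ, hκ, hfar'⟩ := hfar ψ ψ₀ hψ₀ hψ
  have hL0 : 0 ≤ 8 * B / ρ ^ 2 := by positivity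
  obtain ⟨κ₂, hκ₂, hloc⟩ := Pool.Agent.TH929.J29.locb Pool.Agent.W711.HT.upb (a := a)
    (K := (Set.univ : Set Unit)) (Y := fun N w _ => Y N w) (G := fun w _ => G w)
    (c₀ := c / 2) (L := 8 * B / ρ ^ 2) (τ₁ := ρ) hρ0 (by linarith) hρ0 hρ0
    (fun N q _ => hYd N)
    (fun ε hε => by
      filter_upwards [hMW ε hε] with N h w hw q _
      exact h w hw) (by positivity) hL0
    (fun q _ x hx => real_axis hgh hρ0 hρ0 x hx)
    (fun q _ x y hx hy hy' => gh_up hgh hρ0 hρ0 hL0 hx hy hy')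
    ⟨κ, hκ, by
      filter_upwards [hfar'] with N h1 q _ x y hx1 hx2 hy
      rw [hρ] at hx1
      have h2 := h1 x y hx1 hx2 hy
      rw [hY, hG]
      exact h2⟩
  have hG0' : deriv G 0 = 0 := hgh.d0 hρ0 hρ0
  have hG2 := hgh.d2 0 (zero_mem_Rc (by linarith) (by linarith))
  have hM := Pool.Agent.TH929.J29.lapB Pool.Agent.W588.HT.lapc Pool.Agent.W930.HTLog.main
    (Y := Y) (G := G) (a := a) hρ0 hρ0
    (Eventually.of_forall fun N => (hYd N).differentiableOn)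
    (hGd.mono (hsub2.trans hsub3)) hMW hG0' (by linarith) (by
      intro x hx hx0
      have h1 := real_axis hgh hρ0 hρ0 x hx
      have h2 : 0 < c / 2 * x ^ 2 := by positivity
      linarith)
  have hfin : Tendsto (fun N : ℕ => Real.log ‖upp (1 / N) fun w => Ea a N w * (UN N w * Y N w) *
      kr N w‖ / N) atTop (𝓝 (G 0).re) := by
    refine log_lim (M := fun N : ℕ => (-Complex.I) * ∫ x in (-ρ)..ρ, Ea a N x * Y N x)
      (κ := κ₂) (C := 1) hκ₂ zero_le_one ?_ ?_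
    · intro e he
      filter_upwards [hM e he] with N h1
      rw [norm_mul, norm_neg, Complex.norm_I, one_mul]
      exact h1
    · filter_upwards [hloc] with N h1
      rw [one_mul]
      exact h1 () trivial
  have e1 : (fun N : ℕ => Real.log ‖LI a N fun w => UN N w * f N (Function.update (ψ N) j w)‖ / N) =
      fun N : ℕ => Real.log ‖upp (1 / N) fun w => Ea a N w * (UN N w * Y N w) * kr N w‖ / N := by
    rw [hY]
    rfl
  show Tendsto (fun N : ℕ => Real.log ‖LI a N fun w => UN N w *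
    f N (Function.update (ψ N) j w)‖ / N) atTop (𝓝 (S (Function.update ψ₀ j 0)).re)
  rw [e1]
  have e2 : S (Function.update ψ₀ j 0) = G 0 := by rw [hG]
  rw [e2]
  exact hfin

end Pool.Agent.N518.RC
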