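import Pool.Agent.Y481.DR.Defs
import Pool.Agent.TH219.J139

/-!
# Rings of trees with crossing circles at the vertices of the ring: definitions and statements

As `Pool.Agent.Y481.DR.Defs`, but the roots of the trees of the ring may carry crossing circles.  At
a circle the critical point is `0` for every weight, and there is no filling.
-/

set_option autoImplicit false

namespace Pool.Agent.N518.RC

open Finset Filter Topology Metric
open Pool.Agent.W711.HT hiding XX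
open Pool.Agent.Y472
open Pool.Agent.Y481 (itI itN itG Sep cw LI LN)
open Pool.Agent.Y481.DR
open Pool.Agent.TH219.J139 (Ub)
open Pool.Agent.TH563.UV (Tb op XX PB AB)
open Pool.Agent.W719.AR (Fl)
open scoped Real

/-! ### The exact formula -/

/-- the vertex of a tree; a circle at the root gives the factor `UN` -/
noncomputable def tvc (t : Tb) : Vx := (t.wt, fun N ψ => Ub t.bl N ψ * XX t N ψ)

/-- the vertices of a ring of trees -/
noncomputable def tvcl (ts : List (Tb × Tb)) : List (Vx × Vx) :=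
  ts.map fun p => (tvc p.1, tvc p.2)

/-- the exact formula for the ring of trees -/
def S_EXC : Prop := ∀ (N : ℕ) (ts : List (Tb × Tb)) (m : ℤ), 2 ≤ N → ts ≠ [] →
  ‖JD ts m N (vN N)‖ = ((N : ℝ) ^ 2 / (2 * π)) ^ nel ts * ‖ES N (tvcl ts) m‖

/-! ### Analysis -/

/-- asymptotics of `XV` near `χ = χ₀`; `b j` says whether there is a circle at the vertex number
`j` -/
def XLCc : Prop := ∀ (χ₀ : ℂ) (ρ₀ c C : ℝ), Zr χ₀ → bet ≤ (s0 χ₀).re → SDZ χ₀ ρ₀ c C szz dzz →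
  ∀ R₀ B₀ : ℝ, 0 < R₀ → 0 < B₀ → ∀ k : ℕ, 1 ≤ k →
  ∃ R c' : ℝ, 0 < R ∧ R ≤ 1 ∧ R ≤ ρ₀ ∧ R ≤ R₀ ∧ 0 < c' ∧
    ∃ B C' M : ℝ, 0 < B ∧ 0 < C' ∧ 0 < M ∧ ∀ (ls : List (Vx × Vx)) (b : ℕ → Bool)
      (Y : ℕ → ℕ → ℂ → ℂ) (F : ℕ → ℂ → ℂ), ls.length = k →
      (∀ j < 2 * k, DG R₀ B₀ (Y j) (F j)) →
      (∀ j < 2 * k, ∀ N ψ, vy ls j N ψ = Ub (b j) N ψ * Y j N ψ) →
      (∀ j < 2 * k, b j = false → M ≤ |(cw (wl ls) j : ℝ)|) → ∃ (G : ℂ → ℂ) (z : ℂ → ℕ → ℂ),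
        DifferentiableOn ℂ G (Rc R R) ∧
        (∀ χ ∈ Rc R R, ‖G χ‖ ≤ B ∧ (deriv (deriv G) χ).re ≤ -c') ∧
        MW (fun N χ => XV ls N (χ + χ₀)) G (Rc R R) ∧
        (∀ χ ∈ Rc R R, (∀ j < 2 * k, z χ j ∈ Rc (R / 2) (R / 2) ∧ ‖z χ j‖ ≤ 1 / 10 ∧
          (b j = true → z χ j = 0) ∧ (b ((j + 1) % (2 * k)) = false →
          Complex.I * cw (wl ls) ((j + 1) % (2 * k)) * z χ ((j + 1) % (2 * k)) / (2 * π) +
            Complex.I + deriv (F ((j + 1) % (2 * k))) (z χ ((j + 1) % (2 * k))) +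
            deriv (fun w => szz (z χ j) w (χ + χ₀)) (z χ ((j + 1) % (2 * k))) +
            deriv (fun w => szz w (z χ (((j + 1) % (2 * k) + 1) % (2 * k))) (χ + χ₀))
              (z χ ((j + 1) % (2 * k))) = 0)) ∧
          deriv G χ = ∑ j ∈ range (2 * k),
            deriv (fun w => szz (z χ j) (z χ ((j + 1) % (2 * k))) w) (χ + χ₀) ∧
          G χ = ∑ j ∈ range (2 * k), (Complex.I * cw (wl ls) j * z χ j ^ 2 / (4 * π) +
            Complex.I * z χ j + F j (z χ j) +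
            szz (z χ j) (z χ ((j + 1) % (2 * k))) (χ + χ₀))) ∧
        ∀ m : ℝ, (∀ j < 2 * k, b j = false → m ≤ |(cw (wl ls) j : ℝ)|) → 0 < m →
          (∀ χ ∈ Rc R R, ∀ j < 2 * k, ‖z χ j‖ ≤ C' / m) ∧
          ∀ χ ∈ Rc R R, ‖G χ - 2 * k * szz 0 0 (χ + χ₀)‖ ≤ C' / m

/-- critical configurations near `χ₀`; `g j` is the derivative of the function of the children -/
def RCritC (s : ℂ → ℂ → ℂ → ℂ) (χ₀ : ℂ) (ρ : ℝ) (n : ℕ) (b : ℕ → Bool) (a : ℕ → ℤ) (g : ℕ → ℂ)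
    (m : ℤ) (z : ℕ → ℂ) (χ : ℂ) : Prop :=
  χ ∈ Rz χ₀ ρ ∧
  (∀ j < n, z j ∈ Rc ρ ρ ∧ ‖z j‖ ≤ 1 / 10 ∧ (b j = true → z j = 0) ∧
    (b ((j + 1) % n) = false →
    Complex.I * a ((j + 1) % n) * z ((j + 1) % n) / (2 * π) + Complex.I + g ((j + 1) % n) +
      deriv (fun w => s (z j) w χ) (z ((j + 1) % n)) +
      deriv (fun w => s w (z (((j + 1) % n + 1) % n)) χ) (z ((j + 1) % n)) = 0)) ∧
  Complex.I * m * χ / π + Complex.I +
    ∑ j ∈ range n, deriv (fun w => s (z j) (z ((j + 1) % n)) w) χ = 0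

/-- the growth rate of the exact expression -/
def S_MAINC : Prop := ∀ (k : ℕ) (m : ℤ), 1 ≤ k → 0 ≤ m → ¬ (k = 1 ∧ m = 0) →
  ∃ (χ₀ : ℂ) (ρ₀ c C : ℝ), Zr χ₀ ∧ SDZ χ₀ ρ₀ c C szz dzz ∧
  ∀ R₀ B₀ ε : ℝ, 0 < R₀ → 0 < B₀ → 0 < ε → ∃ M : ℝ,
    ∀ (ls : List (Vx × Vx)) (b : ℕ → Bool) (Y : ℕ → ℕ → ℂ → ℂ) (F : ℕ → ℂ → ℂ), ls.length = k →
    (∀ j < 2 * k, DG R₀ B₀ (Y j) (F j)) →
    (∀ j < 2 * k, ∀ N ψ, vy ls j N ψ = Ub (b j) N ψ * Y j N ψ) →
    (∀ j < 2 * k, b j = false → M ≤ |(cw (wl ls) j : ℝ)|) →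
    ∃ (z : ℕ → ℂ) (χ : ℂ),
      RCritC szz χ₀ ρ₀ (2 * k) b (cw (wl ls)) (fun j => deriv (F j) (z j)) m z χ ∧
      (∀ j < 2 * k, z j ∈ Rc R₀ R₀ ∧ ‖z j‖ ≤ ε) ∧ ‖χ - χ₀‖ ≤ ε ∧
      0 < (RVal3 szz (2 * k) (cw (wl ls)) m z χ + ∑ j ∈ range (2 * k), F j (z j)).re ∧
      Tendsto (fun N : ℕ => Real.log ‖ES N ls m‖ / N) atTop
        (𝓝 (RVal3 szz (2 * k) (cw (wl ls)) m z χ + ∑ j ∈ range (2 * k), F j (z j)).re)

/-! ### Angle structures -/

/-- `Pool.Agent.Y482.Chi.VX`, without the condition of the filling if there is a circle -/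
structure VXC (b : Bool) (w : ℤ) (f g F G f' g' F' G' : Fl) : Prop where
  /-- the edge between the two strands enclosed by `C` -/
  strand : f.a + g.c + F.b' + G.c + (f'.c + g'.a + F'.c + G'.b') = 2 * π
  /-- the edge between the third strand and the axis -/
  axis : f.b' + g.a' + F.a + G.a' + (f'.a' + g'.b' + F'.a' + G'.a) = 2 * π
  /-- the edge from `C` to the axis -/
  ca : g.c' + G.c + G.b' + (f'.c' + F'.c + F'.b') = 2 * π
  /-- the edge from `C` to the third strand -/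
  cr : g.c + g.b' + G.c' + (f'.c + f'.b' + F'.c') = 2 * π
  /-- the edges from `C` to the strands enclosed by `C` -/
  even : Even w → g.a + g.a' + G.b + (f'.a + f'.a' + F'.b) = 2 * π ∧
    g.b + G.a + G.a' + (f'.b + F'.a + F'.a') = 2 * π
  odd : Odd w → g.b + G.a + G.a' + (f'.a + f'.a' + F'.b) = 2 * π ∧
    g.a + g.a' + G.b + (f'.b + F'.a + F'.a') = 2 * π
  /-- the rotation along two parallel copies of the filling slope of `C` is `4 π` -/
  fill : b = false → f'.cr + F'.cr - (g.cr + G.cr) = 4 * π + w * (f'.tw + F'.tw)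

/-- the conditions at a crossing circle `C` of the ring with `w` half twists (`Y481.DR.VD`); if `b`
is true then `C` is a component of the link, and there is no filling -/
structure VDC (b : Bool) (w : ℤ) (l : List (Fl × Fl)) (f g F G f' g' F' G' : Fl) : Prop where
  /-- no children -/
  nil : l = [] → VXC b w f g F G f' g' F' G'
  /-- the edge between the third strand and the axis -/
  axis : f.b' + g.a' + F.a + G.a' + (f'.a' + g'.b' + F'.a' + G'.a) = 2 * π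
  /-- the edge from `C` to the axis -/
  ca : g.c' + G.c + G.b' + (f'.c' + F'.c + F'.b') = 2 * π
  /-- the edge from `C` to the third strand -/
  cr : g.c + g.b' + G.c' + (f'.c + f'.b' + F'.c') = 2 * π
  /-- the edges between the two strands enclosed by `C` -/
  first : ∀ y ∈ l.head?, f'.c + g'.a + F'.c + G'.b' + (2 * y.1.a' + (y.2.a + y.2.b')) = 2 * π
  gaps : l.IsChain Pool.Agent.W719.AR.Gap
  last : ∀ x ∈ l.getLast?, 2 * x.1.c + (x.2.a + x.2.b') + (f.a + g.c + F.b' + G.c) = 2 * π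
  /-- the edges from `C` to the strands enclosed by `C` -/
  str : ∀ x ∈ l, g.a + g.a' + G.b = π - x.1.tw ∧ g.b + G.a + G.a' = π - x.1.tw ∧
    f'.a + f'.a' + F'.b = π + x.1.tw ∧ f'.b + F'.a + F'.a' = π + x.1.tw
  /-- the rotation along two parallel copies of the filling slope of `C` is `4 π` -/
  fill : b = false → f'.cr + F'.cr - (g.cr + G.cr) + 2 * (l.map fun y => y.1.cr).sum =
    4 * π + w * (f'.tw + F'.tw)

/-- angle structures of the ring with the trees `y j` -/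
structure DAngC (n : ℕ) (m : ℤ) (y : ℕ → AB) (f g F G : ℕ → Fl) : Prop where
  pos : ∀ j < n, (f j).Pos ∧ (g j).Pos ∧ (F j).Pos ∧ (G j).Pos
  diag : ∀ j < n, (f j).b + (f j).c' + ((g j).b + (g j).c') = 2 * π ∧
    (F j).b + (F j).c' + ((G j).b + (G j).c') = 2 * π
  tree : ∀ j < n, (y j).OK
  vert : ∀ j < n, VDC (y ((j + 1) % n)).bl (y ((j + 1) % n)).wt (y ((j + 1) % n)).fl
    (f j) (g j) (F j) (G j)
    (f ((j + 1) % n)) (g ((j + 1) % n)) (F ((j + 1) % n)) (G ((j + 1) % n))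
  /-- the rotation along two parallel copies of the filling slope of the axis is `-4 π` -/
  fill : ∑ j ∈ range n, Pool.Agent.Y482.Chi.rho (f j) (g j) (F j) (G j) =
    -(4 * π + 2 * m * Pool.Agent.Y482.Chi.rlam (f 0) (g 0) (F 0) (G 0))

/-- near `χ₀` the critical value is the maximal volume of the angle structures -/
def S_GEOC : Prop := S_S0P → ∀ (ρ τ κ cc : ℝ) (s dl : ℂ → ℂ → ℂ), KD ρ τ κ cc s dl →
  ∀ χ₀ : ℂ, Zr χ₀ → ∃ ε : ℝ, 0 < ε ∧ ∀ ρ₀ c C : ℝ, SDZ χ₀ ρ₀ c C szz dzz →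
    ∀ (n : ℕ) (m : ℤ) (p : ℕ → PB) (χ : ℂ), 1 ≤ n →
      (∀ j < n, (p j).Crt s ρ τ ∧ (p j).rz ∈ Rc ρ τ ∧ ‖(p j).rz‖ ≤ ε) →
      ‖χ - χ₀‖ ≤ ε →
      RCritC szz χ₀ ρ₀ n (fun j => (p j).bl) (fun j => (p j).wt) (fun j => (p j).gs s) m
        (fun j => (p j).rz) χ →
      IsGreatest {W : ℝ | ∃ (y : ℕ → AB) (f g F G : ℕ → Fl), (∀ j < n, (y j).shape = (p j).shape) ∧
          DAngC n m y f g F G ∧ dVol n y f g F G = W}
        (2 * π * (RVal3 szz n (fun j => (p j).wt) m (fun j => (p j).rz) χ +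
          ∑ j ∈ range n, (p j).vl s).re)

/-! ### The growth rate -/

/-- the growth rate of the invariant is the maximal volume -/
def S_FINC : Prop := ∃ K : ℝ, 0 < K ∧ ∀ (k : ℕ) (m : ℤ) (D : ℕ), 1 ≤ k → 0 ≤ m →
  ¬ (k = 1 ∧ m = 0) → ∃ M : ℝ, ∀ ts : List (Tb × Tb), ts.length = k →
    (∀ p ∈ ts, p.1.Below K ∧ p.2.Below K ∧ p.1.nc ≤ D ∧ p.2.nc ≤ D ∧
      (p.1.bl = false → M ≤ |(p.1.wt : ℝ)|) ∧ (p.2.bl = false → M ≤ |(p.2.wt : ℝ)|)) →
    ∃ V : ℝ, IsGreatest {W : ℝ | ∃ (y : ℕ → AB) (f g F G : ℕ → Fl),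
        (∀ j < 2 * k, (y j).shape = tj ts j) ∧ DAngC (2 * k) m y f g F G ∧
          dVol (2 * k) y f g F G = W} V ∧
      Tendsto (fun N : ℕ => 2 * π * (Real.log ‖JD ts m N (vN N)‖ / N)) atTop (𝓝 V)

end Pool.Agent.N518.RC
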