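import Pool.Agent.N518.RC.Fbd
import Pool.Agent.N518.RC.Defs
import Pool.Agent.Y710.DR.Core

/-!
# Asymptotics of `XV` with circles: the core
-/

set_option autoImplicit false
set_option linter.all false

namespace Pool.Agent.N518.RC

open Finset Filter Topology Metric
open Pool.Agent.W711.HT hiding XX
open Pool.Agent.Y472
open Pool.Agent.Y481.DR
open Pool.Agent.TH219.J139 (Ub Ub_diff)
open Pool.Agent.Y674.CB (rc_open rc_mono rc_norm rc_zero rc_neg bx_mono SJ sj sj1 sj2 sj3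
  Dr_lastj Dr_midj log_near itG_congr Wk_sep)
open Pool.Agent.Y674.CG (AS kh_sepy gW gW_sep gW_eq kh_limy)
open Pool.Agent.Y710.DR (Y_lim DrF_last DrF_mid)
open Pool.Agent.Y481 (itI itN itG Sep wts cw LI LN)
open scoped Real

lemma gY_sep (v₀ : ℂ) {n : ℕ} (hn : 1 ≤ n) {Y : ℕ → ℕ → ℂ → ℂ}
    (hY : ∀ j < n, ∀ N, Differentiable ℂ (Y j N)) (N : ℕ) : Sep (n + 1) (gY v₀ Y n N) := by
  unfold gY
  refine (gW_sep v₀ hn N).mul (Sep.prod _ fun j hj => ?_)
  rw [mem_range] at hj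
  exact Sep.var (by omega) (hY j hj N)

lemma gY_lim {v₀ : ℂ} {ρ₀ ρ₁ : ℝ} {s : ℂ → ℂ → ℂ → ℂ} (hS : SJ ρ₀ s) (h1 : ρ₁ ≤ ρ₀)
    (H : AS v₀ ρ₁ s) {n : ℕ} (hn : 1 ≤ n) {R₀ B : ℝ} {Y : ℕ → ℕ → ℂ → ℂ} {F : ℕ → ℂ → ℂ}
    (hD : ∀ j < n, DG R₀ B (Y j) (F j)) {r : ℝ} (hr1 : r ≤ ρ₁) (hr2 : r ≤ R₀) :
    SeqLim (n + 1) r (fun N => gY v₀ Y n N) (SrF s F n) := by
  intro ψ ψ₀ hψ₀ hψ
  have hm : ∀ i < n + 1, ψ₀ i ∈ Rc ρ₁ ρ₁ := fun i hi => rc_mono hr1 (hψ₀ i hi)
  have key : ∀ j < n, _ := fun j hj => kh_limy hS h1 H (hm j (by omega))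
    (hm ((j + 1) % n) ((Nat.mod_lt _ (by omega)).trans (by omega))) (hm n (by omega))
    (hψ j (by omega)) (hψ ((j + 1) % n) ((Nat.mod_lt _ (by omega)).trans (by omega)))
    (hψ n (by omega))
  have keyY : ∀ j < n, _ := fun j hj => Y_lim (hD j hj) (rc_mono hr2 (hψ₀ j (by omega)))
    (hψ j (by omega))
  have h2 : ∀ᶠ N : ℕ in atTop, ∀ j ∈ range n,
      kh N (ψ N j) (ψ N ((j + 1) % n)) (ψ N n + v₀) ≠ 0 := by
    rw [Filter.eventually_all_finset]
    intro j hj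
    exact (key j (mem_range.1 hj)).1
  have h2Y : ∀ᶠ N : ℕ in atTop, ∀ j ∈ range n, Y j N (ψ N j) ≠ 0 := by
    rw [Filter.eventually_all_finset]
    intro j hj
    exact (keyY j (mem_range.1 hj)).1
  have h3 : Tendsto (fun N : ℕ => ∑ j ∈ range n,
      Real.log ‖kh N (ψ N j) (ψ N ((j + 1) % n)) (ψ N n + v₀)‖ / N) atTop
      (𝓝 (∑ j ∈ range n, (s (ψ₀ j) (ψ₀ ((j + 1) % n)) (ψ₀ n)).re)) :=
    tendsto_finsetSum _ fun j hj => (key j (mem_range.1 hj)).2
  have h3Y : Tendsto (fun N : ℕ => ∑ j ∈ range n, Real.log ‖Y j N (ψ N j)‖ / N) atTop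
      (𝓝 (∑ j ∈ range n, (F j (ψ₀ j)).re)) :=
    tendsto_finsetSum _ fun j hj => (keyY j (mem_range.1 hj)).2
  have h4 : (SrF s F n ψ₀).re = ∑ j ∈ range n, (s (ψ₀ j) (ψ₀ ((j + 1) % n)) (ψ₀ n)).re +
      ∑ j ∈ range n, (F j (ψ₀ j)).re := by
    unfold SrF Sr
    rw [Complex.add_re, Complex.re_sum, Complex.re_sum]
  rw [h4]
  refine (h3.add h3Y).congr' ?_
  filter_upwards [h2, h2Y] with N hN hNY
  unfold gY gW Wk
  rw [norm_mul, norm_prod, norm_prod, Real.log_mul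
    (prod_ne_zero_iff.2 fun j hj => norm_ne_zero_iff.2 (hN j hj))
    (prod_ne_zero_iff.2 fun j hj => norm_ne_zero_iff.2 (hNY j hj)),
    Real.log_prod (fun j hj => norm_ne_zero_iff.2 (hN j hj)),
    Real.log_prod (fun j hj => norm_ne_zero_iff.2 (hNY j hj)), add_div, sum_div, sum_div]

/-- the iterated integral, the vertices without circle first -/
lemma XV_eq {v₀ : ℂ} {n : ℕ} (hn : 1 ≤ n) {ls : List (Vx × Vx)} (hls : 2 * ls.length = n)
    {Y : ℕ → ℕ → ℂ → ℂ} {b : ℕ → Bool} (hY : ∀ j < n, ∀ N, Differentiable ℂ (Y j N))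
    (hvy : ∀ j < n, ∀ N ψ, vy ls j N ψ = Ub (b j) N ψ * Y j N ψ) {σ : Equiv.Perm ℕ}
    (hσ : ∀ i, n ≤ i → σ i = i) {N : ℕ} (hN : 1 ≤ N) (χ : ℂ) :
    XV ls N (χ + v₀) = itG (fun i => Lc (b (σ i)) (cw (wl ls) (σ i)) N) n
      (fun φ => gY v₀ Y n N (φ ∘ σ.symm)) (Function.update 0 n χ) := by
  have e1 : XV ls N (χ + v₀) = itI (cw (wl ls)) N n (fun ψ => (∏ j ∈ range n, Ub (b j) N (ψ j)) *
      (Wk n N (χ + v₀) ψ * ∏ j ∈ range n, Y j N (ψ j))) 0 := by
    unfold XV YP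
    rw [hls]
    congr 1
    funext ψ
    have h1 : ∏ j ∈ range n, vy ls j N (ψ j) =
        (∏ j ∈ range n, Ub (b j) N (ψ j)) * ∏ j ∈ range n, Y j N (ψ j) := by
      rw [← prod_mul_distrib]
      exact prod_congr rfl fun j hj => hvy j (mem_range.1 hj) N (ψ j)
    rw [h1]
    ring
  rw [e1, itG_perm hσ hN (cw (wl ls)) b (f := fun ψ => Wk n N (χ + v₀) ψ *
    ∏ j ∈ range n, Y j N (ψ j)) ((Wk_sep hn N _).mul (Sep.prod _ fun j hj =>
      Sep.var (mem_range.1 hj) (hY j (mem_range.1 hj) N))) 0 0]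
  refine (itG_congr (χ := χ) (fun j _ => rfl) (fun ψ ψ' h h' => ?_) n le_rfl
    (Function.update 0 n χ) 0 (Function.update_self _ _ _) fun i hi => ?_).symm
  · have hs := perm_symm hσ
    have h2 : (ψ ∘ σ.symm) n = χ := by
      rw [Function.comp_apply, hs n le_rfl]
      exact h
    have h3 : ∀ i < n, (ψ ∘ σ.symm) i = (ψ' ∘ σ.symm) i := fun i hi => h' _ (perm_lt hs hi)
    unfold gY
    rw [gW_eq _ _ h2 h3]
    congr 1
    refine prod_congr rfl fun j hj => ?_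
    rw [h3 j (mem_range.1 hj)]
  · rw [Function.update_of_ne (by omega)]

/-- the outcome -/
structure OutC (v₀ : ℂ) (R₁ R c₀ B₀ C₁ M p₀ : ℝ) (s : ℂ → ℂ → ℂ → ℂ) (n : ℕ) (b : ℕ → Bool)
    (a : ℕ → ℤ) (F : ℕ → ℂ → ℂ) (ls : List (Vx × Vx)) (G : ℂ → ℂ) (z : ℂ → ℕ → ℂ) : Prop where
  der : ∀ χ ∈ Rc (R₁ / 2) (R₁ / 2), HasDerivAt G (DrF s F n n (z χ)) χ
  sm : ∀ χ ∈ Rc (R₁ / 2) (R₁ / 2), ∀ j < n, b j = false → ‖z χ j‖ ≤ C₁ / |(a j : ℝ)|
  zero : ∀ χ ∈ Rc (R₁ / 2) (R₁ / 2), ∀ j < n, b j = true → z χ j = 0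
  crit : ∀ χ ∈ Rc (R₁ / 2) (R₁ / 2), ∀ j < n, b ((j + 1) % n) = false →
    Complex.I * a ((j + 1) % n) * z χ ((j + 1) % n) / (2 * π) + Complex.I +
      deriv (F ((j + 1) % n)) (z χ ((j + 1) % n)) +
      deriv (fun w => s (z χ j) w χ) (z χ ((j + 1) % n)) +
      deriv (fun w => s w (z χ (((j + 1) % n + 1) % n)) χ) (z χ ((j + 1) % n)) = 0
  derG : ∀ χ ∈ Rc (R₁ / 2) (R₁ / 2),
    deriv G χ = ∑ j ∈ range n, deriv (fun w => s (z χ j) (z χ ((j + 1) % n)) w) χ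
  val : ∀ χ ∈ Rc (R₁ / 2) (R₁ / 2), G χ = ∑ j ∈ range n, (Complex.I * a j * z χ j ^ 2 / (4 * π) +
    Complex.I * z χ j + F j (z χ j) + s (z χ j) (z χ ((j + 1) % n)) χ)
  close : ∀ χ ∈ Rc (R₁ / 2) (R₁ / 2), ∀ m : ℝ, 0 < m →
    (∀ j < n, b j = false → m ≤ |(a j : ℝ)|) → ‖G χ - n * s 0 0 χ‖ ≤ n * C₁ / m
  bdd : ∀ χ ∈ Rc (R₁ / 2) (R₁ / 2), ‖G χ‖ ≤ B₀ + n * (C₁ / M)
  conc : ∀ χ ∈ Rc (R₁ / 2) (R₁ / 2), (deriv (deriv G) χ).re ≤ -(c₀ / 2)
  mw : MW (fun N χ => XV ls N (χ + v₀)) G (Rc R R)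

theorem coreC {v₀ : ℂ} {ρ₀ ρ₁ : ℝ} {s : ℂ → ℂ → ℂ → ℂ} (hJ : SJ ρ₀ s) (hρ : ρ₁ ≤ ρ₀)
    {n : ℕ} (hn : 2 ≤ n) {ls : List (Vx × Vx)} (hls : 2 * ls.length = n) {Rd Bd : ℝ}
    {Y : ℕ → ℕ → ℂ → ℂ} {b : ℕ → Bool} {F : ℕ → ℂ → ℂ} (hD : ∀ j < n, DG Rd Bd (Y j) (F j))
    (hvy : ∀ j < n, ∀ N ψ, vy ls j N ψ = Ub (b j) N ψ * Y j N ψ)
    {R₁ c₀ B₀ p₀ C₁ : ℝ} (hRρ : R₁ ≤ ρ₁) (hRd : R₁ ≤ Rd)
    (hPot : PotE (n + 1) n R₁ c₀ B₀ p₀ (SrF s F n) (DrF s F n)) {σ : Equiv.Perm ℕ} {e : ℕ}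
    (he : e ≤ n) (hσ : ∀ i, n ≤ i → σ i = i) (hσb : ∀ i < n, (b (σ i) = false ↔ i < e))
    {a : ℕ → ℤ} (ha : ∀ j, a j = cw (wl ls) j)
    {zz : ℕ → (ℕ → ℂ) → ℕ → ℂ} (hC1 : 0 < C₁)
    (hz : CrtE (n + 1) e R₁ c₀ B₀ p₀ C₁ (fun ψ => SrF s F n (ψ ∘ σ.symm))
      (fun j ψ => DrF s F n (σ j) (ψ ∘ σ.symm)) (fun i => a (σ i)) zz) {M : ℝ} (hM : 0 < M)
    (haM : ∀ j < n, b j = false → M ≤ |(a j : ℝ)|) {R r' : ℝ} (hR : 0 < R) (hRR : R ≤ R₁ / 4)
    (hRr : R < r')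
    (hlim : SeqLim (n + 1) r' (fun N => itG (fun i => Lc (b (σ i)) (a (σ i)) N) n
      (fun φ => gY v₀ Y n N (φ ∘ σ.symm)))
      (fun ψ => Uj (fun ψ => SrF s F n (ψ ∘ σ.symm)) (fun i => a (σ i)) e (zz e (zr e n ψ)))) :
    OutC v₀ R₁ R c₀ B₀ C₁ M p₀ s n b a F ls
      (fun χ => Uj (fun ψ => SrF s F n (ψ ∘ σ.symm)) (fun i => a (σ i)) e
        (zz e (Function.update 0 n χ)))
      (fun χ => zz e (Function.update 0 n χ) ∘ σ.symm) := by
  have hR1 := hPot.hR.1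
  have hp₀ : 0 < p₀ := hPot.hp
  have hs := perm_symm hσ
  have hσL : ∀ i, n + 1 ≤ i → σ i = i := perm_le hσ (by omega)
  have hσn : σ n = n := hσ n le_rfl
  have hsn : σ.symm n = n := hs n le_rfl
  obtain ⟨S, hSd⟩ : ∃ S : (ℕ → ℂ) → ℂ, S = fun ψ => SrF s F n (ψ ∘ σ.symm) := ⟨_, rfl⟩
  have hSe : ∀ ψ, S ψ = SrF s F n (ψ ∘ σ.symm) := fun ψ => by rw [hSd]
  rw [← hSd] at hz hlim ⊢
  have hσe : ∀ i < e, b (σ i) = false := fun i hi => (hσb i (by omega)).2 hi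
  have hse : ∀ j < n, b j = false → σ.symm j < e := by
    intro j hj h
    refine (hσb _ (perm_lt hs hj)).1 ?_
    rw [Equiv.apply_symm_apply]
    exact h
  have hse' : ∀ j < n, b j = true → e ≤ σ.symm j := by
    intro j hj h
    by_contra hc
    rw [not_le] at hc
    have h1 := hσe _ hc
    rw [Equiv.apply_symm_apply, h] at h1
    exact Bool.noConfusion h1
  -- the function
  obtain ⟨up, hup⟩ : ∃ up : ℂ → ℕ → ℂ, up = fun χ => Function.update (0 : ℕ → ℂ) n χ := ⟨_, rfl⟩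
  have hup' : ∀ χ, Function.update (0 : ℕ → ℂ) n χ = up χ := fun χ => by rw [hup]
  simp only [hup']
  have hupn : ∀ χ, up χ n = χ := fun χ => by rw [hup]; exact Function.update_self _ _ _
  have hupi : ∀ χ, ∀ i, i ≠ n → up χ i = 0 := fun χ i hi => by
    rw [hup]; exact Function.update_of_ne hi _ _
  have hupu : ∀ χ w, Function.update (up χ) n w = up w := fun χ w => by
    rw [hup]; exact Function.update_idem _ _ _
  have hupB : ∀ χ ∈ Rc (R₁ / 2) (R₁ / 2), up χ ∈ Bx (n + 1) (R₁ / 2) := by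
    intro χ hχ i hi
    by_cases h : i = n
    · rw [h, hupn]; exact hχ
    · rw [hupi χ i h]; exact rc_zero (by positivity)
  have hyn : ∀ χ ∈ Rc (R₁ / 2) (R₁ / 2), zz e (up χ) n = χ := fun χ hχ => by
    rw [hz.rest e le_rfl (up χ) (hupB χ hχ) n he, hupn]
  have hyR : ∀ χ ∈ Rc (R₁ / 2) (R₁ / 2), zz e (up χ) ∈ Bx (n + 1) (R₁ / 2) := by
    intro χ hχ i hi
    by_cases h : i < e
    · have h1 := hz.sm e le_rfl (up χ) (hupB χ hχ) i h
      exact rc_norm (by linarith [h1.1, h1.2.1])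
    · rw [hz.rest e le_rfl (up χ) (hupB χ hχ) i (by omega)]
      exact hupB χ hχ i hi
  -- the configuration in the order of the ring
  obtain ⟨z, hzd⟩ : ∃ z : ℂ → ℕ → ℂ, z = fun χ => zz e (up χ) ∘ σ.symm := ⟨_, rfl⟩
  rw [← hzd]
  have hzeq : ∀ χ, z χ = zz e (up χ) ∘ σ.symm := fun χ => by rw [hzd]
  have hzn : ∀ χ ∈ Rc (R₁ / 2) (R₁ / 2), z χ n = χ := fun χ hχ => by
    rw [hzeq, Function.comp_apply, hsn, hyn χ hχ]
  have hzB : ∀ χ ∈ Rc (R₁ / 2) (R₁ / 2), z χ ∈ Bx (n + 1) (R₁ / 2) := fun χ hχ => by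
    rw [hzeq]
    exact bx_comp hσL (hyR χ hχ)
  have hyB : ∀ χ ∈ Rc (R₁ / 2) (R₁ / 2), ∀ i < n + 1, z χ i ∈ Rc ρ₀ ρ₀ := fun χ hχ i hi =>
    rc_mono (by linarith) (hzB χ hχ i hi)
  have hz0 : ∀ χ ∈ Rc (R₁ / 2) (R₁ / 2), ∀ j < n, b j = true → z χ j = 0 := by
    intro χ hχ j hj hbj
    have h1 := hse' j hj hbj
    have h2 := perm_lt hs hj
    rw [hzeq, Function.comp_apply, hz.rest e le_rfl (up χ) (hupB χ hχ) _ h1, hupi χ _ (by omega)]
  obtain ⟨G, hG⟩ : ∃ G : ℂ → ℂ, G = fun χ => Uj S (fun i => a (σ i)) e (zz e (up χ)) := ⟨_, rfl⟩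
  rw [← hG]
  have hGeq : ∀ χ, G χ = Uj S (fun i => a (σ i)) e (zz e (up χ)) := fun χ => by rw [hG]
  have hGd : ∀ χ ∈ Rc (R₁ / 2) (R₁ / 2), HasDerivAt G (DrF s F n n (z χ)) χ := by
    intro χ hχ
    have h := hz.der e le_rfl (up χ) (hupB χ hχ) n he (by omega)
    simp only [hupu, hupn, hσn] at h
    rw [hG, hzeq]
    exact h
  have hopen := rc_open (R₁ / 2) (R₁ / 2)
  have hS0 : ∀ χ, S (fun i => if i < e then 0 else up χ i) = n * s 0 0 χ := by
    intro χ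
    rw [hSe]
    have k1 : ∀ j < n, ((fun i => if i < e then 0 else up χ i) ∘ σ.symm) j = 0 := by
      intro j hj
      have h2 := perm_lt hs hj
      show (if σ.symm j < e then (0 : ℂ) else up χ (σ.symm j)) = 0
      split_ifs
      · rfl
      · exact hupi χ _ (by omega)
    have k2 : ((fun i => if i < e then 0 else up χ i) ∘ σ.symm) n = χ := by
      show (if σ.symm n < e then (0 : ℂ) else up χ (σ.symm n)) = χ
      rw [hsn, if_neg (by omega), hupn]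
    unfold SrF Sr
    rw [k2]
    have e0 : ∑ j ∈ range n, F j (((fun i => if i < e then 0 else up χ i) ∘ σ.symm) j) = 0 := by
      refine sum_eq_zero fun j hj => ?_
      rw [mem_range] at hj
      rw [k1 j hj]
      exact (hD j hj).F0
    rw [e0, add_zero]
    have : ∀ j ∈ range n, s (((fun i => if i < e then 0 else up χ i) ∘ σ.symm) j)
        (((fun i => if i < e then 0 else up χ i) ∘ σ.symm) ((j + 1) % n)) χ = s 0 0 χ := by
      intro j hj
      rw [mem_range] at hj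
      rw [k1 j hj, k1 _ (Nat.mod_lt (j + 1) (by omega : 0 < n))]
    rw [sum_congr rfl this, sum_const, card_range, nsmul_eq_mul]
  have hclose : ∀ χ ∈ Rc (R₁ / 2) (R₁ / 2), ∀ m : ℝ, 0 < m →
      (∀ j < n, b j = false → m ≤ |(a j : ℝ)|) → ‖G χ - n * s 0 0 χ‖ ≤ n * C₁ / m := by
    intro χ hχ m hm0 hm
    have h := (hz.close e le_rfl (up χ) (hupB χ hχ)).1
    rw [hS0] at h
    have e2 : ∑ i ∈ range e, C₁ / |((fun i => a (σ i)) i : ℝ)| ≤ ∑ _i ∈ range e, C₁ / m :=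
      sum_le_sum fun i hi => div_le_div_of_nonneg_left hC1.le hm0
        (hm (σ i) (perm_lt hσ (by rw [mem_range] at hi; omega)) (hσe i (mem_range.1 hi)))
    rw [sum_const, card_range, nsmul_eq_mul] at e2
    rw [hGeq]
    refine h.trans (e2.trans ?_)
    rw [mul_div_assoc]
    refine mul_le_mul_of_nonneg_right ?_ (by positivity)
    exact_mod_cast he
  have hpos : ∀ χ ∈ Rc (R₁ / 2) (R₁ / 2), p₀ / 2 ≤ (G χ).re := by
    intro χ hχ
    rw [hG]
    exact (hz.close e le_rfl (up χ) (hupB χ hχ)).2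
  -- asymptotics
  obtain ⟨K, hK⟩ : ∃ K : Set ℂ, K = {z : ℂ | |z.re| ≤ R ∧ |z.im| ≤ R} := ⟨_, rfl⟩
  have hKc : IsCompact K := by
    rw [hK]
    refine Metric.isCompact_of_isClosed_isBounded ?_ ?_
    · have h1 : IsClosed {z : ℂ | |z.re| ≤ R} := isClosed_le (by fun_prop) continuous_const
      have h2 : IsClosed {z : ℂ | |z.im| ≤ R} := isClosed_le (by fun_prop) continuous_const
      exact h1.inter h2
    · rw [isBounded_iff_forall_norm_le]
      refine ⟨2 * R, fun z hz => ?_⟩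
      have h1 := Complex.norm_le_abs_re_add_abs_im z
      have h2 := hz.1
      have h3 := hz.2
      linarith
  have hKsub : ∀ z ∈ K, z ∈ Rc (R₁ / 2) (R₁ / 2) := by
    intro z hz
    rw [hK] at hz
    have h2 := hz.1
    have h3 := hz.2
    exact ⟨by linarith, by linarith⟩
  have hseq := Pool.Agent.W583.HT.seq ℂ K hKc
    (fun N z => Real.log ‖XV ls N (z + v₀)‖ / N) (fun z => (G z).re) (by
      intro z hz
      exact (Complex.continuous_re.continuousAt.comp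
        (hGd z (hKsub z hz)).continuousAt).continuousWithinAt) (by
      intro p p₁ hp₁ hp hpt
      have h1 := hKsub p₁ hp₁
      have hm : up p₁ ∈ Bx (n + 1) r' := by
        intro i hi
        by_cases h : i = n
        · rw [h, hupn]
          rw [hK] at hp₁
          exact ⟨lt_of_le_of_lt hp₁.1 hRr, lt_of_le_of_lt hp₁.2 hRr⟩
        · rw [hupi _ i h]; exact rc_zero (hR.trans hRr)
      have hnear := hlim (fun N => up (p N)) (up p₁) hm (by
        intro i hi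
        by_cases h : i = n
        · rw [h]
          simp only [hupn]
          exact hpt
        · simp only [hupi _ i h]
          exact tendsto_const_nhds)
      have e0 : (fun ψ => Uj S (fun i => a (σ i)) e (zz e (zr e n ψ))) (up p₁) = G p₁ := by
        have k1 : zr e n (up p₁) = up p₁ := by
          funext i
          unfold zr
          split_ifs with h
          · rw [hupi _ i (by omega)]
          · rfl
        beta_reduce
        rw [k1, hG]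
      rw [e0] at hnear
      refine hnear.congr' ?_
      filter_upwards [eventually_ge_atTop 1] with N hN
      rw [XV_eq (v₀ := v₀) (by omega) hls (fun j hj => (hD j hj).sub.an) hvy hσ hN (p N), hup']
      simp only [ha])
  refine
    { der := hGd
      sm := fun χ hχ j hj hbj => ?_
      zero := hz0
      crit := fun χ hχ j hj hbj => ?_
      derG := fun χ hχ => ?_
      val := fun χ hχ => ?_
      close := hclose
      bdd := fun χ hχ => ?_
      conc := fun χ hχ => ?_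
      mw := fun ε hε => ?_ }
  · have h := (hz.sm e le_rfl (up χ) (hupB χ hχ) (σ.symm j) (hse j hj hbj)).1
    simp only [Equiv.apply_symm_apply] at h
    rw [hzeq]
    exact h
  · have hi : (j + 1) % n < n := Nat.mod_lt _ (by omega)
    have h := hz.crit e le_rfl (up χ) (hupB χ hχ) (σ.symm ((j + 1) % n)) (hse _ hi hbj)
    simp only [Equiv.apply_symm_apply] at h
    have h' : Complex.I * a ((j + 1) % n) * z χ ((j + 1) % n) / (2 * π) + Complex.I +
        DrF s F n ((j + 1) % n) (z χ) = 0 := by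
      rw [hzeq]
      exact h
    have hFd : DifferentiableAt ℂ (F ((j + 1) % n)) (z χ ((j + 1) % n)) :=
      (hD _ hi).Fan.differentiableAt ((rc_open _ _).mem_nhds
        (rc_mono (by linarith) (hzB χ hχ _ (by omega))))
    rw [DrF_mid hJ (by omega) (hyB χ hχ) hi hFd, Dr_midj hJ hn (hyB χ hχ) hj, hzn χ hχ] at h'
    rw [← h']
    ring
  · rw [(hGd χ hχ).deriv, DrF_last, Dr_lastj hJ (by omega) (hyB χ hχ), hzn χ hχ]
  · have e1 : ∑ j ∈ range n, (Complex.I * a j * z χ j ^ 2 / (4 * π) + Complex.I * z χ j) =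
        ∑ i ∈ range e, (Complex.I * a (σ i) * zz e (up χ) i ^ 2 / (4 * π) +
          Complex.I * zz e (up χ) i) := by
      have e2 : ∑ j ∈ range n, (Complex.I * a j * z χ j ^ 2 / (4 * π) + Complex.I * z χ j) =
          ∑ i ∈ range n, (Complex.I * a (σ i) * zz e (up χ) i ^ 2 / (4 * π) +
            Complex.I * zz e (up χ) i) := by
        refine (sum_equiv σ (fun j => ?_) fun j _ => ?_).symm
        · rw [mem_range, mem_range]
          constructor
          · exact perm_lt hσ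
          · intro hj
            have := perm_lt (perm_symm hσ) hj
            rwa [Equiv.symm_apply_apply] at this
        · rw [hzeq, Function.comp_apply, Equiv.symm_apply_apply]
      rw [e2, range_eq_Ico, ← sum_Ico_consecutive _ (Nat.zero_le e) he, ← range_eq_Ico]
      have e3 : ∑ i ∈ Ico e n, (Complex.I * a (σ i) * zz e (up χ) i ^ 2 / (4 * π) +
          Complex.I * zz e (up χ) i) = 0 := by
        refine sum_eq_zero fun i hi => ?_
        rw [mem_Ico] at hi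
        rw [hz.rest e le_rfl (up χ) (hupB χ hχ) i hi.1, hupi χ i (by omega)]
        simp
      rw [e3, add_zero]
    rw [hGeq]
    unfold Uj
    rw [← e1, hSe, ← hzeq]
    unfold SrF Sr
    rw [hzn χ hχ, ← sum_add_distrib, ← sum_add_distrib]
    refine sum_congr rfl fun j hj => ?_
    ring
  · have h1 := hclose χ hχ M hM haM
    have h3 : (fun i => if i < e then 0 else up χ i) ∈ Bx (n + 1) R₁ := by
      intro i hi
      by_cases h : i < e
      · simp only [if_pos h]; exact rc_zero hR1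
      · simp only [if_neg h]
        exact rc_mono (by linarith) (hupB χ hχ i hi)
    have h4 := (hPot.bd _ (bx_comp hσL h3)).1
    rw [← hSe, hS0] at h4
    have h5 := norm_le_insert' (G χ) (n * s 0 0 χ)
    rw [mul_div_assoc] at h1
    linarith
  · have h := hz.conc e le_rfl (up χ) (hupB χ hχ) n he (by omega)
    simp only [hupu, hupn, hσn] at h
    have e : deriv G =ᶠ[𝓝 χ] fun w => DrF s F n n (z w) := by
      filter_upwards [hopen.mem_nhds hχ] with w hw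
      exact (hGd w hw).deriv
    rw [e.deriv_eq]
    simp only [hzeq]
    exact h
  · filter_upwards [hseq (min ε (p₀ / 4)) (lt_min hε (by positivity)), eventually_ge_atTop 1] with
      N hN h1 χ hχ
    have hNp : (0 : ℝ) < N := by exact_mod_cast h1
    have h2 := hN χ (by rw [hK]; exact ⟨hχ.1.le, hχ.2.le⟩)
    have h3 := hpos χ (rc_mono (by linarith) hχ)
    refine ⟨?_, ?_⟩
    · intro h0
      have h4 := h2.trans (min_le_right _ _)
      simp only [h0, norm_zero, Real.log_zero, zero_div, zero_sub, abs_neg] at h4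
      have h5 := le_abs_self (G χ).re
      linarith
    · have h4 := h2.trans (min_le_left _ _)
      have h5 : Real.log ‖XV ls N (χ + v₀)‖ / N - (G χ).re =
          (Real.log ‖XV ls N (χ + v₀)‖ - N * (G χ).re) / N := by
        field_simp
      rw [h5, abs_div, abs_of_pos hNp, div_le_iff₀ hNp] at h4
      exact h4

end Pool.Agent.N518.RC
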