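import Pool.Agent.Y481.DR.Final
import Pool.Agent.N518.RC.Defs

/-!
# The exact formula for rings of trees with circles at the ring vertices
-/

set_option autoImplicit false

namespace Pool.Agent.N518.RC

open Finset Filter Topology Polynomial
open Pool.Agent.W711.HT (vN un upp Rp kr Ea)
open Pool.Agent.W719.AR (dd ps Lm)
open Pool.Agent.TH563.UV (Tb op XX Eb kb)
open Pool.Agent.TH639.J28 (evb Kt)
open Pool.Agent.Y472 (mx cas uu T2)
open Pool.Agent.TH219.J139 (Ub)
open Pool.Agent.Y624.DR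
open Pool.Agent.Y481.DR
open scoped Real

/-- the value of the divided difference at the root of unity -/
theorem valuec {N : ℕ} (hN : 2 ≤ N) (t : Tb) {i j : ℕ} (hij : i ≤ j)
    (hj : j < N) :
    DD N (Icc i j).card (Lagrange.nodal (Icc i j) (uu (vN N) (-1))) (PL N t) =
      (Complex.I * Kt N t) * cV N (tvc t) i j := by
  obtain ⟨a, ha⟩ : ∃ a, a = N - 1 - j := ⟨_, rfl⟩
  obtain ⟨b, hb⟩ : ∃ b, b = N - 1 - i := ⟨_, rfl⟩
  have hcard : (Icc i j).card = (Icc a b).card := by
    rw [Nat.card_Icc, Nat.card_Icc]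
    omega
  rw [nodal_refl hN hij hj, hcard, ← ha, ← hb]
  have h1 : Tendsto (fun v => DD N (Icc a b).card (Lagrange.nodal (Icc a b) (un v))
      (NP N v (dd v (evb N v t)))) (𝓝[≠] vN N)
      (𝓝 (DD N (Icc a b).card (Lagrange.nodal (Icc a b) (un (vN N))) (PL N t))) :=
    DD_tendsto (nodal_PT _ fun k _ => un_tend N k) (PT_PL hN t) N _
  have hLm : Lm N (fun v c => evb N v t c * ∏ m ∈ range a, (un v c - un v m))
      (fun ψ => Kt N t * (Eb t.bl t.wt N ψ * XX t N ψ) *
        ∏ m ∈ range a, (-2 * Complex.cos ψ - un (vN N) m)) := by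
    refine Pool.Agent.W885.AR.lm_mul (lm_t hN t) ?_
    refine Pool.Agent.W885.AR.lm_prod (range a) (fun m v c => un v c - un v m)
      (fun m ψ => -2 * Complex.cos ψ - un (vN N) m) ?_
    intro m _
    have h2 := Pool.Agent.W885.AR.lm_add (Pool.Agent.W885.AR.lm_un hN)
      (Pool.Agent.W885.AR.lm_const N (fun v => - un v m) (- un (vN N) m) (un_tend N m).neg)
    simpa [sub_eq_add_neg] using h2
  have h3 := Pool.Agent.W490.AR.lmd N _ _ hN hLm b (by omega)
  have h4 := tendsto_nhds_unique h1 (h3.congr' ?_)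
  · rw [h4]
    have e1 : N - 1 - b = i := by omega
    have e2 : (fun ψ => Kt N t * (Eb t.bl t.wt N ψ * XX t N ψ) *
        (∏ m ∈ range a, (-2 * Complex.cos ψ - un (vN N) m)) * Rp N i ψ * kr N ψ) =
        fun ψ => (Kt N t * (-1) ^ a) *
          (Ea t.wt N ψ * (Ub t.bl N ψ * XX t N ψ) * Rp N a ψ * Rp N i ψ * kr N ψ) := by
      funext ψ
      rw [prod_lim' (by omega)]
      unfold Eb Ub
      ring
    rw [e1, e2, Pool.Agent.W803.AR.upp_mul]
    unfold cV tvc
    rw [← ha, pow_add]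
    ring
  · filter_upwards [un_inj_ev N] with v hv
    rw [dd_shift hv _ (by omega : a ≤ b) (by omega),
      ← DD_eq (Finset.nonempty_Icc.2 (by omega)) (hv.mono ?_) (NP_deg (by omega) _ _)]
    · refine Finset.sum_congr rfl fun k hk => ?_
      rw [Finset.mem_Icc] at hk
      rw [NP_eval hv _ (by omega)]
    · intro k hk
      rw [Finset.mem_coe, Finset.mem_Icc] at hk
      rw [Finset.mem_coe, Finset.mem_range]
      omega

/-- TPL, every root -/
theorem tplc (t : Tb) (N : ℕ) (hN : 2 ≤ N) : ∃ (P : Polynomial ℂ) (C : ℂ),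
    ‖C‖ = ((N : ℝ) ^ 2 / (2 * π)) ^ t.ne ∧
    mx N (Polynomial.aeval (cas (vN N) (-1)) P) = op N (vN N) t ∧
    GDP N P (fun i j => C * cV N (tvc t) i j) := by
  refine ⟨PL N t, Complex.I * Kt N t, ?_, op_PL hN t, ?_⟩
  · rw [norm_mul, Complex.norm_I, one_mul, norm_Kt]
  · intro i j hij hj
    have hN0 : 0 < N := by omega
    refine ⟨fun ε => DD N (Icc i j).card (Lagrange.nodal (Icc i j)
      (uu (vN N) (-Complex.exp ε))) (PL N t), ?_, ?_, ?_⟩
    · refine DD_diff (PD.prod fun k _ => ?_) _ _ _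
      have e : (fun ε => uu (vN N) (-Complex.exp ε) k) =
          fun ε => 2 * Complex.cos (Pool.Agent.Y686.CB.zn N ε k) := by
        funext ε
        exact Pool.Agent.Y686.CB.uu_eq hN0 ε k
      rw [e]
      unfold Pool.Agent.Y686.CB.zn
      fun_prop
    · simp only [Complex.exp_zero]
      exact valuec hN t hij hj
    · filter_upwards [Pool.Agent.Y686.CB.small_ev hN0, self_mem_nhdsWithin] with ε h2 h3
      have h3' : ε ≠ 0 := h3
      have hinj : Set.InjOn (uu (vN N) (-Complex.exp ε)) (Icc i j) := by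
        intro k hk m hm h
        rw [Finset.mem_coe, Finset.mem_Icc] at hk hm
        rw [Pool.Agent.Y686.CB.uu_eq hN0, Pool.Agent.Y686.CB.uu_eq hN0] at h
        exact Pool.Agent.Y686.CB.zn_inj hN0 h3' h2 (by omega) (by omega)
          (mul_left_cancel₀ two_ne_zero h)
      have hP : (PL N t).natDegree < N := NP_deg hN0 _ _
      exact (DD_eq (Finset.nonempty_Icc.2 hij) hinj hP).symm

/-- **EXC** -/
theorem exc : S_EXC := by
  intro N ts m hN hts
  choose P C hPC using fun t : Tb => tplc t N hN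
  let d : Tb × Tb → PV × PV := fun p => ((P p.1, tvc p.1, C p.1), (P p.2, tvc p.2, C p.2))
  have h1 := Pool.Agent.Y317.DR.exp Pool.Agent.Y484.DR.trp N (ts.map d) m hN (by simpa using hts) (by
    intro x hx
    obtain ⟨p, hp, rfl⟩ := List.mem_map.1 hx
    exact ⟨(hPC p.1).2.2, (hPC p.2).2.2⟩)
  have h2 : JD ts m N (vN N) = JP N (vN N) (-1) m ((ts.map d).map fun d => (d.1.1, d.2.1)) := by
    apply Pool.Agent.Y884.DR.jpd N ts _ m hN
    rw [List.map_map, List.forall₂_map_right_iff, List.forall₂_same]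
    intro p hp
    exact ⟨(hPC p.1).2.1.symm, (hPC p.2).2.1.symm⟩
  rw [h2, h1]
  have h3 : ((ts.map d).map fun d => ‖d.1.2.2‖ * ‖d.2.2.2‖).prod =
      ((N : ℝ) ^ 2 / (2 * π)) ^ nel ts := by
    rw [List.map_map]
    exact Pool.Agent.Y407.DR.prod_nel _ C ts fun p hp => ⟨(hPC p.1).1, (hPC p.2).1⟩
  have h4 : (ts.map d).map (fun d => (d.1.2.1, d.2.2.1)) = tvcl ts := by
    rw [List.map_map]
    rfl
  rw [h3, h4]

end Pool.Agent.N518.RC
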