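import Pool.Agent.N518.RC.Heavy
import Pool.Agent.Y481.DR.Defs
import Pool.Agent.Y674.CG.XLZ

/-!
# Bounds of the kernel of the ring
-/

set_option autoImplicit false
set_option linter.all false

namespace Pool.Agent.N518.RC

open Finset Filter Topology Metric
open Pool.Agent.W711.HT hiding XX
open Pool.Agent.Y472
open Pool.Agent.Y481.DR
open Pool.Agent.Y674.CB (rc_open rc_mono rc_norm rc_zero rc_neg bx_mono log_near)
open Pool.Agent.Y674.CG (gW rz_mem)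
open Pool.Agent.Y481 (itI itN itG itG_sep itI_eq LI_lin Sep cw LI LN)
open scoped Real

/-- the functions of the children near zero -/
lemma dg_lip {R₀ B : ℝ} (hR : 0 < R₀) {Y : ℕ → ℂ → ℂ} {F : ℂ → ℂ} (hD : DG R₀ B Y F) {w : ℂ}
    (hw : w ∈ Rc (R₀ / 2) (R₀ / 2)) : ‖F w‖ ≤ B / (R₀ / 2) * ‖w‖ := by
  have hR2 : 0 < R₀ / 2 := by positivity
  have hsub : Rc (R₀ / 2) (R₀ / 2) ⊆ Rc R₀ R₀ := rcm (by linarith) (by linarith)
  have h1 := (convex_Rc' (R₀ / 2)).norm_image_sub_le_of_norm_deriv_le (f := F)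
    (C := B / (R₀ / 2))
    (fun z hz => (hD.Fan z (hsub hz)).differentiableAt ((rc_open _ _).mem_nhds (hsub hz)))
    (fun z hz => by
      have hcb : closedBall z (R₀ / 2) ⊆ Rc R₀ R₀ := by
        intro v hv
        rw [mem_closedBall, dist_eq_norm] at hv
        have k1 := (Complex.abs_re_le_norm (v - z)).trans hv
        have k2 := (Complex.abs_im_le_norm (v - z)).trans hv
        rw [Complex.sub_re] at k1
        rw [Complex.sub_im] at k2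
        have k3 := abs_sub_abs_le_abs_sub v.re z.re
        have k4 := abs_sub_abs_le_abs_sub v.im z.im
        exact ⟨by linarith [hz.1], by linarith [hz.2]⟩
      refine Complex.norm_deriv_le_of_forall_mem_sphere_norm_le hR2 ?_
        (fun v hv => hD.Fbd v (hcb (sphere_subset_closedBall hv)))
      exact (hD.Fan.mono hcb).diffContOnCl_ball subset_rfl) (rc_zero hR2) hw
  rw [hD.F0, sub_zero, sub_zero] at h1
  exact h1

lemma dg_small {R₀ B ε : ℝ} (hR : 0 < R₀) (hB : 0 < B) (hε : 0 < ε) :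
    ∃ δ : ℝ, 0 < δ ∧ ∀ (Y : ℕ → ℂ → ℂ) (F : ℂ → ℂ), DG R₀ B Y F → ∀ᶠ N : ℕ in atTop,
      ∀ w ∈ Rc δ δ, ‖Y N w‖ ≤ Real.exp (N * ε) := by
  refine ⟨min (R₀ / 2) (ε * R₀ / (16 * B)), by positivity, ?_⟩
  intro Y F hD
  filter_upwards [hD.mw (ε / 2) (by positivity)] with N hN w hw
  have h1 : w ∈ Rc (R₀ / 2) (R₀ / 2) := rcm (min_le_left _ _) (min_le_left _ _) hw
  have h2 : w ∈ Rc R₀ R₀ := rcm (by linarith) (by linarith) h1
  obtain ⟨k1, k2⟩ := hN w h2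
  have k3 := dg_lip hR hD h1
  have k4 : ‖w‖ ≤ 2 * (ε * R₀ / (16 * B)) := by
    have h3 := Complex.norm_le_abs_re_add_abs_im w
    have h4 := lt_of_lt_of_le hw.1 (min_le_right (R₀ / 2) (ε * R₀ / (16 * B)))
    have h5 := lt_of_lt_of_le hw.2 (min_le_right (R₀ / 2) (ε * R₀ / (16 * B)))
    linarith
  have k5 : B / (R₀ / 2) * ‖w‖ ≤ ε / 4 := by
    refine (mul_le_mul_of_nonneg_left k4 (by positivity)).trans (le_of_eq ?_)
    field_simp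
    norm_num
  have k6 := (Complex.re_le_norm (F w)).trans (k3.trans k5)
  rw [← Real.log_le_iff_le_exp (norm_pos_iff.2 k1)]
  have k7 := (abs_le.1 k2).2
  have hN0 : (0 : ℝ) ≤ N := Nat.cast_nonneg N
  have k8 := mul_le_mul_of_nonneg_left k6 hN0
  nlinarith

/-- the function of `n + 1` variables, without the factors of the circles -/
noncomputable def gY (v₀ : ℂ) (Y : ℕ → ℕ → ℂ → ℂ) (n N : ℕ) (ψ : ℕ → ℂ) : ℂ :=
  gW v₀ n N ψ * ∏ j ∈ range n, Y j N (ψ j)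

theorem fb_ring (hKB : KBZc) {χ₀ : ℂ} (hZ : Zr χ₀) {ρ₀ c C : ℝ} (hS : SDZ χ₀ ρ₀ c C szz dzz)
    {Rd Bd : ℝ} (hRd : 0 < Rd) (hBd : 0 < Bd) {n : ℕ} (hn : 1 ≤ n) :
    ∃ (T K : ℝ → ℝ) (R : ℝ), (∀ ρ, 0 < ρ → 0 < T ρ) ∧ (∀ ρ, 0 < ρ → 0 < K ρ) ∧ 0 < R ∧ R ≤ ρ₀ ∧
      ∀ (Y : ℕ → ℕ → ℂ → ℂ) (F : ℕ → ℂ → ℂ), (∀ j < n, DG Rd Bd (Y j) (F j)) →
        FB n T K R (fun χ => n * (shz χ₀ szz 0 0 χ).re) (fun N ψ => gY χ₀ Y n N ψ) := by
  obtain ⟨ρs, c₂, hρs, hρs1, hc2, HK⟩ := hKB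
  have hρ0 := hS.hρ.1
  have hnR : (0 : ℝ) < n := by exact_mod_cast (by omega : 0 < n)
  obtain ⟨κ, hκ⟩ : ∃ κ : ℝ → ℝ, ∀ ρ, κ ρ = c₂ * min ρ ρs ^ 2 := ⟨fun ρ => c₂ * min ρ ρs ^ 2,
    fun _ => rfl⟩
  have hκ0 : ∀ ρ, 0 < ρ → 0 < κ ρ := fun ρ hρ => by
    rw [hκ]
    exact mul_pos hc2 (pow_pos (lt_min hρ hρs) _)
  have key : ∀ ρ : ℝ, ∃ t : ℝ, 0 < t ∧ t ≤ 1 ∧ (0 < ρ →
      (∀ᶠ N : ℕ in atTop, ∀ ψ ψ' χ : ℂ, |ψ.re| ≤ π → |ψ.im| ≤ t → |ψ'.re| ≤ π → |ψ'.im| ≤ t →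
        |χ.re| ≤ 2 * π / 3 → |χ.im| ≤ 9 / 5 → ‖kh N ψ ψ' χ‖ ≤ Real.exp (N * ((s0 χ).re -
          c₂ * min |ψ.re| ρs ^ 2 - c₂ * min |ψ'.re| ρs ^ 2 + κ ρ / (8 * n)))) ∧
      ∀ (Y : ℕ → ℂ → ℂ) (F : ℂ → ℂ), DG Rd Bd Y F → ∀ᶠ N : ℕ in atTop,
        ∀ w ∈ Rc t t, ‖Y N w‖ ≤ Real.exp (N * (κ ρ / (8 * n)))) := by
    intro ρ
    by_cases hρ : 0 < ρ
    · have hk := hκ0 ρ hρ
      obtain ⟨τ, hτ, h1⟩ := HK (κ ρ / (8 * n)) (by positivity)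
      obtain ⟨δ, hδ, h2⟩ := dg_small (ε := κ ρ / (8 * n)) hRd hBd (by positivity)
      refine ⟨min τ (min δ 1), by positivity, (min_le_right _ _).trans (min_le_right _ _),
        fun _ => ⟨?_, ?_⟩⟩
      · filter_upwards [h1] with N h1 ψ ψ' χ q1 q2 q3 q4 q5 q6
        exact h1 ψ ψ' χ q1 (q2.trans (min_le_left _ _)) q3 (q4.trans (min_le_left _ _)) q5 q6
      · intro Y F hD
        filter_upwards [h2 Y F hD] with N h2 w hw
        exact h2 w (rcm ((min_le_right _ _).trans (min_le_left _ _))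
          ((min_le_right _ _).trans (min_le_left _ _)) hw)
    · exact ⟨1, one_pos, le_rfl, fun h => absurd h hρ⟩
  choose T hT0 hT1 hT2 using key
  obtain ⟨R₃, hR3, hR3a, hR3b, hR3c⟩ : ∃ R₃ : ℝ, 0 < R₃ ∧ R₃ ≤ 1 / 2 ∧ R₃ ≤ 9 / 5 - χ₀.im ∧
      R₃ ≤ ρ₀ :=
    ⟨min (1 / 2) (min (9 / 5 - χ₀.im) ρ₀),
      lt_min (by norm_num) (lt_min (by linarith [hZ.2.2.2]) hρ0), min_le_left _ _,
      (min_le_right _ _).trans (min_le_left _ _), (min_le_right _ _).trans (min_le_right _ _)⟩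
  refine ⟨T, fun ρ => κ ρ / 2, R₃, fun ρ _ => hT0 ρ, fun ρ hρ => by have := hκ0 ρ hρ; positivity,
    hR3, hR3c, ?_⟩
  intro Y F hDG ρ hρ
  have hk := hκ0 ρ hρ
  obtain ⟨h1, h2⟩ := hT2 ρ hρ
  have e1 : ∀ᶠ N : ℕ in atTop, 1 / (N : ℝ) ≤ T ρ :=
    (tendsto_one_div_atTop_nhds_zero_nat).eventually_le_const (hT0 ρ)
  have eY : ∀ᶠ N : ℕ in atTop, ∀ j ∈ range n, ∀ ψ : ℂ,
      ((|ψ.re| ≤ π ∧ |ψ.im| ≤ 1 / N) ∨ ψ ∈ Rc (T ρ) (T ρ)) →
      ‖Y j N ψ‖ ≤ Real.exp (N * (κ ρ / (8 * n))) := by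
    rw [Filter.eventually_all_finset]
    intro j hj
    filter_upwards [(hDG j (mem_range.1 hj)).sub.gr (κ ρ / (8 * n)) (by positivity),
      h2 _ _ (hDG j (mem_range.1 hj))] with N k1 k2 ψ hψ
    rcases hψ with hψ | hψ
    · exact k1 ψ hψ.1 hψ.2
    · exact k2 ψ hψ
  filter_upwards [h1, e1, eventually_ge_atTop 1, eY] with N h2 h3 h4 hYb ψ hψ hχ
  have hN : (0 : ℝ) < N := by exact_mod_cast h4
  rintro ⟨j, hj, hj2⟩
  obtain ⟨χ, hχd⟩ : ∃ χ, χ = ψ n := ⟨_, rfl⟩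
  have hχ1 : |χ.re| ≤ R₃ := by rw [hχd]; exact hχ.1.le
  have hχ2 : |χ.im| ≤ R₃ := by rw [hχd]; exact hχ.2.le
  have hst : ∀ i < n, |(ψ i).re| ≤ π ∧ |(ψ i).im| ≤ T ρ := by
    intro i hi
    rcases hψ i hi with h | h
    · exact ⟨h.1, h.2.trans h3⟩
    · have hπ := Real.pi_gt_three
      exact ⟨by linarith [h.1, hT1 ρ], h.2.le⟩
  have hYP : ‖∏ i ∈ range n, Y i N (ψ i)‖ ≤ Real.exp (N * (κ ρ / 8)) := by
    rw [norm_prod]
    refine (prod_le_prod (fun _ _ => norm_nonneg _) fun i hi =>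
      hYb i hi (ψ i) (hψ i (mem_range.1 hi))).trans ?_
    rw [prod_const, card_range, ← Real.exp_nat_mul]
    apply Real.exp_le_exp.2
    apply le_of_eq
    field_simp
  have hE : (shz χ₀ szz 0 0 χ).re = (s0 (χ + χ₀)).re := by
    have h5 : χ ∈ Rc ρ₀ ρ₀ := by
      rw [hχd]
      exact rcm hR3c hR3c hχ
    have h6 : shz χ₀ szz 0 0 χ = s0 (χ + χ₀) := hS.zero _ (rz_mem h5)
    rw [h6]
  have hre : (χ + χ₀).re = χ.re + χ₀.re := Complex.add_re _ _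
  have him : (χ + χ₀).im = χ.im + χ₀.im := Complex.add_im _ _
  have hχπ : |(χ + χ₀).re| ≤ 2 * π / 3 := by
    have hp := Real.pi_gt_three
    have h5 := abs_le.1 hχ1
    rw [hre, abs_le]
    constructor <;> linarith [hZ.1, hZ.2.1, h5.1, h5.2]
  have hχi : |(χ + χ₀).im| ≤ 9 / 5 := by
    have h5 := abs_le.1 hχ2
    rw [him, abs_le]
    constructor <;> linarith [hZ.2.2.1, h5.1, h5.2]
  have hb : ∀ i ∈ range n, ‖kh N (ψ i) (ψ ((i + 1) % n)) (χ + χ₀)‖ ≤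
      Real.exp (N * ((shz χ₀ szz 0 0 χ).re + κ ρ / (8 * n) - if i = j then κ ρ else 0)) := by
    intro i hi
    rw [mem_range] at hi
    have hi2 : (i + 1) % n < n := Nat.mod_lt _ (by omega)
    refine (h2 (ψ i) (ψ ((i + 1) % n)) _ (hst i hi).1 (hst i hi).2 (hst _ hi2).1
      (hst _ hi2).2 hχπ hχi).trans ?_
    apply Real.exp_le_exp.2
    refine mul_le_mul_of_nonneg_left ?_ hN.le
    rw [hE]
    have q1 : 0 ≤ c₂ * min |(ψ ((i + 1) % n)).re| ρs ^ 2 := by positivity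
    have q3 : (if i = j then κ ρ else 0) ≤ c₂ * min |(ψ i).re| ρs ^ 2 := by
      split_ifs with hij
      · rw [hκ, hij]
        refine mul_le_mul_of_nonneg_left ?_ hc2.le
        exact pow_le_pow_left₀ (lt_min hρ hρs).le (min_le_min_right _ hj2) 2
      · positivity
    linarith
  have hWk : ‖gW χ₀ n N ψ‖ ≤ Real.exp (∑ i ∈ range n,
      N * ((shz χ₀ szz 0 0 χ).re + κ ρ / (8 * n) - if i = j then κ ρ else 0)) := by
    unfold gW Wk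
    rw [norm_prod, ← hχd]
    refine (prod_le_prod (fun _ _ => norm_nonneg _) hb).trans ?_
    rw [← Real.exp_sum]
  show ‖gY χ₀ Y n N ψ‖ ≤ Real.exp (N * (n * (shz χ₀ szz 0 0 (ψ n)).re - κ ρ / 2))
  unfold gY
  rw [norm_mul, ← hχd]
  refine (mul_le_mul hWk hYP (norm_nonneg _) (Real.exp_pos _).le).trans ?_
  rw [← Real.exp_add, ← mul_sum, ← mul_add]
  apply Real.exp_le_exp.2
  refine mul_le_mul_of_nonneg_left ?_ hN.le
  rw [sum_sub_distrib, sum_const, card_range, sum_ite_eq', if_pos (mem_range.2 hj),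
    nsmul_eq_mul]
  have e2 : (n : ℝ) * ((shz χ₀ szz 0 0 χ).re + κ ρ / (8 * n)) =
      n * (shz χ₀ szz 0 0 χ).re + κ ρ / 8 := by field_simp
  rw [e2]
  linarith

end Pool.Agent.N518.RC
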