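import Pool.Agent.N518.RC.XLC
import Pool.Agent.Y529.DR.V3
import Pool.Agent.Y481.DR.Final

/-!
# The growth rate of the exact expression, with circles at the vertices of the ring
(adapted from Y529/DR/V2.lean)
-/

set_option autoImplicit false
set_option linter.all false

namespace Pool.Agent.N518.RC

open Finset Filter Topology Metric
open Pool.Agent.W711.HT hiding XX
open Pool.Agent.Y472 Pool.Agent.Y481.DR Pool.Agent.Y421.CG
open Pool.Agent.Y833.CB
open Pool.Agent.Y481 (cw)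
open Pool.Agent.Y529.DR
open Pool.Agent.TH219.J139 (Ub Ub_diff Ub_even)
open scoped Real

/-- the function of a vertex with a circle -/
lemma subE_ub {Y : ℕ → ℂ → ℂ} (h : SubE Y) (b : Bool) {Z : ℕ → ℂ → ℂ}
    (hZ : ∀ N ψ, Z N ψ = Ub b N ψ * Y N ψ) : SubE Z := by
  refine ⟨fun N => ?_, fun N ψ => ?_, fun ε hε => ?_⟩
  · have : Z N = fun ψ => Ub b N ψ * Y N ψ := funext fun ψ => hZ N ψ
    rw [this]
    exact (Ub_diff b N).mul (h.an N)
  · rw [hZ, hZ, Ub_even, h.ev]
  · filter_upwards [h.gr (ε / 2) (by positivity), pow_ev (show 0 < ε / 2 by positivity) 3 1,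
      eventually_ge_atTop 1] with N h1 h2 hN ψ h3 h4
    have hNp : (0 : ℝ) < N := by exact_mod_cast hN
    have h5 := h1 ψ h3 h4
    have h6 := Ub_bd hN b (x := ψ.re) h4
    rw [Complex.re_add_im] at h6
    rw [pow_one] at h2
    rw [hZ, norm_mul]
    refine (mul_le_mul (h6.trans h2) h5 (norm_nonneg _) (Real.exp_pos _).le).trans (le_of_eq ?_)
    rw [← Real.exp_add]
    congr 1
    ring

theorem mainc_of (hbet : 0 < bet)
    (hKF : S_KFV) (hFA : FAVc) (hTH : THVc) (hXL : XLCc) (hCI : S_CIZ) (hCS : CSZc) (hCT : CTZc)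
    (hS0 : S_S0P) (hSD : ∀ χ₀ : ℂ, Zr χ₀ → ∃ ρ₀ c C : ℝ, SDZ χ₀ ρ₀ c C szz dzz) : S_MAINC := by
  intro k m hk hm hkm
  have hπ := Real.pi_gt_three
  have hπ2 := Real.pi_lt_d2
  obtain ⟨χ₀, hcr⟩ := hCS k m hk hm hkm
  obtain ⟨κ₀, δ₀, hκ0, hδ0, HC1, HC2⟩ := hCT k m χ₀ hk hm hcr
  obtain ⟨hZr, hcrit, hV1, hV2, hbs⟩ := hcr
  obtain ⟨ρ₀, c, C, hs⟩ := hSD χ₀ hZr
  refine ⟨χ₀, ρ₀, c, C, hZr, hs, fun R₀ B₀ ε hR₀ hB₀ hε => ?_⟩
  have hk0 : (1 : ℝ) ≤ k := by exact_mod_cast hk
  obtain ⟨R₁, c', hR1, hR11, hRρ, hRR₀, hc', B, C', M1, hB, hC', hM1, HX⟩ :=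
    hXL χ₀ ρ₀ c C hZr hbs.le hs R₀ B₀ hR₀ hB₀ k hk
  obtain ⟨hre1, hre2, him1, him2⟩ := hZr
  have hρ0 := hs.hρ.1
  have h00 : (0 : ℂ) ∈ Rc ρ₀ ρ₀ := by
    constructor <;> simpa using hρ0
  set S : ℝ := (s0 χ₀).re with hS
  set σ : ℝ := S - bet with hσ
  have hσ0 : 0 < σ := by rw [hσ]; linarith
  have habs : |χ₀.re| ≤ π / 2 := abs_le.2 ⟨by linarith, by linarith⟩
  -- the leading exponent near `χ₀`
  have hds : ∀ w : ℂ, |w.re| < 1 → HasDerivAt (fun w => s0 (w + χ₀)) (-(1 / π) * gh (w + χ₀)) w := by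
    intro w hw
    have h1 : |(w + χ₀).re| < π := by
      rw [Complex.add_re]
      have := abs_add_le w.re χ₀.re
      linarith
    exact ((hS0.1 (w + χ₀) h1).1).comp_add_const w χ₀
  set G0 : ℂ → ℂ := fun w => 2 * k * s0 (w + χ₀) with hG0
  have hdG0 : ∀ w : ℂ, |w.re| < 1 → HasDerivAt G0 (2 * k * (-(1 / π) * gh (w + χ₀))) w :=
    fun w hw => (hds w hw).const_mul _
  have hG00 : G0 0 = 2 * k * s0 χ₀ := by simp only [hG0]; rw [zero_add]
  have hdG00 : deriv G0 0 = -(2 * k / π * gh χ₀) := by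
    rw [(hdG0 0 (by simp)).deriv, zero_add]
    ring
  -- the leading critical function
  set H : ℂ → ℂ := fun w => Complex.I * m * (χ₀ + w) ^ 2 / (2 * π) + Complex.I * (χ₀ + w) + G0 w with hH
  have hH0 : (H 0).re = Vz k m χ₀ := by
    simp only [hH]
    rw [hG00, add_zero]
    rfl
  have hHc : ContinuousAt H 0 := by
    have h1 : ContinuousAt G0 0 := (hdG0 0 (by simp)).continuousAt
    have h2 : ContinuousAt (fun w : ℂ => Complex.I * m * (χ₀ + w) ^ 2 / (2 * π) +
        Complex.I * (χ₀ + w)) 0 := by fun_prop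
    exact h2.add h1
  have hcontS : ∀ η : ℝ, 0 < η → ∃ r : ℝ, 0 < r ∧ ∀ w ∈ Rc r r, ‖s0 (w + χ₀) - s0 χ₀‖ ≤ η := by
    intro η hη
    have h1 := (hds 0 (by simp)).continuousAt
    rw [Metric.continuousAt_iff] at h1
    obtain ⟨δ, hδ, h2⟩ := h1 η hη
    refine ⟨δ / 2, by positivity, fun w hw => ?_⟩
    have h3 : ‖w‖ < δ := by
      have := Complex.norm_le_abs_re_add_abs_im w
      linarith [hw.1, hw.2]
    have h4 := h2 (x := w) (by rwa [dist_zero_right])
    rw [dist_eq_norm, zero_add] at h4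
    exact h4.le
  have hcontH : ∀ η : ℝ, 0 < η → ∃ r : ℝ, 0 < r ∧ ∀ w : ℂ, ‖w‖ ≤ r → ‖H w - H 0‖ ≤ η := by
    intro η hη
    rw [Metric.continuousAt_iff] at hHc
    obtain ⟨δ, hδ, h2⟩ := hHc η hη
    refine ⟨δ / 2, by positivity, fun w hw => ?_⟩
    have h4 := h2 (x := w) (by rw [dist_zero_right]; linarith)
    rw [dist_eq_norm] at h4
    exact h4.le
  obtain ⟨Ra, hRa, hRa2⟩ := hcontS (σ / (16 * k)) (by positivity)
  set R : ℝ := min R₁ (min (χ₀.im / 2) (min Ra (min (1 / 4) ((9 / 5 - χ₀.im) / 2)))) with hR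
  have h95 : 0 < 9 / 5 - χ₀.im := by linarith
  have hR0 : 0 < R := by positivity
  have r1 : R ≤ R₁ := min_le_left _ _
  have r2 : R ≤ χ₀.im / 2 := (min_le_right _ _).trans (min_le_left _ _)
  have r3 : R ≤ Ra := (min_le_right _ _).trans ((min_le_right _ _).trans (min_le_left _ _))
  have r4 : R ≤ 1 / 4 := (min_le_right _ _).trans ((min_le_right _ _).trans
    ((min_le_right _ _).trans (min_le_left _ _)))
  have r5 : R ≤ (9 / 5 - χ₀.im) / 2 := (min_le_right _ _).trans ((min_le_right _ _).trans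
    ((min_le_right _ _).trans (min_le_right _ _)))
  obtain ⟨κ₁, δ₁, hκ1, hδ1, HC1⟩ := HC1 (R / 2) (by positivity)
  set κ : ℝ := min κ₀ κ₁ with hκ
  have hκp : 0 < κ := by positivity
  have k1 : κ ≤ κ₀ := min_le_left _ _
  have k2 : κ ≤ κ₁ := min_le_right _ _
  set v : ℝ := min (κ / 8) (1 / 200) with hv
  have hv0 : 0 < v := by positivity
  have v1 : v ≤ κ / 8 := min_le_left _ _
  have v2 : v ≤ 1 / 200 := min_le_right _ _
  obtain ⟨Rb, hRb, hRb2⟩ := hcontH (v / 2) (by positivity)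
  set r : ℝ := min (R / 8) (min δ₁ (min δ₀ (min Rb ε))) with hr
  have hr0 : 0 < r := by positivity
  have s1 : r ≤ R / 8 := min_le_left _ _
  have s2 : r ≤ δ₁ := (min_le_right _ _).trans (min_le_left _ _)
  have s3 : r ≤ δ₀ := (min_le_right _ _).trans ((min_le_right _ _).trans (min_le_left _ _))
  have s4 : r ≤ Rb := (min_le_right _ _).trans ((min_le_right _ _).trans
    ((min_le_right _ _).trans (min_le_left _ _)))
  have s5 : r ≤ ε := (min_le_right _ _).trans ((min_le_right _ _).trans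
    ((min_le_right _ _).trans (min_le_right _ _)))
  set η : ℝ := min (σ / 16) (min (v / 2) (min ε (c' * r * R / 8))) with hη
  have hη0 : 0 < η := by positivity
  have e1 : η ≤ σ / 16 := min_le_left _ _
  have e2 : η ≤ v / 2 := (min_le_right _ _).trans (min_le_left _ _)
  have e3 : η ≤ ε := (min_le_right _ _).trans ((min_le_right _ _).trans (min_le_left _ _))
  have e4 : η ≤ c' * r * R / 8 := (min_le_right _ _).trans ((min_le_right _ _).trans (min_le_right _ _))
  set M : ℝ := max M1 (C' / η) with hM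
  have m1 : M1 ≤ M := le_max_left _ _
  have m2 : C' / η ≤ M := le_max_right _ _
  have hM0 : 0 < M := lt_of_lt_of_le hM1 m1
  have hCM : C' / M ≤ η := by
    rw [div_le_iff₀ hM0]
    rw [div_le_iff₀ hη0] at m2
    linarith
  refine ⟨M, fun ls b Y F hlen hDG hvy hls => ?_⟩
  have hSub : SubL ls := subl_of fun j hj =>
    subE_ub (hDG j (by rwa [hlen] at hj)).sub (b j) (hvy j (by rwa [hlen] at hj))
  have hAn : AnL ls := anl_of hSub
  have hls0 : ls ≠ [] := by
    rintro rfl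
    simp at hlen
    omega
  obtain ⟨G, z, hGd, hGb, hMW, hz, hclose⟩ := HX ls b Y F hlen hDG hvy
    (fun j hj hb => m1.trans (hls j hj hb))
  obtain ⟨hzs, hGc⟩ := hclose M hls hM0
  have hsub : Rc R R ⊆ Rc R₁ R₁ := fun w hw => ⟨lt_of_lt_of_le hw.1 r1, lt_of_lt_of_le hw.2 r1⟩
  have hsubρ : Rc R R ⊆ Rc ρ₀ ρ₀ := fun w hw =>
    ⟨lt_of_lt_of_le (hsub hw).1 hRρ, lt_of_lt_of_le (hsub hw).2 hRρ⟩
  have hopen : IsOpen (Rc R R) := by
    have h1 : Rc R R = {z : ℂ | |z.re| < R} ∩ {z : ℂ | |z.im| < R} := rfl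
    rw [h1]
    exact (isOpen_lt (Complex.continuous_re.abs) continuous_const).inter
      (isOpen_lt (Complex.continuous_im.abs) continuous_const)
  have hGd' : DifferentiableOn ℂ G (Rc R R) := hGd.mono hsub
  have hG0d : DifferentiableOn ℂ G0 (Rc R R) := fun w hw =>
    (hdG0 w (by linarith [hw.1])).differentiableAt.differentiableWithinAt
  have hcl : ∀ w ∈ Rc R R, ‖G w - G0 w‖ ≤ η := by
    intro w hw
    have h1 : w + χ₀ ∈ Rz χ₀ ρ₀ := by
      show w + χ₀ - χ₀ ∈ Rc ρ₀ ρ₀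
      rw [add_sub_cancel_right]
      exact hsubρ hw
    have h2 := hGc w (hsub hw)
    rw [hs.zero _ h1] at h2
    exact h2.trans hCM
  -- the critical point
  have hd1 := deriv_close hR0 hGd' hG0d hcl
  rw [hdG00] at hd1
  have hdd : DifferentiableOn ℂ (deriv G) (Rc R R) := hGd'.deriv hopen
  have hgd : ∀ w ∈ Rc R R, HasDerivAt (fun w => Complex.I * m * (χ₀ + w) / π + Complex.I + deriv G w)
      (Complex.I * m / π + deriv (deriv G) w) w := by
    intro w hw
    have h1 : HasDerivAt (fun w : ℂ => Complex.I * m * (χ₀ + w) / π + Complex.I)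
        (Complex.I * m / π) w := by
      have := ((((hasDerivAt_id w).const_add χ₀).const_mul (Complex.I * m)).div_const (π : ℂ)).add_const
        Complex.I
      simpa using this
    exact h1.add ((hdd w hw).differentiableAt (hopen.mem_nhds hw)).hasDerivAt
  obtain ⟨χ, hχn, hχc⟩ := zero_near
    (g := fun w => Complex.I * m * (χ₀ + w) / π + Complex.I + deriv G w) (R := R) (r := r) (c := c')
    hr0 (by linarith) hc' (fun w hw => (hgd w hw).differentiableAt.differentiableWithinAt)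
    (fun w hw => by
      rw [(hgd w hw).deriv, Complex.add_re]
      have h1 : (Complex.I * m / π).re = 0 := by
        have : (Complex.I * m / π : ℂ) = (((m : ℝ) / π : ℝ) : ℂ) * Complex.I := by
          push_cast
          ring
        rw [this]
        simp
      rw [h1, zero_add]
      exact (hGb w (hsub hw)).2)
    (by
      have h1 : Complex.I * m * (χ₀ + 0) / π + Complex.I + deriv G 0 =
          deriv G 0 - -(2 * k / π * gh χ₀) := by
        rw [add_zero, hcrit]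
        ring
      rw [h1]
      refine lt_of_le_of_lt hd1 ?_
      rw [div_lt_iff₀ (by positivity)]
      have : 0 < c' * r * R := by positivity
      linarith)
  have hχ4 : χ ∈ Rc (R / 4) (R / 4) :=
    ⟨((Complex.abs_re_le_norm χ).trans hχn).trans_lt (by linarith),
      ((Complex.abs_im_le_norm χ).trans hχn).trans_lt (by linarith)⟩
  have hχR : χ ∈ Rc R R := ⟨by linarith [hχ4.1], by linarith [hχ4.2]⟩
  have hχR1 : χ ∈ Rc R₁ R₁ := hsub hχR
  obtain ⟨hz1, hz2, hz3⟩ := hz χ hχR1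
  refine ⟨z χ, χ + χ₀, ⟨?_, fun j hj => ?_, ?_⟩, fun j hj => ⟨?_, ?_⟩, ?_, ?_⟩
  · show χ + χ₀ - χ₀ ∈ Rc ρ₀ ρ₀
    rw [add_sub_cancel_right]
    exact hsubρ hχR
  · obtain ⟨a1, a2, a3, a4⟩ := hz1 j hj
    exact ⟨⟨by linarith [a1.1], by linarith [a1.2]⟩, a2, a3, a4⟩
  · rw [← hz2, add_comm χ χ₀]
    exact hχc
  · obtain ⟨a1, -⟩ := hz1 j hj
    exact ⟨by linarith [a1.1], by linarith [a1.2]⟩
  · exact (hzs χ hχR1 j hj).trans (hCM.trans e3)
  · rw [add_sub_cancel_right]
    exact hχn.trans s5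
  -- the growth rate
  set V : ℝ := (Complex.I * m * (χ₀ + χ) ^ 2 / (2 * π) + Complex.I * (χ₀ + χ) + G χ).re with hV
  have hVV : |V - Vz k m χ₀| ≤ v := by
    have h1 : V - Vz k m χ₀ = (H χ - H 0).re + (G χ - G0 χ).re := by
      rw [Complex.sub_re (H χ), hH0, hV]
      simp only [hH, Complex.add_re, Complex.sub_re]
      ring
    rw [h1]
    have h2 := (Complex.abs_re_le_norm (H χ - H 0)).trans (hRb2 χ (hχn.trans s4))
    have h3 := (Complex.abs_re_le_norm (G χ - G0 χ)).trans ((hcl χ hχR).trans e2)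
    exact (abs_add_le _ _).trans (by linarith)
  obtain ⟨hVl, hVu⟩ := abs_le.1 hVV
  have hVlo : 157 / 100 * k + 1 / 200 ≤ V := by
    have : (3 : ℝ) / 200 ≤ 3 / 200 * k := by linarith
    linarith
  have hVpos : 0 < V := by
    have : (0 : ℝ) < 157 / 100 * k := by positivity
    linarith
  have hval : (RVal3 szz (2 * k) (cw (wl ls)) m (z χ) (χ + χ₀) +
      ∑ j ∈ range (2 * k), F j (z χ j)).re = V := by
    rw [hV]
    congr 1
    unfold RVal3
    rw [hz3, add_comm χ χ₀]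
    simp only [sum_add_distrib]
    ring
  rw [hval]
  refine ⟨hVpos, ?_⟩
  -- asymptotics near `χ₀`
  have hGlo : ∀ w ∈ Rc R R, 2 * k * S - 3 / 16 * σ ≤ (G w).re := by
    intro w hw
    have h1 := hcl w hw
    have h2 := hRa2 w ⟨lt_of_lt_of_le hw.1 r3, lt_of_lt_of_le hw.2 r3⟩
    have h3 := Complex.abs_re_le_norm (G w - G0 w)
    have h4 := Complex.abs_re_le_norm (s0 (w + χ₀) - s0 χ₀)
    rw [Complex.sub_re] at h3 h4
    have h5 := (abs_le.1 (h3.trans h1)).1
    have h6 := (abs_le.1 (h4.trans h2)).1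
    have h7 : (G0 w).re = 2 * k * (s0 (w + χ₀)).re := by
      simp only [hG0]
      have : (2 * (k : ℂ) * s0 (w + χ₀)) = ((2 * k : ℝ) : ℂ) * s0 (w + χ₀) := by push_cast; rfl
      rw [this, Complex.re_ofReal_mul]
    have h8 : 2 * k * (σ / (16 * k)) = σ / 8 := by field_simp; norm_num
    have h9 : 2 * (k : ℝ) * (-(σ / (16 * k))) ≤ 2 * k * ((s0 (w + χ₀)).re - (s0 χ₀).re) := by
      gcongr
    rw [← hS] at h9
    rw [h7] at h5
    linarith
  have hMWT : MW (fun N w => TV N ls (w + χ₀)) G (Rc R R) := by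
    refine MW_tf (X := fun N χ => XV ls N (χ + χ₀)) (2 * ls.length)
      (L := 2 * k * S - 3 / 16 * σ) (δ := σ / 4) (by positivity) ?_ hGlo ?_
    · intro δ hδ
      filter_upwards [hMW δ hδ] with N hN w hw
      exact hN w (hsub hw)
    · have hNim : ∀ᶠ N : ℕ in atTop, 1 / (N : ℝ) ≤ χ₀.im / 2 := by
        have := tendsto_one_div_atTop_nhds_zero_nat (𝕜 := ℝ)
        exact (this.eventually_lt_const (u := χ₀.im / 2) (by positivity)).mono fun N hN => hN.le
      filter_upwards [hFA ls m hls0 hSub (σ / 8) (by positivity), hNim, eventually_ge_atTop 2] with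
        N h1 hNim hN w hw
      have h2 : (w + χ₀).re = w.re + χ₀.re := Complex.add_re _ _
      have h3 : (w + χ₀).im = w.im + χ₀.im := Complex.add_im _ _
      have hwim := abs_lt.1 hw.2
      have hpos : 0 < w.im + χ₀.im := by linarith
      have h4 := (h1.2 (w + χ₀) (by
        rw [h2]
        have := abs_add_le w.re χ₀.re
        linarith [hw.1]) (by
        rw [h3, abs_of_pos hpos]
        linarith) (gap_of_im (by
        rw [h3, abs_of_pos hpos]
        linarith))).2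
      rw [hKF N ls _ hN hls0 hAn, hlen] at h4
      rw [hlen]
      refine h4.trans (Real.exp_le_exp.2 (mul_le_mul_of_nonneg_left ?_ (Nat.cast_nonneg N)))
      have h5 := hRa2 w ⟨lt_of_lt_of_le hw.1 r3, lt_of_lt_of_le hw.2 r3⟩
      have h6 := Complex.abs_re_le_norm (s0 (w + χ₀) - s0 χ₀)
      rw [Complex.sub_re] at h6
      have h7 := (abs_le.1 (h6.trans h5)).2
      have h8 : 0 < σ / (16 * k) := by positivity
      have h9 : max (s0 (w + χ₀)).re bet ≤ S + σ / (16 * k) := by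
        refine max_le ?_ ?_
        · rw [← hS] at h7
          linarith
        · linarith
      have h10 : (2 * (k : ℝ) - 1) * max (s0 (w + χ₀)).re bet ≤ (2 * k - 1) * (S + σ / (16 * k)) := by
        refine mul_le_mul_of_nonneg_left h9 ?_
        linarith
      have h11 : 2 * k * (σ / (16 * k)) = σ / 8 := by field_simp; norm_num
      have h12 : (2 * (k : ℝ) - 1) * (S + σ / (16 * k)) =
        2 * k * S - S + 2 * k * (σ / (16 * k)) - σ / (16 * k) := by ring
      rw [h12, h11] at h10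
      linarith
  -- the contour
  have hbigN : ∀ᶠ N : ℕ in atTop, 9 / 5 ≤ N * (κ / 4) := by
    have h1 : ∀ᶠ N : ℕ in atTop, (9 / 5) / (κ / 4) ≤ (N : ℝ) :=
      tendsto_natCast_atTop_atTop.eventually_ge_atTop _
    filter_upwards [h1] with N h1
    rwa [div_le_iff₀ (by positivity)] at h1
  have hχi := abs_lt.1 hχ4.2
  have hh : (χ₀ + χ).im = χ₀.im + χ.im := Complex.add_im _ _
  set h : ℝ := (χ₀ + χ).im with hhd
  have hh1 : χ₀.im / 2 < h := by linarith
  have hh2 : h ≤ 9 / 5 := by linarith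
  have hh3 : |h - χ₀.im| ≤ r := by
    rw [hh, add_sub_cancel_left]
    exact (Complex.abs_im_le_norm χ).trans hχn
  have hlim := hCI m χ₀ χ R c' (κ / 4) V (fun N => TV N ls) G hR0 (by linarith) (by linarith)
    (by linarith) hc' (by positivity) (fun N => TV_diff N ls)
    (fun N w => TV_congr N ls (Complex.cos_neg w)) hGd' (fun w hw => (hGb w (hsub hw)).2)
    hMWT hχ4 hχc hV (by
      have hNim : ∀ᶠ N : ℕ in atTop, 1 / (N : ℝ) ≤ χ₀.im / 2 := by
        have := tendsto_one_div_atTop_nhds_zero_nat (𝕜 := ℝ)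
        exact (this.eventually_lt_const (u := χ₀.im / 2) (by positivity)).mono fun N hN => hN.le
      filter_upwards [hFA ls m hls0 hSub (κ / 4) (by positivity), hNim, hbigN] with N h1 hNim hbig x hx1 hx2
      rw [← hhd]
      have h2 := (h1.2 (x + h * Complex.I) (by rwa [xy_re]) (by
        rw [xy_im, abs_of_pos (by linarith)]; exact hh2) (gap_of_im (by
        rw [xy_im, abs_of_pos (by linarith)]; linarith))).1
      rw [hlen] at h2
      have h3 := HC1 h (hh3.trans s2) x hx1 hx2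
      have h4 := prodV_bd (m := m) (T := Vz k m χ₀) (κ := κ) (by linarith) hh2 h2 (by linarith) hbig
      refine h4.trans (Real.exp_le_exp.2 (mul_le_mul_of_nonneg_left ?_ (Nat.cast_nonneg N)))
      linarith) (by
      filter_upwards [hFA ls m hls0 hSub (κ / 4) (by positivity), hbigN, eventually_ge_atTop 1000] with
        N h1 hbig hN y hy0 hy1 σ' hσ'
      rw [← hhd] at hy1
      obtain ⟨hRN1, hRN2⟩ := RN_bd hN
      have hRNp : 0 < RN N := by linarith
      have hx : |σ' * RN N| = RN N := by rw [abs_mul, hσ', one_mul, abs_of_pos hRNp]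
      have hcast : ((σ' : ℂ) * (RN N : ℂ)) = ((σ' * RN N : ℝ) : ℂ) := by push_cast; rfl
      have hgap := gap_side (N := N) (by omega) y σ' hσ'
      rw [hcast] at hgap ⊢
      have h2 := (h1.2 ((σ' * RN N : ℝ) + y * Complex.I) (by rw [xy_re, hx]; exact hRN2) (by
        rw [xy_im, abs_of_nonneg hy0]; linarith) hgap).1
      rw [hlen] at h2
      have h3 := (HC2 h (hh3.trans s3)).2 (σ' * RN N) y (by rw [hx]; exact hRN1)
        (by rw [hx]; exact hRN2) hy0 hy1
      have h4 := prodV_bd (m := m) (T := Vz k m χ₀) (κ := κ) hy0 (by linarith) h2 (by linarith) hbig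
      refine h4.trans (Real.exp_le_exp.2 (mul_le_mul_of_nonneg_left ?_ (Nat.cast_nonneg N)))
      linarith)
  have hfin := comb (E := fun N => ES N ls m) (V := V) (δ := 1 / 800) hVpos (by norm_num) hlim
    (restV_bd hlen hls0 m hSub hFA hTH hVlo)
  exact hfin

/-- the growth rate of the exact expression -/
theorem mainc : S_MAINC := by
  have hRHO : S_RHO := Pool.Agent.Y105.CB.rho
  have hTB0 : S_TB0 := Pool.Agent.Y288.CB.tb0
  have hRY : S_RHOY := Pool.Agent.Y317.CB.rhoy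
  have hTY : S_TBY := Pool.Agent.Y46.CB.tby
  have hS0 : S_S0P := Pool.Agent.Y710.CG.s0p
  have hKB : KBZc := Pool.Agent.Y68.CG.kbz Pool.Agent.Y238.CG.pf Pool.Agent.Y125.CG.cnb
    Pool.Agent.Y991.CG.lmi
  have hSDc := Pool.Agent.Y641.CG.sdz hS0
  have hLOc : LOZc := Pool.Agent.Y319.CG.loz Pool.Agent.Y238.CG.pf Pool.Agent.Y954.CG.mpz
    Pool.Agent.Y125.CG.cnb Pool.Agent.Y991.CG.lmi hS0 hSDc
  have hMWc : MWZc := Pool.Agent.Y232.CG.mwz hKB hLOc hSDc
  exact mainc_of Pool.Agent.Y481.bet_pos Pool.Agent.Y899.DR.t_KFV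
    (favc_of Pool.Agent.Y48.DR.t_FAZV hKB (Pool.Agent.Y37.CG.krz hTB0 hTY hRHO hRY)
      (Pool.Agent.Y252.CG.kaz hTB0 hRHO Pool.Agent.Y252.CG.rhoa) Pool.Agent.Y48.DR.t_TFBV
      Pool.Agent.Y899.DR.t_KFFV Pool.Agent.Y899.DR.t_KFV hS0)
    (thvc_of Pool.Agent.Y319.DR.thzv hTB0 hRHO Pool.Agent.Y79.CG.rhot)
    (xlc Pool.Agent.Y978.DR.potf Pool.Agent.Y784.CBE.cre Pool.Agent.Y232.CBE.ele hMWc hKB)
    Pool.Agent.Y563.CG.ciz (cszc_of Pool.Agent.Y761.CG.csz hS0)
    (ctzc_of Pool.Agent.Y25.CG.ctz hS0) hS0 hSDc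

end Pool.Agent.N518.RC
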