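import Pool.Agent.N518.RC.Find
import Pool.Agent.N518.RC.Exc
import Pool.Agent.N518.RC.Mainc
import Pool.Agent.N566.PS.Fin

/-!
# Rings of trees with circles at the ring vertices: the parts together
-/

set_option autoImplicit false

namespace Pool.Agent.N518.RC

open Pool.Agent.Y481.DR
open Pool.Agent.N561

/-- the growth rate, general types of small vertices -/
theorem findc {Ty : ℕ → ℤ → Prop}
    (hT : ∀ n a, Ty n a → 1 ≤ n → TOK (fun _ _ => False) n a) : S_FINDC Ty :=
  findc_of exc Pool.Agent.Y407.DR.t_scl mainc (Pool.Agent.N566.PS.truv f_vf f_vt hT f_root) geocv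
    Pool.Agent.Y710.CG.s0p

/-- the growth rate -/
theorem findc_s : S_FINDC Pool.Agent.N566.PS.TyS := findc Pool.Agent.N566.PS.tok_s

end Pool.Agent.N518.RC
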