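import Pool.Agent.N518.RC.Geo
import Pool.Agent.N566.PS.Tru
import Pool.Agent.Y481.DR.Find

/-!
# Rings of trees with circles at the ring vertices: the growth rate is the maximal volume

As `Pool.Agent.Y481.DR.Find` and `Pool.Agent.N566.PS.Find`.
-/

set_option autoImplicit false

namespace Pool.Agent.N518.RC

open Finset Filter Topology Metric
open Pool.Agent.W711.HT hiding XX
open Pool.Agent.Y472
open Pool.Agent.Y481 (itI cw wts)
open Pool.Agent.TH563.UV (Tb op XX PB AB)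
open Pool.Agent.TH219.J139 (Ub)
open Pool.Agent.W719.AR (Fl)
open Pool.Agent.Y481.DR
open Pool.Agent.N561 (CG VCG gg vg EFW OkT2)
open Pool.Agent.N566.PS (S_TRUV)
open scoped Real

/-- the normalized vertices -/
noncomputable def nvc (F : Tb → ℂ → ℂ) (t : Tb) : Vx :=
  (t.wt, fun N ψ => Ub t.bl N ψ * XX t N ψ * Complex.exp (-(N * F t 0)))

/-- the normalized list -/
noncomputable def nvcl (F : Tb → ℂ → ℂ) (ts : List (Tb × Tb)) : List (Vx × Vx) :=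
  ts.map fun p => (nvc F p.1, nvc F p.2)

lemma nvcl_len (F : Tb → ℂ → ℂ) (ts : List (Tb × Tb)) : (nvcl F ts).length = ts.length := by
  simp [nvcl]

lemma nvcl_scl (F : Tb → ℂ → ℂ) (ts : List (Tb × Tb)) : nvcl F ts = scl (tvcl ts) (ev F ts) := by
  induction ts with
  | nil => rfl
  | cons p ts ih =>
    simp only [nvcl, scl, tvcl, ev, List.map_cons, List.zipWith_cons_cons] at ih ⊢
    rw [ih]
    rfl

lemma cw_nvcl (F : Tb → ℂ → ℂ) (ts : List (Tb × Tb)) {j : ℕ} (hj : j < 2 * ts.length) :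
    cw (wl (nvcl F ts)) j = (tj ts j).wt := by
  have h : (wl (nvcl F ts)) = ts.map fun p => (p.1.wt, p.2.wt) := by
    simp [wl, nvcl, nvc]
  have h2 : ((ts.map fun p : Tb × Tb => (p.1.wt, p.2.wt)).map fun p : ℤ × ℤ => [p.1, p.2]) =
      ts.map fun p => [p.1.wt, p.2.wt] := by
    simp [List.map_map, Function.comp_def]
  rw [cw, wts, h, h2]
  exact flat_getD _ ts (fun t => t.wt) 0 hj

lemma vy_nvcl (F : Tb → ℂ → ℂ) (ts : List (Tb × Tb)) {j : ℕ} (hj : j < 2 * ts.length) :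
    vy (nvcl F ts) j = (nvc F (tj ts j)).2 := by
  have h2 : ((nvcl F ts).map fun p : Vx × Vx => [p.1.2, p.2.2]) =
      ts.map fun p => [(nvc F p.1).2, (nvc F p.2).2] := by
    simp [nvcl, List.map_map, Function.comp_def]
  rw [vy, h2]
  exact flat_getD _ ts (fun t => (nvc F t).2) _ hj

/-- congruence of critical configurations -/
lemma rcc_congr {s : ℂ → ℂ → ℂ → ℂ} {χ₀ : ℂ} {ρ : ℝ} {n : ℕ} {b b' : ℕ → Bool} {a a' : ℕ → ℤ}
    {g g' : ℕ → ℂ} {m : ℤ} {z z' : ℕ → ℂ} {χ : ℂ} (hn : 0 < n) (hb : ∀ j < n, b j = b' j)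
    (ha : ∀ j < n, a j = a' j) (hg : ∀ j < n, g j = g' j) (hz : ∀ j < n, z j = z' j)
    (h : RCritC s χ₀ ρ n b a g m z χ) :
    RCritC s χ₀ ρ n b' a' g' m z' χ := by
  obtain ⟨h1, h2, h3⟩ := h
  refine ⟨h1, fun j hj => ?_, ?_⟩
  · have hj1 : (j + 1) % n < n := Nat.mod_lt _ hn
    have hj2 : ((j + 1) % n + 1) % n < n := Nat.mod_lt _ hn
    rw [← hz j hj, ← hz _ hj1, ← hz _ hj2, ← ha _ hj1, ← hg _ hj1, ← hb j hj, ← hb _ hj1]
    exact h2 j hj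
  · rw [← h3]
    congr 1
    refine sum_congr rfl fun j hj => ?_
    rw [hz j (mem_range.1 hj), hz _ (Nat.mod_lt _ hn)]

lemma rcc_rev {χ₀ : ℂ} {ρ₀ c C : ℝ} {s dl : ℂ → ℂ → ℂ → ℂ} (hSD : SDZ χ₀ ρ₀ c C s dl) {n : ℕ}
    (hn : 0 < n) {b : ℕ → Bool} {a : ℕ → ℤ} {g : ℕ → ℂ} {m : ℤ} {z : ℕ → ℂ} {χ : ℂ}
    (h : RCritC s χ₀ ρ₀ n b a g m z χ) :
    RCritC s χ₀ ρ₀ n (fun j => b (rv n j)) (fun j => a (rv n j)) (fun j => g (rv n j)) m
      (fun j => z (rv n j)) χ := by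
  obtain ⟨h1, h2, h3⟩ := h
  have hz : ∀ j < n, z j ∈ Rc ρ₀ ρ₀ := fun j hj => (h2 j hj).1
  have hd : ∀ x ∈ Rc ρ₀ ρ₀, ∀ y ∈ Rc ρ₀ ρ₀,
      deriv (fun w => s x w χ) y = deriv (fun w => s w x χ) y := by
    intro x hx y hy
    refine Filter.EventuallyEq.deriv_eq ?_
    filter_upwards [(Rc_op ρ₀ ρ₀).mem_nhds hy] with w hw
    exact hSD.sym x hx w hw χ h1
  have hdc : ∀ x ∈ Rc ρ₀ ρ₀, ∀ y ∈ Rc ρ₀ ρ₀,
      deriv (fun w => s x y w) χ = deriv (fun w => s y x w) χ := by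
    intro x hx y hy
    refine Filter.EventuallyEq.deriv_eq ?_
    filter_upwards [(Rz_op χ₀ ρ₀).mem_nhds h1] with w hw
    exact hSD.sym x hx y hy w hw
  refine ⟨h1, fun j hj => ?_, ?_⟩
  · have hj1 : (j + 1) % n < n := Nat.mod_lt _ hn
    obtain ⟨q1, q2, q3, -⟩ := h2 _ (rv_lt hn j)
    refine ⟨q1, q2, q3, ?_⟩
    have e1 : rv n (((j + 1) % n + 1) % n) = n - 1 - (j + 1) % n := rv_succ hj1
    have e2 : rv n ((j + 1) % n) = (n - 1 - (j + 1) % n + 1) % n := rv_eq hj1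
    have e3 : rv n j = (rv n ((j + 1) % n) + 1) % n := by
      rw [rv_eq hj, rv_succ hj]
    have hi : n - 1 - (j + 1) % n < n := by omega
    obtain ⟨-, -, -, h4⟩ := h2 _ hi
    rw [← e2, ← e3] at h4
    beta_reduce
    rw [e1]
    have y1 := hz _ (rv_lt hn ((j + 1) % n))
    have y2 := hz _ (rv_lt hn j)
    have y3 := hz _ hi
    intro hb
    have h4 := h4 hb
    rw [hd _ y2 _ y1, ← hd _ y3 _ y1]
    linear_combination h4
  · rw [← h3]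
    congr 1
    exact sum_rv2 (fun x y => deriv (fun w => s (z x) (z y) w) χ)
      (fun i hi => hdc _ (hz _ (Nat.mod_lt _ hn)) _ (hz _ hi))

lemma rvalc_rev {χ₀ : ℂ} {ρ₀ c C : ℝ} {s dl : ℂ → ℂ → ℂ → ℂ} (hSD : SDZ χ₀ ρ₀ c C s dl) {n : ℕ}
    (hn : 0 < n) {b : ℕ → Bool} {a : ℕ → ℤ} {g : ℕ → ℂ} {m : ℤ} {z : ℕ → ℂ} {χ : ℂ}
    (h : RCritC s χ₀ ρ₀ n b a g m z χ) :
    RVal3 s n (fun j => a (rv n j)) m (fun j => z (rv n j)) χ = RVal3 s n a m z χ := by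
  unfold RVal3
  congr 1
  have e : ∀ (a' : ℕ → ℤ) (z' : ℕ → ℂ), ∑ j ∈ range n, (Complex.I * a' j * z' j ^ 2 / (4 * π) +
      Complex.I * z' j + s (z' j) (z' ((j + 1) % n)) χ) =
      ∑ j ∈ range n, (Complex.I * a' j * z' j ^ 2 / (4 * π) + Complex.I * z' j) +
      ∑ j ∈ range n, s (z' j) (z' ((j + 1) % n)) χ := fun _ _ => sum_add_distrib
  rw [e, e]
  congr 1
  · exact sum_rv hn fun j => Complex.I * a j * z j ^ 2 / (4 * π) + Complex.I * z j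
  · exact sum_rv2 (fun x y => s (z x) (z y) χ)
      (fun i hi => hSD.sym _ (h.2.1 _ (Nat.mod_lt _ hn)).1 _ (h.2.1 _ hi).1 χ h.1)

/-- the growth rate; critical configurations -/
theorem find_coreC {Ty : ℕ → ℤ → Prop} (hEXC : S_EXC)
    (hSCL : S_SCL) (hMAIN : S_MAINC) (hTRU : S_TRUV Ty) (hGEOC : S_GEOCV) (hS0P : S_S0P) :
    ∃ K : ℝ, 0 < K ∧ ∀ (k : ℕ) (m : ℤ) (D : ℕ), 1 ≤ k → 0 ≤ m → ¬ (k = 1 ∧ m = 0) → ∃ M : ℝ,
    ∀ ts : List (Tb × Tb), ts.length = k →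
    (∀ p ∈ ts, OkT2 Ty K true p.1 ∧ OkT2 Ty K true p.2 ∧ p.1.nc ≤ D ∧ p.2.nc ≤ D ∧
      (p.1.bl = false → M ≤ |(p.1.wt : ℝ)|) ∧ (p.2.bl = false → M ≤ |(p.2.wt : ℝ)|)) →
    ∃ V : ℝ, (∀ r : ℕ → ℕ, (r = fun j => j) ∨ (r = fun j => rv (2 * k) j) →
      IsGreatest {W : ℝ | ∃ (y : ℕ → AB) (f g F G : ℕ → Fl),
        (∀ j < 2 * k, (y j).shape = tj ts (r j)) ∧ DAngC (2 * k) m y f g F G ∧
          dVol (2 * k) y f g F G = W} V) ∧
      (∀ᶠ N : ℕ in atTop, JD ts m N (vN N) ≠ 0) ∧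
      Tendsto (fun N : ℕ => 2 * π * (Real.log ‖JD ts m N (vN N)‖ / N)) atTop (𝓝 V) := by
  obtain ⟨ρ, τ, κ, cc, s, dl, hKD, kf, cen, S', Dn, hkt, hkD, hkS, hTr'⟩ := hTRU
  obtain ⟨g₀, hg₀, hgeo'⟩ := hGEOC hS0P ρ τ κ cc s dl hKD kf cen S' Dn hkt hkD hkS
  obtain ⟨K, hK, hTr⟩ := hTr' g₀ hg₀
  refine ⟨K, hK, fun k m D hk hm hkm => ?_⟩
  obtain ⟨χ₀, ρ₀, c, C, hZr, hSD, hM⟩ := hMAIN k m hk hm hkm
  obtain ⟨R₀, B₀, hR₀, hR₀τ, hB₀, hT⟩ := hTr D
  obtain ⟨ε, hε, hgeo⟩ := hgeo' χ₀ hZr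
  obtain ⟨M, hMM⟩ := hM R₀ B₀ ε hR₀ hB₀ hε
  choose! F hF1 hF2 using fun (t : Tb) (h : OkT2 Ty K true t ∧ t.nc ≤ D) => hT t h.1 h.2
  refine ⟨M, fun ts hlen hts => ?_⟩
  have hl2 : 2 * ts.length = 2 * k := by rw [hlen]
  -- the properties of the trees
  have hP : ∀ j < 2 * k, (OkT2 Ty K true (tj ts j) ∧ (tj ts j).nc ≤ D) ∧
      ((tj ts j).bl = false → M ≤ |((tj ts j).wt : ℝ)|) := by
    intro j hj
    refine tj_get ts (fun t => (OkT2 Ty K true t ∧ t.nc ≤ D) ∧ (t.bl = false → M ≤ |(t.wt : ℝ)|))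
      (fun p hp => ?_) (by omega)
    obtain ⟨h1, h2, h3, h4, h5, h6⟩ := hts p hp
    exact ⟨⟨⟨h1, h3⟩, h5⟩, ⟨⟨h2, h4⟩, h6⟩⟩
  have hcw : ∀ j < 2 * k, cw (wl (nvcl F ts)) j = (tj ts j).wt := fun j hj =>
    cw_nvcl F ts (by omega)
  obtain ⟨z, χ, hRC, hz, hχ, hpos, hlim⟩ := hMM (nvcl F ts) (fun j => (tj ts j).bl)
    (fun j N ψ => XX (tj ts j) N ψ * Complex.exp (-(N * F (tj ts j) 0)))
    (fun j ψ => F (tj ts j) ψ - F (tj ts j) 0) (by rw [nvcl_len, hlen])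
    (fun j hj => hF1 _ (hP j hj).1)
    (fun j hj N ψ => by
      rw [vy_nvcl F ts (by omega)]
      change (Ub (tj ts j).bl N ψ * XX (tj ts j) N ψ) * Complex.exp (-(N * F (tj ts j) 0)) = _
      ring)
    (fun j hj hb => by rw [hcw j hj]; exact (hP j hj).2 hb)
  have hsub : Rc R₀ R₀ ⊆ Rc ρ τ := by
    intro w hw
    exact ⟨hw.1.trans_le (hR₀τ.trans hKD.hτ.2), hw.2.trans_le hR₀τ⟩
  -- the critical configurations of the trees
  have hex : ∀ j, ∃ p : PB, j < 2 * k → p.shape = tj ts j ∧ p.rz = z j ∧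
      CG kf cen S' s ρ τ g₀ 0 p ∧
      F (tj ts j) (z j) = vg kf S' s 0 p ∧ HasDerivAt (F (tj ts j)) (gg kf S' s 0 p) (z j) := by
    intro j
    by_cases hj : j < 2 * k
    · obtain ⟨p, hp⟩ := hF2 _ (hP j hj).1 (z j) (hz j hj).1
      exact ⟨p, fun _ => hp⟩
    · exact ⟨.vx false 0 0, fun h => absurd h hj⟩
  choose p hp using hex
  have hn : 0 < 2 * k := by omega
  have hg : ∀ j < 2 * k, deriv (fun ψ => F (tj ts j) ψ - F (tj ts j) 0) (z j) = gg kf S' s 0 (p j) := by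
    intro j hj
    rw [deriv_sub_const]
    exact (hp j hj).2.2.2.2.deriv
  have hwt : ∀ j < 2 * k, cw (wl (nvcl F ts)) j = (p j).wt := by
    intro j hj
    rw [hcw j hj, ← (hp j hj).1, shape_wt]
  have hbl : ∀ j < 2 * k, (tj ts j).bl = (p j).bl := by
    intro j hj
    rw [← (hp j hj).1, shape_bl]
  have hRC' : RCritC szz χ₀ ρ₀ (2 * k) (fun j => (p j).bl) (fun j => (p j).wt)
      (fun j => gg kf S' s 0 (p j)) m (fun j => (p j).rz) χ :=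
    rcc_congr hn hbl hwt hg (fun j hj => (hp j hj).2.1.symm) hRC
  have hgen : ∀ r : ℕ → ℕ, (∀ j < 2 * k, r j < 2 * k) →
      RCritC szz χ₀ ρ₀ (2 * k) (fun j => (p (r j)).bl) (fun j => (p (r j)).wt)
        (fun j => gg kf S' s 0 (p (r j))) m (fun j => (p (r j)).rz) χ →
      IsGreatest {W : ℝ | ∃ (y : ℕ → AB) (f g F G : ℕ → Fl),
        (∀ j < 2 * k, (y j).shape = tj ts (r j)) ∧ DAngC (2 * k) m y f g F G ∧
          dVol (2 * k) y f g F G = W}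
        (2 * π * (RVal3 szz (2 * k) (fun j => (p (r j)).wt) m (fun j => (p (r j)).rz) χ +
          ∑ j ∈ range (2 * k), vg kf S' s 0 (p (r j))).re) := by
    intro r hr hR
    have hgr := hgeo ρ₀ c C hSD (2 * k) m (fun j => p (r j)) χ (by omega) (fun j hj => ⟨
        (hp _ (hr j hj)).2.2.1, by
        rw [(hp _ (hr j hj)).2.1]; exact hsub (hz _ (hr j hj)).1, by
        rw [(hp _ (hr j hj)).2.1]; exact (hz _ (hr j hj)).2⟩) hχ hR
    have hset : {W : ℝ | ∃ (y : ℕ → AB) (f g F G : ℕ → Fl),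
        (∀ j < 2 * k, (y j).shape = tj ts (r j)) ∧ DAngC (2 * k) m y f g F G ∧
          dVol (2 * k) y f g F G = W} =
        {W : ℝ | ∃ (y : ℕ → AB) (f g F G : ℕ → Fl), (∀ j < 2 * k, (y j).shape = (p (r j)).shape) ∧
          DAngC (2 * k) m y f g F G ∧ dVol (2 * k) y f g F G = W} := by
      ext W
      constructor
      · rintro ⟨y, f, g, F', G, h1, h2⟩
        exact ⟨y, f, g, F', G, fun j hj => by rw [h1 j hj, (hp _ (hr j hj)).1], h2⟩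
      · rintro ⟨y, f, g, F', G, h1, h2⟩
        exact ⟨y, f, g, F', G, fun j hj => by rw [h1 j hj, (hp _ (hr j hj)).1], h2⟩
    rw [hset]
    exact hgr
  set V : ℝ := 2 * π * (RVal3 szz (2 * k) (fun j => (p j).wt) m (fun j => (p j).rz) χ +
    ∑ j ∈ range (2 * k), vg kf S' s 0 (p j)).re with hV
  refine ⟨V, ?_, ?_⟩
  · rintro r (rfl | rfl)
    · exact hgen (fun j => j) (fun j hj => hj) hRC'
    · have h1 := hgen (fun j => rv (2 * k) j) (fun j _ => rv_lt hn j) (rcc_rev hSD hn hRC')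
      have h2 := rvalc_rev hSD hn hRC'
      have h3 : ∑ j ∈ range (2 * k), vg kf S' s 0 (p (rv (2 * k) j)) = ∑ j ∈ range (2 * k), vg kf S' s 0 (p j) :=
        sum_rv hn fun j => vg kf S' s 0 (p j)
      rw [h2, h3] at h1
      exact h1
  -- the limit
  set L : ℝ := (RVal3 szz (2 * k) (cw (wl (nvcl F ts))) m z χ +
    ∑ j ∈ range (2 * k), (F (tj ts j) (z j) - F (tj ts j) 0)).re with hL
  set S : ℝ := ∑ j ∈ range (2 * k), (F (tj ts j) 0).re with hS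
  have hVL : V = 2 * π * (S + L) := by
    rw [hV, hL, hS, rval_congr hn hwt (fun j hj => ((hp j hj).2.1.symm : z j = (p j).rz))]
    congr 1
    have e1 : ∑ j ∈ range (2 * k), vg kf S' s 0 (p j) = ∑ j ∈ range (2 * k), F (tj ts j) (z j) :=
      sum_congr rfl fun j hj => (hp j (mem_range.1 hj)).2.2.2.1.symm
    rw [e1, sum_sub_distrib, Complex.add_re, Complex.add_re, Complex.sub_re, ← Complex.re_sum,
      Complex.re_sum, Complex.re_sum]
    ring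
  have hne : ∀ᶠ N : ℕ in atTop, ‖ES N (nvcl F ts) m‖ ≠ 0 := by
    have h1 : ∀ᶠ N : ℕ in atTop, 0 < Real.log ‖ES N (nvcl F ts) m‖ / N :=
      hlim.eventually (lt_mem_nhds hpos)
    filter_upwards [h1] with N h h0
    rw [h0, Real.log_zero, zero_div] at h
    exact lt_irrefl _ h
  have hne2 : ∀ᶠ N : ℕ in atTop, JD ts m N (vN N) ≠ 0 := by
    filter_upwards [hne, eventually_ge_atTop 2] with N hN hN2
    have hN0 : (0 : ℝ) < N := by exact_mod_cast (by omega : 0 < N)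
    have hts0 : ts ≠ [] := by
      intro h
      rw [h] at hlen
      simp at hlen
      omega
    have hA : ‖ES N (nvcl F ts) m‖ = Real.exp (-(N * S)) * ‖ES N (tvcl ts) m‖ := by
      rw [nvcl_scl, hSCL N (tvcl ts) (ev F ts) m (by omega) (by simp [tvcl, ev]), norm_mul, ev_prod,
        hl2]
    have hq : (0 : ℝ) < (N : ℝ) ^ 2 / (2 * π) := by positivity
    intro h
    have h1 := hEXC N ts m hN2 hts0
    rw [h, norm_zero] at h1
    rcases mul_eq_zero.1 h1.symm with h2 | h2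
    · exact pow_ne_zero _ hq.ne' h2
    · rw [hA, h2, mul_zero] at hN
      exact hN rfl
  refine ⟨hne2, ?_⟩
  have hlog : ∀ᶠ N : ℕ in atTop, 2 * π * (Real.log ‖JD ts m N (vN N)‖ / N) =
      2 * π * (nel ts * (Real.log ((N : ℝ) ^ 2 / (2 * π)) / N) + S +
        Real.log ‖ES N (nvcl F ts) m‖ / N) := by
    filter_upwards [hne, eventually_ge_atTop 2] with N hN hN2
    have hN0 : (0 : ℝ) < N := by exact_mod_cast (by omega : 0 < N)
    have hts0 : ts ≠ [] := by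
      intro h
      rw [h] at hlen
      simp at hlen
      omega
    have hA : ‖ES N (nvcl F ts) m‖ = Real.exp (-(N * S)) * ‖ES N (tvcl ts) m‖ := by
      rw [nvcl_scl, hSCL N (tvcl ts) (ev F ts) m (by omega) (by simp [tvcl, ev]), norm_mul, ev_prod,
        hl2]
    have hB : ‖ES N (tvcl ts) m‖ ≠ 0 := by
      intro h
      rw [hA, h, mul_zero] at hN
      exact hN rfl
    have hq : (0 : ℝ) < (N : ℝ) ^ 2 / (2 * π) := by positivity
    have hlA : Real.log ‖ES N (nvcl F ts) m‖ = -(N * S) + Real.log ‖ES N (tvcl ts) m‖ := by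
      rw [hA, Real.log_mul (Real.exp_ne_zero _) hB, Real.log_exp]
    rw [hEXC N ts m hN2 hts0, Real.log_mul (pow_ne_zero _ hq.ne') hB, Real.log_pow, hlA]
    field_simp
    ring
  have hsm : Tendsto (fun N : ℕ => Real.log ((N : ℝ) ^ 2 / (2 * π)) / N) atTop (𝓝 0) := by
    have h1 : Tendsto (fun N : ℕ => Real.log (N : ℝ) / N) atTop (𝓝 0) :=
      (Real.isLittleO_log_id_atTop.tendsto_div_nhds_zero).comp tendsto_natCast_atTop_atTop
    have h2 : Tendsto (fun N : ℕ => Real.log (2 * π) / (N : ℝ)) atTop (𝓝 0) :=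
      tendsto_const_nhds.div_atTop tendsto_natCast_atTop_atTop
    have h3 := (h1.const_mul 2).sub h2
    simp only [mul_zero, sub_zero] at h3
    refine h3.congr' ?_
    filter_upwards [eventually_ge_atTop 1] with N hN
    have hN0 : (0 : ℝ) < N := by exact_mod_cast (by omega : 0 < N)
    rw [Real.log_div (by positivity) (by positivity), Real.log_pow]
    push_cast
    ring
  rw [hVL]
  refine Tendsto.congr' (hlog.mono fun N h => h.symm) ?_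
  have h4 := (((hsm.const_mul (nel ts : ℝ)).add_const S).add hlim).const_mul (2 * π)
  simpa using h4

/-- the growth rate; the trees are numbered upwards -/
def S_FINDC (Ty : ℕ → ℤ → Prop) : Prop := ∃ K : ℝ, 0 < K ∧ ∀ (k : ℕ) (m : ℤ) (D : ℕ), 1 ≤ k →
  0 ≤ m → ¬ (k = 1 ∧ m = 0) → ∃ M : ℝ, ∀ ts : List (Tb × Tb), ts.length = k →
    (∀ p ∈ ts, OkT2 Ty K true p.1 ∧ OkT2 Ty K true p.2 ∧ p.1.nc ≤ D ∧ p.2.nc ≤ D ∧
      (p.1.bl = false → M ≤ |(p.1.wt : ℝ)|) ∧ (p.2.bl = false → M ≤ |(p.2.wt : ℝ)|)) →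
    ∃ V : ℝ, IsGreatest {W : ℝ | ∃ (y : ℕ → AB) (f g F G : ℕ → Fl),
        (∀ j < 2 * k, (y j).shape = tj ts ((2 * k - j) % (2 * k))) ∧ DAngC (2 * k) m y f g F G ∧
          dVol (2 * k) y f g F G = W} V ∧
      (∀ᶠ N : ℕ in atTop, JD ts m N (vN N) ≠ 0) ∧
      Tendsto (fun N : ℕ => 2 * π * (Real.log ‖JD ts m N (vN N)‖ / N)) atTop (𝓝 V)

theorem findc_of {Ty : ℕ → ℤ → Prop} (hEXC : S_EXC)
    (hSCL : S_SCL) (hMAIN : S_MAINC) (hTRU : S_TRUV Ty) (hGEOC : S_GEOCV) (hS0P : S_S0P) :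
    S_FINDC Ty := by
  obtain ⟨K, hK, h⟩ := find_coreC hEXC hSCL hMAIN hTRU hGEOC hS0P
  refine ⟨K, hK, fun k m D hk hm hkm => ?_⟩
  obtain ⟨M, hM⟩ := h k m D hk hm hkm
  refine ⟨M, fun ts h1 h3 => ?_⟩
  obtain ⟨V, h4, h5⟩ := hM ts h1 h3
  exact ⟨V, h4 _ (Or.inr rfl), h5⟩

end Pool.Agent.N518.RC
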