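import Pool.Agent.N566.PS.Geo
import Pool.Agent.N518.RC.Defs

/-!
# Rings of trees with circles at the ring vertices: the critical value is the maximal volume

As `Pool.Agent.N566.PS.Geo`, the roots may carry crossing circles.
-/

set_option autoImplicit false

namespace Pool.Agent.N518.RC

open Finset Filter Topology
open Complex (exp log cos sin I)
open Pool.Agent.W711.HT hiding XX
open Pool.Agent.W719.AR (Fl Gap)
open Pool.Agent.W709.VC (S_TET)
open Pool.Agent.W737.AR (Lf ze vol_le)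
open Pool.Agent.TH563.UV (Tb PB AB VC)
open Pool.Agent.TH609.UV (fe wt_eq)
open Pool.Agent.Y482 (sum_succ_mod)
open Pool.Agent.Y482.Chi (VX rho rlam TB TU TX flA flB bv lgr Lc lg_lc vertexX im_I_mul re_I_mul)
open Pool.Agent.Y482.Cz (BG Near at_edge sder2 EL)
open Pool.Agent.Y472 (SDZ RVal3 Rz Zr S_S0P szz dzz)
open Pool.Agent.Y481.DR
open Pool.Agent.N561 (CG VCG gg vg EFW)
open Pool.Agent.N561.G
open scoped Real

/-! ### Linear algebra at a vertex -/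

lemma vxc_false {w : ℤ} {f g F G f' g' F' G' : Fl} :
    VXC false w f g F G f' g' F' G' ↔ VX w f g F G f' g' F' G' :=
  ⟨fun h => ⟨h.strand, h.axis, h.ca, h.cr, h.even, h.odd, h.fill rfl⟩,
    fun h => ⟨h.strand, h.axis, h.ca, h.cr, h.even, h.odd, fun _ => h.fill⟩⟩

lemma vdc_false {w : ℤ} {l : List (Fl × Fl)} {f g F G f' g' F' G' : Fl} :
    VDC false w l f g F G f' g' F' G' ↔ VD w l f g F G f' g' F' G' :=
  ⟨fun h => ⟨fun h' => vxc_false.1 (h.nil h'), h.axis, h.ca, h.cr, h.first, h.gaps, h.last, h.str,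
      h.fill rfl⟩,
    fun h => ⟨fun h' => vxc_false.2 (h.nil h'), h.axis, h.ca, h.cr, h.first, h.gaps, h.last, h.str,
      fun _ => h.fill⟩⟩

lemma lgr_zero (a : ℂ) : lgr a 0 = 0 := by
  unfold Pool.Agent.Y482.Chi.lgr
  rw [sub_zero, add_zero, sub_self]

lemma Lg_zero (u : ℂ) : Lg u 0 = 0 := by
  unfold Lg
  rw [sub_zero, add_zero]
  by_cases h : cos (u / 2) = 0
  · rw [h]; simp
  · rw [div_self h, Complex.log_one]

lemma VXC.pq {b : Bool} {w : ℤ} {f g F G f' g' F' G' : Fl} (h : VXC b w f g F G f' g' F' G') :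
    (g.a + g.a' + G.b) + (g.b + G.a + G.a') + ((f'.a + f'.a' + F'.b) + (f'.b + F'.a + F'.a')) =
      4 * π := by
  rcases Int.even_or_odd w with hw | hw
  · obtain ⟨h1, h2⟩ := h.even hw
    linarith
  · obtain ⟨h1, h2⟩ := h.odd hw
    linarith

/-- the terms at a circle without children -/
lemma vertexXc {b : Bool} {w : ℤ} {f g F G f' g' F' G' : Fl} (h : VXC b w f g F G f' g' F' G')
    {a a' c : ℂ} (K2 : ℝ) :
    TB a' 0 c K2 f' g' F' G' + TU a 0 c K2 f g F G = 0 := by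
  have h1 := h.strand
  have h2 := h.axis
  have h3 := h.ca
  have h4 := h.cr
  have h5 := h.pq
  unfold TB TU
  rw [lgr_zero, lgr_zero]
  simp only [zero_add, Complex.cos_zero, Complex.log_one, Complex.zero_re, Complex.zero_im, zero_mul,
    mul_zero, zero_div, add_zero, neg_zero, sub_zero, neg_mul]
  linear_combination K2 / 2 * (h4 + h2) + (log (cos c)).re * h3

/-- the terms at a circle -/
lemma vertexDc {w : ℤ} {l : List ((ℂ × ℂ) × (Fl × Fl))} {f g F G f' g' F' G' : Fl}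
    (h : VDC true w (l.map Prod.snd) f g F G f' g' F' G')
    {a a' c : ℂ} (K2 : ℝ) :
    TB a' 0 c K2 f' g' F' G' + TU a 0 c K2 f g F G +
      2 * (l.map (fun e => Pool.Agent.W737.AR.TT 0 e.1.1 e.2.1 e.2.2)).sum = 0 := by
  have hT : (l.map (fun e => Pool.Agent.W737.AR.TT 0 e.1.1 e.2.1 e.2.2)).sum = 0 := by
    refine List.sum_eq_zero fun x hx => ?_
    obtain ⟨e, -, rfl⟩ := List.mem_map.1 hx
    unfold Pool.Agent.W737.AR.TT
    rw [Lg_zero]
    simp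
  have h1 := h.axis
  have h3 := h.ca
  have h4 := h.cr
  rw [hT]
  unfold TB TU
  rw [lgr_zero, lgr_zero]
  simp only [zero_add, Complex.cos_zero, Complex.log_one, Complex.zero_re, Complex.zero_im, zero_mul,
    mul_zero, zero_div, add_zero, neg_zero, sub_zero, neg_mul]
  linear_combination K2 / 2 * (h4 + h1) + (log (cos c)).re * h3

/-- the terms at a vertex of the ring -/
lemma vertexDC {b : Bool} {w : ℤ} {l : List ((ℂ × ℂ) × (Fl × Fl))} {f g F G f' g' F' G' : Fl}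
    (h : VDC b w (l.map Prod.snd) f g F G f' g' F' G') (hpos : ∀ e ∈ l, e.2.1.Pos ∧ e.2.2.Pos)
    {a a' x c : ℂ} (hx : b = true → x = 0) (he : b = false →
      I * (w * (2 * x) + 2 * π) = lgr a x + lgr a' x + (l.map fun e => Lg e.1.1 (2 * x)).sum)
    (K2 : ℝ) :
    TB a' x c K2 f' g' F' G' + TU a x c K2 f g F G +
      2 * (l.map (fun e => Pool.Agent.W737.AR.TT (2 * x) e.1.1 e.2.1 e.2.2)).sum = 0 := by
  cases b with
  | false => exact vertexD (vdc_false.1 h) hpos (he rfl) K2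
  | true =>
    rw [hx rfl, mul_zero]
    exact vertexDc h K2

/-! ### Critical configurations -/

/-- a solution of the critical point equations; `L j` is the sum over the children -/
structure CritC (n : ℕ) (b : ℕ → Bool) (a : ℕ → ℤ) (L : ℕ → ℂ) (m : ℤ) (z : ℕ → ℂ) (χ : ℂ)
    (u : ℕ → ℂ) : Prop where
  bz : ∀ j < n, BG (u j / 2) (z j / 2) (z ((j + 1) % n) / 2) (χ / 2)
  zero : ∀ j < n, b j = true → z j = 0
  vert : ∀ j < n, b ((j + 1) % n) = false → I * (a ((j + 1) % n) * z ((j + 1) % n) + 2 * π) =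
    Lg (u j) (z ((j + 1) % n)) + Lg (u ((j + 1) % n)) (z ((j + 1) % n)) + L ((j + 1) % n)
  axis : I * (2 * m * χ + 2 * π) = ∑ j ∈ range n, Lc (u j) χ

section

variable {n : ℕ} {b : ℕ → Bool} {a : ℕ → ℤ} {L : ℕ → ℂ} {m : ℤ} {z : ℕ → ℂ} {χ : ℂ} {u : ℕ → ℂ}

lemma CritC.lgr (h : CritC n b a L m z χ u) {j : ℕ} (hj : j < n) (hb : b ((j + 1) % n) = false) :
    I * (a ((j + 1) % n) * (2 * (z ((j + 1) % n) / 2)) + 2 * π) =
      Pool.Agent.Y482.Chi.lgr (u j / 2) (z ((j + 1) % n) / 2) +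
      Pool.Agent.Y482.Chi.lgr (u ((j + 1) % n) / 2) (z ((j + 1) % n) / 2) + L ((j + 1) % n) := by
  have h1 : (j + 1) % n < n := Nat.mod_lt _ (by omega)
  rw [← (h.bz j hj).lg1.2.1, ← (h.bz _ h1).lg1.1, show 2 * (z ((j + 1) % n) / 2) = z ((j + 1) % n) by
    ring]
  exact h.vert j hj hb

lemma CritC.lcr (h : CritC n b a L m z χ u) :
    I * (2 * m * (2 * (χ / 2)) + 2 * π) =
      ∑ j ∈ range n, Pool.Agent.Y482.Chi.lcr (u j / 2) (χ / 2) := by
  rw [show 2 * (χ / 2) = χ by ring, h.axis]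
  refine sum_congr rfl fun j hj => ?_
  rw [mem_range] at hj
  exact (h.bz j hj).lg1.2.2

end

lemma VDC.rlam_step {b : Bool} {w : ℤ} {l : List (Fl × Fl)} {f g F G f' g' F' G' : Fl}
    (h : VDC b w l f g F G f' g' F' G')
    (pf : f'.Pos) (pg : g'.Pos) (pF : F'.Pos) (pG : G'.Pos)
    (d1 : f'.b + f'.c' + (g'.b + g'.c') = 2 * π) (d2 : F'.b + F'.c' + (G'.b + G'.c') = 2 * π) :
    rlam f' g' F' G' = rlam f g F G := by
  obtain ⟨-, -, -, a1, -, -, -, a2⟩ := pf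
  obtain ⟨-, -, -, a3, -, -, -, a4⟩ := pg
  obtain ⟨-, -, -, a5, -, -, -, a6⟩ := pF
  obtain ⟨-, -, -, a7, -, -, -, a8⟩ := pG
  have h1 := h.axis
  have h2 := h.ca
  unfold rlam
  linarith

section

variable {kf : Bool → ℕ → ℤ → ℕ} {e : ℕ → ℕ → ℂ → ℂ → ℂ}

/-- the conditions at a vertex of the critical structure -/
theorem vdVC {q : PB} (hq : hpv kf e 0 q) {bb : Bool} {w : ℤ} {a a' b' d χ : ℂ}
    (h : BG a b' (q.rz / 2) χ) (h' : BG a' (q.rz / 2) d χ)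
    (he : bb = false →
      I * (w * q.rz + 2 * π) = lgr a (q.rz / 2) + lgr a' (q.rz / 2) + lgv kf e 0 q) :
    VDC bb w (agv kf e 0 q).fl (flA a b' χ) (flA a (-(q.rz / 2)) (-χ)) (flB a b' χ)
      (flB a (-(q.rz / 2)) (-χ)) (flA a' (q.rz / 2) χ) (flA a' (-d) (-χ)) (flB a' (q.rz / 2) χ)
      (flB a' (-d) (-χ)) := by
  have k := Pool.Agent.Y482.Cz.blkAng h
  have k' := Pool.Agent.Y482.Cz.blkAng h'
  obtain ⟨g1, g2⟩ := agv_fl kf e 0 q hq
  have hψ : 2 * (q.rz / 2).re = q.rz.re := by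
    rw [← Pool.Agent.Y482.Chi.re_two]
    congr 1
    ring
  have hfill : bb = false → (flA a' (q.rz / 2) χ).cr + (flB a' (q.rz / 2) χ).cr -
      ((flA a (-(q.rz / 2)) (-χ)).cr + (flB a (-(q.rz / 2)) (-χ)).cr) +
      2 * ((agv kf e 0 q).fl.map fun y => y.1.cr).sum =
      4 * π + w * ((flA a' (q.rz / 2) χ).tw + (flB a' (q.rz / 2) χ).tw) := by
    intro hbb
    obtain ⟨-, c2, -⟩ := Pool.Agent.Y482.Cz.blkCr h
    obtain ⟨c1, -, -⟩ := Pool.Agent.Y482.Cz.blkCr h'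
    have he' := congrArg Complex.im (he hbb)
    rw [Complex.add_im, Complex.add_im, im_I_mul] at he'
    simp only [Complex.add_re, Complex.mul_re, Complex.intCast_re, Complex.intCast_im, zero_mul,
      sub_zero, Complex.re_ofNat, Complex.im_ofNat, Complex.ofReal_re, Complex.ofReal_im] at he'
    rw [g2]
    unfold Fl.cr Fl.tw
    have q1 := k'.Pb
    have q2 := k'.Qb
    linear_combination c1 - c2 - 2 * he' - (w : ℝ) * q1 - (w : ℝ) * q2 - 2 * w * hψ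
  have hx : ∀ x ∈ (agv kf e 0 q).fl, 2 * x.1.c + (x.2.a + x.2.b') = π - q.rz.re ∧
      2 * x.1.a' + (x.2.a + x.2.b') = π + q.rz.re ∧ x.1.tw = q.rz.re := by
    intro x hx
    obtain ⟨ψ₁, u₁, h₁, rfl⟩ := g1 x hx
    have e' := h₁.sr
    exact ⟨e'.2.2.1, e'.2.2.2.1, e'.2.2.2.2.1⟩
  refine ⟨fun hnil => ⟨?_, ?_, ?_, ?_, ?_, ?_, ?_⟩, ?_, ?_, ?_, ?_, ?_, ?_, ?_, hfill⟩
  · linarith [k.TS, k'.BS]
  · linarith [k.TA, k'.BA]
  · linarith [k.CAt, k'.CAb]
  · linarith [k.CRt, k'.CRb]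
  · intro _
    exact ⟨by linarith [k.Pt, k'.Pb], by linarith [k.Qt, k'.Qb]⟩
  · intro _
    exact ⟨by linarith [k.Qt, k'.Pb], by linarith [k.Pt, k'.Qb]⟩
  · intro hbb
    have hfill := hfill hbb
    rw [hnil, List.map_nil, List.sum_nil, mul_zero, add_zero] at hfill
    exact hfill
  · linarith [k.TA, k'.BA]
  · linarith [k.CAt, k'.CAb]
  · linarith [k.CRt, k'.CRb]
  · intro y hy
    have := (hx y (List.mem_of_mem_head? hy)).2.1
    linarith [k'.BS]
  · refine Pool.Agent.W398.AR.isChain_all _ ?_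
    intro x hx1 y hy1
    have e1 := (hx x hx1).1
    have e2 := (hx y hy1).2.1
    unfold Gap
    linarith
  · intro x hx1
    have := (hx x (List.mem_of_getLast? hx1)).1
    linarith [k.TS]
  · intro x hx1
    have := (hx x hx1).2.2
    exact ⟨by linarith [k.Pt], by linarith [k.Qt], by linarith [k'.Pb], by linarith [k'.Qb]⟩

section

variable {n : ℕ} {m : ℤ} {p : ℕ → PB} {χ : ℂ} {u : ℕ → ℂ}

/-- the critical structure is an angle structure -/
theorem crit_angC (hn : 1 ≤ n) (hp : ∀ j < n, hpv kf e 0 (p j) ∧ lcv kf e 0 (p j))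
    (h : CritC n (fun j => (p j).bl) (fun j => (p j).wt) (fun j => lgv kf e 0 (p j)) m
      (fun j => (p j).rz) χ u) :
    DAngC n m (fun j => agv kf e 0 (p j)) (fun j => flA (u j / 2) ((p j).rz / 2) (χ / 2))
      (fun j => flA (u j / 2) (-((p ((j + 1) % n)).rz / 2)) (-(χ / 2)))
      (fun j => flB (u j / 2) ((p j).rz / 2) (χ / 2))
      (fun j => flB (u j / 2) (-((p ((j + 1) % n)).rz / 2)) (-(χ / 2))) := by
  refine ⟨?_, ?_, ?_, ?_, ?_⟩
  · intro j hj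
    exact (h.bz j hj).pos
  · intro j hj
    have k := Pool.Agent.Y482.Cz.blkAng (h.bz j hj)
    exact ⟨k.dA, k.dB⟩
  · intro j hj
    exact agv_isok kf e _ 0 (hp j hj).1 (hp j hj).2
  · intro j hj
    have h1 : (j + 1) % n < n := Nat.mod_lt _ (by omega)
    have he := h.lgr hj
    rw [show 2 * ((p ((j + 1) % n)).rz / 2) = (p ((j + 1) % n)).rz by ring] at he
    have := vdVC (hp _ h1).1 (h.bz j hj) (h.bz _ h1) he
    rw [agv_wt, agv_bl]
    exact this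
  · have h0 : 0 < n := by omega
    have hr : ∀ j ∈ range n, rho (flA (u j / 2) ((p j).rz / 2) (χ / 2))
        (flA (u j / 2) (-((p ((j + 1) % n)).rz / 2)) (-(χ / 2)))
        (flB (u j / 2) ((p j).rz / 2) (χ / 2))
        (flB (u j / 2) (-((p ((j + 1) % n)).rz / 2)) (-(χ / 2))) =
        -2 * (Pool.Agent.Y482.Chi.lcr (u j / 2) (χ / 2)).im +
          (2 * (log (cos ((p j).rz / 2 + χ / 2))).im -
          2 * (log (cos ((p ((j + 1) % n)).rz / 2 + χ / 2))).im) := by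
      intro j hj
      rw [mem_range] at hj
      obtain ⟨-, -, c3⟩ := Pool.Agent.Y482.Cz.blkCr (h.bz j hj)
      unfold rho
      linarith
    rw [sum_congr rfl hr, sum_add_distrib, sum_sub_distrib,
      sum_succ_mod n hn (fun j => 2 * (log (cos ((p j).rz / 2 + χ / 2))).im), sub_self, add_zero,
      ← mul_sum]
    have he := congrArg Complex.im h.lcr
    rw [Complex.im_sum, im_I_mul] at he
    have e1 : (2 * (m : ℂ) * (2 * (χ / 2)) + 2 * π).re = 2 * m * (2 * (χ / 2).re) + 2 * π := by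
      simp
    rw [e1] at he
    rw [← he]
    have q := Pool.Agent.Y482.Cz.blkAng (h.bz 0 h0)
    have q1 := q.TA
    have q2 := q.CAt
    unfold rlam
    linear_combination (2 * (m : ℝ)) * q1 + 2 * (m : ℝ) * q2

/-- the critical structure has maximal volume -/
theorem crit_maxC (htet : S_TET) (hn : 1 ≤ n)
    (hp : ∀ j < n, hpv kf e 0 (p j) ∧ lcv kf e 0 (p j))
    (h : CritC n (fun j => (p j).bl) (fun j => (p j).wt) (fun j => lgv kf e 0 (p j)) m
      (fun j => (p j).rz) χ u)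
    {y : ℕ → AB} {f g F G : ℕ → Fl} (hs : ∀ j < n, (y j).shape = (p j).shape)
    (hy : DAngC n m y f g F G) :
    dVol n y f g F G ≤ dVol n (fun j => agv kf e 0 (p j))
      (fun j => flA (u j / 2) ((p j).rz / 2) (χ / 2))
      (fun j => flA (u j / 2) (-((p ((j + 1) % n)).rz / 2)) (-(χ / 2)))
      (fun j => flB (u j / 2) ((p j).rz / 2) (χ / 2))
      (fun j => flB (u j / 2) (-((p ((j + 1) % n)).rz / 2)) (-(χ / 2))) := by
  have h0 : 0 < n := by omega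
  obtain ⟨z, hz⟩ : ∃ z : ℕ → ℂ, z = fun j => (p j).rz := ⟨_, rfl⟩
  have hzj : ∀ j, (p j).rz = z j := fun j => by rw [hz]
  simp only [hzj] at h ⊢
  -- the rotation along the longitude of the axis is constant
  have hR : ∀ j < n, rlam (f j) (g j) (F j) (G j) = rlam (f 0) (g 0) (F 0) (G 0) := by
    intro j
    induction j with
    | zero => intro _; rfl
    | succ k ih =>
      intro hk
      have hk' : k < n := by omega
      have e : (k + 1) % n = k + 1 := Nat.mod_eq_of_lt hk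
      have hv := hy.vert k hk'
      rw [e] at hv
      obtain ⟨p1, p2, p3, p4⟩ := hy.pos _ hk
      obtain ⟨d1, d2⟩ := hy.diag _ hk
      rw [hv.rlam_step p1 p2 p3 p4 d1 d2, ih hk']
  have h1 : dVol n y f g F G ≤ dVol n (fun j => agv kf e 0 (p j))
      (fun j => flA (u j / 2) (z j / 2) (χ / 2))
      (fun j => flA (u j / 2) (-(z ((j + 1) % n) / 2)) (-(χ / 2)))
      (fun j => flB (u j / 2) (z j / 2) (χ / 2))
      (fun j => flB (u j / 2) (-(z ((j + 1) % n) / 2)) (-(χ / 2))) -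
      ∑ j ∈ range n, (2 * LLv kf e 0 (p j) (y j) +
        (TB (u j / 2) (z j / 2) (χ / 2) ((log (cos (z j / 2 + χ / 2))).re +
          (log (cos (z j / 2 - χ / 2))).re) (f j) (g j) (F j) (G j) +
        TU (u j / 2) (z ((j + 1) % n) / 2) (χ / 2) ((log (cos (z ((j + 1) % n) / 2 + χ / 2))).re +
          (log (cos (z ((j + 1) % n) / 2 - χ / 2))).re) (f j) (g j) (F j) (G j) +
        TX (u j / 2) (z j / 2) (z ((j + 1) % n) / 2) (χ / 2) (f j) (g j) (F j) (G j))) := by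
    unfold dVol
    rw [← sum_sub_distrib]
    refine sum_le_sum fun j hj => ?_
    rw [mem_range] at hj
    have hB := h.bz j hj
    obtain ⟨b1, b2, b3, b4⟩ := hB.pos
    obtain ⟨p1, p2, p3, p4⟩ := hy.pos j hj
    obtain ⟨d1, d2⟩ := hy.diag j hj
    have key := Pool.Agent.Y482.Cz.blk_lf hB p1 p2 p3 p4 d1 d2
    have v1 := vol_le htet _ (f j) b1 p1
    have v2 := vol_le htet _ (g j) b2 p2
    have v3 := vol_le htet _ (F j) b3 p3
    have v4 := vol_le htet _ (G j) b4 p4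
    have v5 := vol_LLv kf e htet (p j) 0 (hp j hj).1 (y j) (hs j hj) (hy.tree j hj)
    linarith
  have h2 : ∑ j ∈ range n, (2 * LLv kf e 0 (p j) (y j) +
        (TB (u j / 2) (z j / 2) (χ / 2) ((log (cos (z j / 2 + χ / 2))).re +
          (log (cos (z j / 2 - χ / 2))).re) (f j) (g j) (F j) (G j) +
        TU (u j / 2) (z ((j + 1) % n) / 2) (χ / 2) ((log (cos (z ((j + 1) % n) / 2 + χ / 2))).re +
          (log (cos (z ((j + 1) % n) / 2 - χ / 2))).re) (f j) (g j) (F j) (G j) +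
        TX (u j / 2) (z j / 2) (z ((j + 1) % n) / 2) (χ / 2) (f j) (g j) (F j) (G j))) = 0 := by
    rw [sum_add_distrib, sum_add_distrib, sum_add_distrib,
      ← sum_succ_mod n hn (fun j => 2 * LLv kf e 0 (p j) (y j)),
      ← sum_succ_mod n hn (fun j => TB (u j / 2) (z j / 2) (χ / 2)
        ((log (cos (z j / 2 + χ / 2))).re + (log (cos (z j / 2 - χ / 2))).re)
        (f j) (g j) (F j) (G j)), ← sum_add_distrib, ← add_assoc, ← sum_add_distrib]
    have e1 : ∑ j ∈ range n, (2 * LLv kf e 0 (p ((j + 1) % n)) (y ((j + 1) % n)) +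
        (TB (u ((j + 1) % n) / 2) (z ((j + 1) % n) / 2) (χ / 2)
        ((log (cos (z ((j + 1) % n) / 2 + χ / 2))).re +
          (log (cos (z ((j + 1) % n) / 2 - χ / 2))).re)
        (f ((j + 1) % n)) (g ((j + 1) % n)) (F ((j + 1) % n)) (G ((j + 1) % n)) +
        TU (u j / 2) (z ((j + 1) % n) / 2) (χ / 2) ((log (cos (z ((j + 1) % n) / 2 + χ / 2))).re +
          (log (cos (z ((j + 1) % n) / 2 - χ / 2))).re) (f j) (g j) (F j) (G j))) = 0 := by
      refine sum_eq_zero fun j hj => ?_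
      rw [mem_range] at hj
      have hk : (j + 1) % n < n := Nat.mod_lt _ (by omega)
      have hv := hy.vert j hj
      have hLL := LLv_eq kf e (p ((j + 1) % n)) 0 (hp _ hk).1 (hp _ hk).2
        (y ((j + 1) % n)) (hs _ hk) (hy.tree _ hk)
      have hwt := (wt_eq _ _ (hs _ hk)).1
      have hlg := elv_lg kf e 0 (p ((j + 1) % n)) (y ((j + 1) % n)) (hs _ hk)
      have hbl := (wt_eq _ _ (hs _ hk)).2
      rw [← elv_map kf e 0 _ _ (hs _ hk), hwt, hbl] at hv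
      have he := h.lgr hj
      have hz0 := h.zero _ hk
      try beta_reduce at he
      try beta_reduce at hz0
      rw [← hlg, hzj] at he
      have e3 : 2 * (z ((j + 1) % n) / 2) = z ((j + 1) % n) := by ring
      have key := vertexDC hv (elv_pos kf e 0 _ _ (hs _ hk) (hy.tree _ hk))
        (a := u j / 2) (a' := u ((j + 1) % n) / 2) (x := z ((j + 1) % n) / 2) (c := χ / 2)
        (fun hb => by rw [hz0 hb, zero_div])
        (by rw [e3] at he ⊢; exact he)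
        ((log (cos (z ((j + 1) % n) / 2 + χ / 2))).re +
          (log (cos (z ((j + 1) % n) / 2 - χ / 2))).re)
      rw [hLL, hzj]
      rw [e3] at key
      linarith
    have e1' : ∑ j ∈ range n, 2 * LLv kf e 0 (p ((j + 1) % n)) (y ((j + 1) % n)) +
        ∑ j ∈ range n, (TB (u ((j + 1) % n) / 2) (z ((j + 1) % n) / 2) (χ / 2)
        ((log (cos (z ((j + 1) % n) / 2 + χ / 2))).re +
          (log (cos (z ((j + 1) % n) / 2 - χ / 2))).re)
        (f ((j + 1) % n)) (g ((j + 1) % n)) (F ((j + 1) % n)) (G ((j + 1) % n)) +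
        TU (u j / 2) (z ((j + 1) % n) / 2) (χ / 2) ((log (cos (z ((j + 1) % n) / 2 + χ / 2))).re +
          (log (cos (z ((j + 1) % n) / 2 - χ / 2))).re) (f j) (g j) (F j) (G j)) = 0 := by
      rw [← sum_add_distrib]
      exact e1
    rw [← sum_add_distrib] at e1'
    rw [e1', zero_add]
    have e2 : ∀ j ∈ range n, TX (u j / 2) (z j / 2) (z ((j + 1) % n) / 2) (χ / 2) (f j) (g j) (F j)
        (G j) = (Pool.Agent.Y482.Chi.lcr (u j / 2) (χ / 2)).re *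
          ((rlam (f 0) (g 0) (F 0) (G 0) - 4 * (χ / 2).re) / 2) +
        (-(χ / 2).im) * (rho (f j) (g j) (F j) (G j)) +
        (-2 * (χ / 2).im) * (Pool.Agent.Y482.Chi.lcr (u j / 2) (χ / 2)).im +
        ((χ / 2).im * (2 * (log (cos (z j / 2 + χ / 2))).im) -
        (χ / 2).im * (2 * (log (cos (z ((j + 1) % n) / 2 + χ / 2))).im)) := by
      intro j hj
      rw [mem_range] at hj
      have := hR j hj
      rw [← this]
      unfold TX rlam rho
      ring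
    rw [sum_congr rfl e2, sum_add_distrib, sum_add_distrib, sum_add_distrib, sum_sub_distrib,
      sum_succ_mod n hn (fun j => (χ / 2).im * (2 * (log (cos (z j / 2 + χ / 2))).im)), sub_self,
      add_zero, ← sum_mul, ← mul_sum, ← mul_sum, hy.fill]
    have he := congrArg Complex.im h.lcr
    have hf := congrArg Complex.re h.lcr
    rw [Complex.im_sum, im_I_mul] at he
    rw [Complex.re_sum, re_I_mul] at hf
    have g1 : (2 * (m : ℂ) * (2 * (χ / 2)) + 2 * π).re = 2 * m * (2 * (χ / 2).re) + 2 * π := by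
      simp
    have g2 : (2 * (m : ℂ) * (2 * (χ / 2)) + 2 * π).im = 2 * m * (2 * (χ / 2).im) := by
      simp
    rw [g1] at he
    rw [g2] at hf
    rw [← he, ← hf]
    ring
  rw [h2] at h1
  linarith

end

end

/-! ### The critical value -/

section

variable {χ₀ : ℂ} {ρ₀ c C : ℝ} {sz dz : ℂ → ℂ → ℂ → ℂ} {ρ τ κ cc : ℝ} {s dl : ℂ → ℂ → ℂ}

/-- the critical points of the potential -/
theorem crit_ofC (hS0 : S_S0P) (hS : SDZ χ₀ ρ₀ c C sz dz) {Λ : ℂ → ℂ}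
    (hΛ : ∀ z ∈ Metric.ball (0 : ℂ) (π / 2), HasDerivAt Λ (log (cos z)) z) {ε : ℝ}
    (hN : Near χ₀ ε) {n : ℕ} {b : ℕ → Bool} {a : ℕ → ℤ} {g L : ℕ → ℂ} {m : ℤ} {z : ℕ → ℂ} {χ : ℂ}
    (h : RCritC sz χ₀ ρ₀ n b a g m z χ) (hg : ∀ j < n, g j = -(1 / (2 * π)) * L j)
    (hz : ∀ j < n, ‖z j‖ ≤ ε) (hχ : ‖χ - χ₀‖ ≤ ε) :
    CritC n b a L m z χ (fun j => 2 * π * dz (z j) (z ((j + 1) % n)) χ) := by
  obtain ⟨mc, hv, ha⟩ := h
  have hpi : (π : ℂ) ≠ 0 := Complex.ofReal_ne_zero.2 Real.pi_ne_zero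
  refine ⟨?_, fun j hj => (hv j hj).2.2.1, ?_, ?_⟩
  · intro j hj
    have h1 : (j + 1) % n < n := Nat.mod_lt _ (by omega)
    exact (at_edge hS0 hS hΛ hN (hv j hj).1 (hv _ h1).1 mc (hz j hj) (hz _ h1) hχ).1
  · intro j hj hb
    have h1 : (j + 1) % n < n := Nat.mod_lt _ (by omega)
    have h2 : ((j + 1) % n + 1) % n < n := Nat.mod_lt _ (by omega)
    obtain ⟨m1, -, -, e1⟩ := hv j hj
    obtain ⟨m2, -⟩ := hv _ h1
    obtain ⟨m3, -⟩ := hv _ h2
    have e1 := e1 hb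
    rw [(sder2 hS m1 m2 mc).deriv, (hS.sder _ m2 _ m3 _ mc).deriv, hg _ h1] at e1
    have h3 : (2 : ℂ) * π * (Complex.I * a ((j + 1) % n) * z ((j + 1) % n) / (2 * π) + Complex.I +
      -(1 / (2 * π)) * L ((j + 1) % n) +
      -(1 / (2 * π)) * Lg (2 * π * dz (z j) (z ((j + 1) % n)) χ) (z ((j + 1) % n)) +
      -(1 / (2 * π)) * Lg (2 * π * dz (z ((j + 1) % n)) (z (((j + 1) % n + 1) % n)) χ)
        (z ((j + 1) % n))) = 0 := by rw [e1, mul_zero]
    field_simp at h3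
    linear_combination h3
  · have e2 : ∀ j ∈ range n, deriv (fun w => sz (z j) (z ((j + 1) % n)) w) χ =
        -(1 / (2 * π)) * Lc (2 * π * dz (z j) (z ((j + 1) % n)) χ) χ := by
      intro j hj
      rw [mem_range] at hj
      have h1 : (j + 1) % n < n := Nat.mod_lt _ (by omega)
      obtain ⟨m1, -⟩ := hv j hj
      obtain ⟨m2, -⟩ := hv _ h1
      rw [(hS.sderc _ m1 _ m2 _ mc).deriv, lg_lc]
    rw [sum_congr rfl e2, ← mul_sum] at ha
    have h3 : (2 : ℂ) * π * (Complex.I * m * χ / π + Complex.I + -(1 / (2 * π)) *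
      ∑ j ∈ range n, Lc (2 * π * dz (z j) (z ((j + 1) % n)) χ) χ) = 0 := by rw [ha, mul_zero]
    field_simp at h3
    linear_combination h3

/-- the critical value -/
theorem val_ofC (hS0 : S_S0P) (hS : SDZ χ₀ ρ₀ c C sz dz) {Λ : ℂ → ℂ}
    (hΛ : ∀ z ∈ Metric.ball (0 : ℂ) (π / 2), HasDerivAt Λ (log (cos z)) z) {ε : ℝ}
    (hN : Near χ₀ ε) {n : ℕ} {b : ℕ → Bool} {a : ℕ → ℤ} {g L : ℕ → ℂ} {m : ℤ} {z : ℕ → ℂ} {χ : ℂ}
    (hn : 1 ≤ n) (h : RCritC sz χ₀ ρ₀ n b a g m z χ) (hg : ∀ j < n, g j = -(1 / (2 * π)) * L j)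
    (hz : ∀ j < n, ‖z j‖ ≤ ε) (hχ : ‖χ - χ₀‖ ≤ ε) :
    2 * π * (RVal3 sz n a m z χ).re + ∑ j ∈ range n, (z j).im * (L j).im = ∑ j ∈ range n,
      bv (2 * π * dz (z j) (z ((j + 1) % n)) χ / 2) (z j / 2) (z ((j + 1) % n) / 2) (χ / 2) := by
  have hX := crit_ofC hS0 hS hΛ hN h hg hz hχ
  obtain ⟨mc, hv, ha⟩ := h
  unfold RVal3
  rw [Complex.add_re, Complex.re_sum, mul_add, mul_sum]
  have e0 : ∀ j ∈ range n, 2 * π * (Complex.I * a j * z j ^ 2 / (4 * π) + Complex.I * z j +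
      sz (z j) (z ((j + 1) % n)) χ).re =
      bv (2 * π * dz (z j) (z ((j + 1) % n)) χ / 2) (z j / 2) (z ((j + 1) % n) / 2) (χ / 2) +
      ((z j).im * ((Lg (2 * π * dz (z j) (z ((j + 1) % n)) χ) (z j)).im -
        ((a j : ℝ) * (z j).re + 2 * π))) +
      (z ((j + 1) % n)).im *
        (Lg (2 * π * dz (z j) (z ((j + 1) % n)) χ) (z ((j + 1) % n))).im +
      χ.im * (Lc (2 * π * dz (z j) (z ((j + 1) % n)) χ) χ).im -
      ((EL Λ (z j / 2) - EL Λ (z j / 2 + χ / 2)) -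
        (EL Λ (z ((j + 1) % n) / 2) - EL Λ (z ((j + 1) % n) / 2 + χ / 2))) := by
    intro j hj
    rw [mem_range] at hj
    have h1 : (j + 1) % n < n := Nat.mod_lt _ (by omega)
    obtain ⟨m1, n1, -⟩ := hv j hj
    obtain ⟨m2, n2, -⟩ := hv _ h1
    have t1 := (at_edge hS0 hS hΛ hN m1 m2 mc (hz j hj) (hz _ h1) hχ).2
    have t2 := Pool.Agent.W571.AR.val_re (a j) (z j)
    rw [Complex.add_re, mul_add, t1, t2]
    ring
  rw [sum_congr rfl e0, sum_sub_distrib, sum_sub_distrib,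
    sum_succ_mod n hn (fun j => EL Λ (z j / 2) - EL Λ (z j / 2 + χ / 2)), sub_self, sub_zero,
    sum_add_distrib, sum_add_distrib, sum_add_distrib,
    ← sum_succ_mod n hn (fun j => (z j).im * ((Lg (2 * π * dz (z j) (z ((j + 1) % n)) χ) (z j)).im -
        ((a j : ℝ) * (z j).re + 2 * π))), ← mul_sum,
    ← sum_succ_mod n hn (fun j => (z j).im * (L j).im)]
  have e1 : ∑ j ∈ range n, ((z ((j + 1) % n)).im *
      ((Lg (2 * π * dz (z ((j + 1) % n)) (z (((j + 1) % n + 1) % n)) χ) (z ((j + 1) % n))).im -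
        ((a ((j + 1) % n) : ℝ) * (z ((j + 1) % n)).re + 2 * π))) +
      ∑ j ∈ range n, (z ((j + 1) % n)).im *
        (Lg (2 * π * dz (z j) (z ((j + 1) % n)) χ) (z ((j + 1) % n))).im +
      ∑ j ∈ range n, (z ((j + 1) % n)).im * (L ((j + 1) % n)).im = 0 := by
    rw [← sum_add_distrib, ← sum_add_distrib]
    refine sum_eq_zero fun j hj => ?_
    rw [mem_range] at hj
    have h1 : (j + 1) % n < n := Nat.mod_lt _ (by omega)
    cases hb : b ((j + 1) % n) with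
    | true =>
      have hz0 := hX.zero _ h1 hb
      rw [hz0]
      simp
    | false =>
      have e2 := Pool.Agent.W571.AR.im_eq _ _ _ (hX.vert j hj hb)
      rw [Complex.add_im, Complex.add_im] at e2
      linear_combination (-(z ((j + 1) % n)).im) * e2
  have e3 : 2 * π * (Complex.I * m * χ ^ 2 / (2 * π) + Complex.I * χ).re =
      -(χ.im * (2 * m * χ.re + 2 * π)) := by
    have := Pool.Agent.W571.AR.val_re (2 * m) χ
    push_cast at this
    rw [show Complex.I * (m : ℂ) * χ ^ 2 / (2 * π) = Complex.I * (2 * m) * χ ^ 2 / (4 * π) by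
      ring, this]
  have e4 := hX.axis
  have e5 : (Complex.I * (2 * m * χ + 2 * π)).im = 2 * m * χ.re + 2 * π := by
    simp
  have e6 : ∑ j ∈ range n, (Lc (2 * π * dz (z j) (z ((j + 1) % n)) χ) χ).im =
      2 * m * χ.re + 2 * π := by
    rw [← e5, e4, Complex.im_sum]
  rw [e3, e6]
  linear_combination e1

end

/-- GEOCV: near `χ₀` the critical value is the maximal volume of the angle structures; general kinds
of the vertices other than the roots -/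
def S_GEOCV : Prop := S_S0P → ∀ (ρ τ κ cc : ℝ) (s dl : ℂ → ℂ → ℂ), KD ρ τ κ cc s dl →
  ∀ (kf : Bool → ℕ → ℤ → ℕ) (cen : ℕ → ℂ) (S : ℕ → ℂ → ℂ → ℂ) (D : ℕ),
  (∀ n a, kf true n a = 0) → (∀ b n a, kf b n a < D) →
  (∀ b n a, kf b n a ≠ 0 → ∃ g : ℝ, 0 < g ∧ ∀ ψ φ : ℂ, ‖ψ‖ ≤ g → ‖φ - cen (kf b n a)‖ ≤ g →
    ∃ δ : ℂ, EFW (S (kf b n a)) ψ φ δ) →
  ∃ g : ℝ, 0 < g ∧ ∀ χ₀ : ℂ, Zr χ₀ → ∃ ε : ℝ, 0 < ε ∧ ∀ ρ₀ c C : ℝ, SDZ χ₀ ρ₀ c C szz dzz →
    ∀ (n : ℕ) (m : ℤ) (p : ℕ → PB) (χ : ℂ), 1 ≤ n →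
      (∀ j < n, CG kf cen S s ρ τ g 0 (p j) ∧ (p j).rz ∈ Rc ρ τ ∧ ‖(p j).rz‖ ≤ ε) →
      ‖χ - χ₀‖ ≤ ε →
      RCritC szz χ₀ ρ₀ n (fun j => (p j).bl) (fun j => (p j).wt) (fun j => gg kf S s 0 (p j)) m
        (fun j => (p j).rz) χ →
      IsGreatest {W : ℝ | ∃ (y : ℕ → AB) (f g F G : ℕ → Fl),
          (∀ j < n, (y j).shape = (p j).shape) ∧ DAngC n m y f g F G ∧ dVol n y f g F G = W}
        (2 * π * (RVal3 szz n (fun j => (p j).wt) m (fun j => (p j).rz) χ +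
          ∑ j ∈ range n, vg kf S s 0 (p j)).re)

/-- **GEOCV** -/
theorem geocv : S_GEOCV := by
  intro hS0 ρ τ κ cc s dl hK kf cen S D ht hD hSD
  classical
  obtain ⟨g, hg0, hg⟩ := Pool.Agent.TH858.J1745.exists_g'
    (fun k g => (∃ b n a, kf b n a = k ∧ k ≠ 0) → ∀ ψ φ : ℂ, ‖ψ‖ ≤ g →
      ‖φ - cen k‖ ≤ g → ∃ δ : ℂ, EFW (S k) ψ φ δ)
    (fun k g g' hgg h h1 ψ φ a b => h h1 ψ φ (a.trans hgg) (b.trans hgg))
    (by
      intro k
      by_cases h : ∃ b n a, kf b n a = k ∧ k ≠ 0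
      · obtain ⟨b, n, a, rfl, h0⟩ := h
        obtain ⟨g, hg0, hg⟩ := hSD b n a h0
        exact ⟨g, hg0, fun _ => hg⟩
      · exact ⟨1, one_pos, fun h1 => absurd h1 h⟩) D
  obtain ⟨Dl, hDl⟩ : ∃ Dl : ℕ → ℂ → ℂ → ℂ, ∀ k ψ φ, (∃ δ : ℂ, EFW (S k) ψ φ δ) →
      EFW (S k) ψ φ (Dl k ψ φ) := by
    have : ∀ k ψ φ, ∃ δ : ℂ, (∃ δ : ℂ, EFW (S k) ψ φ δ) → EFW (S k) ψ φ δ := by
      intro k ψ φ
      by_cases h : ∃ δ : ℂ, EFW (S k) ψ φ δ
      · obtain ⟨δ, hδ⟩ := h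
        exact ⟨δ, fun _ => hδ⟩
      · exact ⟨0, fun h1 => absurd h1 h⟩
    choose Dl h using this
    exact ⟨Dl, h⟩
  obtain ⟨Q, hQd⟩ : ∃ Q : ℕ → Prop, Q = fun k => ∃ b n a, kf b n a = k ∧ k ≠ 0 := ⟨_, rfl⟩
  have hQ : ∀ b n a, kf b n a ≠ 0 → Q (kf b n a) := by
    intro b n a h
    rw [hQd]
    exact ⟨b, n, a, rfl, h⟩
  have hS' : ∀ k, Q k → ∀ ψ φ : ℂ, ‖ψ‖ ≤ g → ‖φ - cen k‖ ≤ g → EFW (S k) ψ φ (Dl k ψ φ) := by
    intro k hk ψ φ h1 h2
    rw [hQd] at hk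
    have hkD : k < D := by
      obtain ⟨b, n, a, rfl, -⟩ := hk
      exact hD b n a
    exact hDl k ψ φ (hg k hkD hk ψ φ h1 h2)
  refine ⟨g, hg0, fun χ₀ hZ => ?_⟩
  obtain ⟨ε₁, hε₁, hN⟩ := Pool.Agent.Y482.Cz.near hZ
  obtain ⟨Λ, hΛ⟩ := Pool.Agent.Y482.Cz.ex_prim
  refine ⟨min ε₁ (1 / 10), lt_min hε₁ (by norm_num), ?_⟩
  intro ρ₀ c C hS n m p χ hn hp hχ h
  have hz : ∀ j < n, ‖(p j).rz‖ ≤ ε₁ := fun j hj => (hp j hj).2.2.trans (min_le_left _ _)
  have hχ' : ‖χ - χ₀‖ ≤ ε₁ := hχ.trans (min_le_left _ _)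
  have hi : ∀ j < n, _ := fun j hj => indv hK ht hQ hS' (p j) 0 (fun h => absurd rfl h)
    (hp j hj).1 ⟨fun _ => ⟨(hp j hj).2.1, (hp j hj).2.2.trans (min_le_right _ _)⟩,
      fun h => absurd rfl h⟩
  set e := ee dl Dl with he
  have hg' : ∀ j < n, gg kf S s 0 (p j) = -(1 / (2 * π)) * lgv kf e 0 (p j) :=
    fun j hj => (hi j hj).1
  have hcr := crit_ofC hS0 hS hΛ hN h hg' hz hχ'
  have hval := val_ofC hS0 hS hΛ hN hn h hg' hz hχ'
  have hq : ∀ j < n, hpv kf e 0 (p j) ∧ lcv kf e 0 (p j) :=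
    fun j hj => ⟨(hi j hj).2.1, (hi j hj).2.2.1⟩
  have hvol : dVol n (fun j => agv kf e 0 (p j))
      (fun j => flA (2 * π * dzz (p j).rz (p ((j + 1) % n)).rz χ / 2) ((p j).rz / 2) (χ / 2))
      (fun j => flA (2 * π * dzz (p j).rz (p ((j + 1) % n)).rz χ / 2)
        (-((p ((j + 1) % n)).rz / 2)) (-(χ / 2)))
      (fun j => flB (2 * π * dzz (p j).rz (p ((j + 1) % n)).rz χ / 2) ((p j).rz / 2) (χ / 2))
      (fun j => flB (2 * π * dzz (p j).rz (p ((j + 1) % n)).rz χ / 2)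
        (-((p ((j + 1) % n)).rz / 2)) (-(χ / 2))) =
      2 * π * (RVal3 szz n (fun j => (p j).wt) m (fun j => (p j).rz) χ +
        ∑ j ∈ range n, vg kf S s 0 (p j)).re := by
    unfold dVol
    have e1 : ∑ j ∈ range n, ((flA (2 * π * dzz (p j).rz (p ((j + 1) % n)).rz χ / 2)
        ((p j).rz / 2) (χ / 2)).vol + (flA (2 * π * dzz (p j).rz (p ((j + 1) % n)).rz χ / 2)
        (-((p ((j + 1) % n)).rz / 2)) (-(χ / 2))).vol +
        (flB (2 * π * dzz (p j).rz (p ((j + 1) % n)).rz χ / 2) ((p j).rz / 2) (χ / 2)).vol +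
        (flB (2 * π * dzz (p j).rz (p ((j + 1) % n)).rz χ / 2)
        (-((p ((j + 1) % n)).rz / 2)) (-(χ / 2))).vol) =
        ∑ j ∈ range n, bv (2 * π * dzz (p j).rz (p ((j + 1) % n)).rz χ / 2) ((p j).rz / 2)
          ((p ((j + 1) % n)).rz / 2) (χ / 2) := rfl
    have e2 : ∑ j ∈ range n, (agv kf e 0 (p j)).vol = ∑ j ∈ range n, hsv kf e 0 (p j) :=
      sum_congr rfl fun j hj => agv_vol kf e _ 0 (hq j (mem_range.1 hj)).1
    have e3 : ∑ j ∈ range n, 2 * π * (vg kf S s 0 (p j)).re =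
        ∑ j ∈ range n, (hsv kf e 0 (p j) + (p j).rz.im * (lgv kf e 0 (p j)).im) :=
      sum_congr rfl fun j hj => (hi j (mem_range.1 hj)).2.2.2
    rw [sum_add_distrib, e1, e2, ← hval, Complex.add_re, Complex.re_sum, mul_add, mul_sum, e3,
      sum_add_distrib]
    ring
  rw [← hvol]
  constructor
  · exact ⟨_, _, _, _, _, fun j hj => agv_shape kf e (p j) 0,
      crit_angC hn hq hcr, rfl⟩
  · rintro W ⟨y, f, g, F, G, hs', hy, rfl⟩
    exact crit_maxC Pool.Agent.W120.VC.tet hn hq hcr hs' hy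

end Pool.Agent.N518.RC
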