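import Pool.Agent.N518.RC.Pot

/-!
# From the near parts of the paths to the whole paths, with parameters
-/

set_option autoImplicit false
set_option linter.all false

namespace Pool.Agent.N518.RC

open Finset Filter Topology Metric
open Pool.Agent.W711.HT hiding XX
open Pool.Agent.Y472
open Pool.Agent.Y674.CB (rc_open rc_mono rc_norm rc_zero rc_neg bx_mono log_near)
open Pool.Agent.Y481 (itI itN itG itG_sep itI_eq LI_lin Sep cw LI LN)
open scoped Real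

/-- the first `e` variables of `φ`, the others of `ψ` -/
def mix (e : ℕ) (ψ φ : ℕ → ℂ) : ℕ → ℂ := fun i => if i < e then φ i else ψ i

lemma mix_update {e j : ℕ} (hj : j < e) (ψ φ : ℕ → ℂ) (w : ℂ) :
    Function.update (mix e ψ φ) j w = mix e ψ (Function.update φ j w) := by
  funext i
  by_cases h : i = j
  · rw [h, Function.update_self]
    unfold mix
    rw [if_pos hj, Function.update_self]
  · rw [Function.update_of_ne h]
    unfold mix
    rw [Function.update_of_ne h]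

lemma itG_mix (Λ : ℕ → (ℂ → ℂ) → ℂ) (f : (ℕ → ℂ) → ℂ) (e : ℕ) (ψ : ℕ → ℂ) (j : ℕ) (hj : j ≤ e) :
    ∀ φ, itG Λ j f (mix e ψ φ) = itG Λ j (fun φ => f (mix e ψ φ)) φ := by
  induction j with
  | zero => intro φ; rfl
  | succ j ih =>
    intro φ
    show Λ j (fun w => itG Λ j f (Function.update (mix e ψ φ) j w)) =
      Λ j (fun w => itG Λ j (fun φ => f (mix e ψ φ)) (Function.update φ j w))
    congr 1
    funext w
    rw [mix_update (by omega), ih (by omega)]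

lemma itG_dep (Λ : ℕ → (ℂ → ℂ) → ℂ) (f : (ℕ → ℂ) → ℂ) (j : ℕ) :
    ∀ ψ ψ' : ℕ → ℂ, (∀ i, j ≤ i → ψ i = ψ' i) → itG Λ j f ψ = itG Λ j f ψ' := by
  induction j with
  | zero =>
    intro ψ ψ' h
    have : ψ = ψ' := funext fun i => h i (Nat.zero_le i)
    rw [this]
  | succ j ih =>
    intro ψ ψ' h
    show Λ j (fun w => itG Λ j f (Function.update ψ j w)) =
      Λ j (fun w => itG Λ j f (Function.update ψ' j w))
    congr 1
    funext w
    refine ih _ _ fun i hi => ?_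
    by_cases hij : i = j
    · rw [hij, Function.update_self, Function.update_self]
    · rw [Function.update_of_ne hij, Function.update_of_ne hij]
      exact h i (by omega)

lemma itG_freeze (Λ : ℕ → (ℂ → ℂ) → ℂ) (f : (ℕ → ℂ) → ℂ) (e : ℕ) (ψ : ℕ → ℂ) :
    itG Λ e f ψ = itG Λ e (fun φ => f (mix e ψ φ)) 0 := by
  rw [← itG_mix Λ f e ψ e le_rfl 0]
  refine itG_dep Λ f e _ _ fun i hi => ?_
  unfold mix
  rw [if_neg (by omega)]

lemma itG_lam {Λ Λ' : ℕ → (ℂ → ℂ) → ℂ} (f : (ℕ → ℂ) → ℂ) (j : ℕ) (h : ∀ i < j, Λ i = Λ' i) :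
    itG Λ j f = itG Λ' j f := by
  induction j with
  | zero => rfl
  | succ j ih =>
    funext ψ
    show Λ j (fun w => itG Λ j f (Function.update ψ j w)) =
      Λ' j (fun w => itG Λ' j f (Function.update ψ j w))
    rw [ih fun i hi => h i (by omega), h j (by omega)]

lemma sep_mix {L e : ℕ} (he : e ≤ L) {f : (ℕ → ℂ) → ℂ} (hf : Sep L f) (ψ : ℕ → ℂ) :
    Sep e (fun φ => f (mix e ψ φ)) := by
  obtain ⟨ι, I, c, A, hA, hf⟩ := hf
  refine ⟨ι, I, fun i => c i * ∏ j ∈ Ico e L, A i j (ψ j), A, hA, fun φ => ?_⟩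
  beta_reduce
  rw [hf]
  refine sum_congr rfl fun i _ => ?_
  rw [range_eq_Ico, range_eq_Ico, ← prod_Ico_consecutive _ (Nat.zero_le e) he]
  have h1 : ∏ j ∈ Ico 0 e, A i j (mix e ψ φ j) = ∏ j ∈ Ico 0 e, A i j (φ j) := by
    refine prod_congr rfl fun j hj => ?_
    rw [mem_Ico] at hj
    unfold mix
    rw [if_pos hj.2]
  have h2 : ∏ j ∈ Ico e L, A i j (mix e ψ φ j) = ∏ j ∈ Ico e L, A i j (ψ j) := by
    refine prod_congr rfl fun j hj => ?_
    rw [mem_Ico] at hj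
    unfold mix
    rw [if_neg (by omega)]
  rw [h1, h2]
  ring

theorem heavy_step (n e : ℕ) (he : e ≤ n) {T K : ℝ → ℝ} (hT : ∀ ρ, 0 < ρ → 0 < T ρ)
    (hK : ∀ ρ, 0 < ρ → 0 < K ρ) {r ρ p Lp R : ℝ} (hr : 0 < r) (hrR : r ≤ R) (hρ : 0 < ρ)
    (hρπ : ρ ≤ π) (hp : 0 < p) (hL : 0 ≤ Lp) :
    ∃ r' η₀ : ℝ, 0 < r' ∧ r' ≤ r ∧ 0 < η₀ ∧ ∀ (a : ℕ → ℤ) (b : ℕ → Bool) (g : ℂ → ℝ)
      (f : ℕ → (ℕ → ℂ) → ℂ) (S : (ℕ → ℂ) → ℂ) (η : ℝ), η ≤ η₀ → ContinuousOn g (Rc R R) →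
      (∀ j < e, b j = false) → (∀ ψ ∈ Bx (n + 1) r, p ≤ (S ψ).re) →
      (∀ ψ ∈ Bx (n + 1) r, g (ψ n) - η - Lp * ∑ i ∈ Ico e n, ‖ψ i‖ ≤ (S ψ).re) →
      FB n T K R g f → (∀ N, Sep (n + 1) (f N)) →
      SeqLim (n + 1) r (fun N => itN (fun _ => ρ) a N e (f N)) S →
      SeqLim (n + 1) r' (fun N => itG (fun i => Lc (b i) (a i) N) e (f N)) S := by
  have hT0 := hT ρ hρ
  have hK0 := hK ρ hρ
  obtain ⟨κ, hκ⟩ : ∃ κ : ℝ, κ = K ρ := ⟨_, rfl⟩
  rw [← hκ] at hK0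
  obtain ⟨q, hq⟩ : ∃ q : ℝ, q = κ / (16 * (Lp + 1) * (n + 1)) := ⟨_, rfl⟩
  have hq0 : 0 < q := by rw [hq]; positivity
  refine ⟨min r (min (T ρ) q), κ / 8, by positivity, min_le_left _ _, by positivity, ?_⟩
  obtain ⟨r₂, hr₂⟩ : ∃ r₂ : ℝ, r₂ = min r (min (T ρ) q) := ⟨_, rfl⟩
  have hr₂0 : 0 < r₂ := by rw [hr₂]; positivity
  have hr₂1 : r₂ ≤ r := by rw [hr₂]; exact min_le_left _ _
  have hr₂T : r₂ ≤ T ρ := by rw [hr₂]; exact (min_le_right _ _).trans (min_le_left _ _)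
  have hr₂q : r₂ ≤ q := by rw [hr₂]; exact (min_le_right _ _).trans (min_le_right _ _)
  rw [← hr₂]
  intro a b g f S η hη hg hb hpos hlow hFB hsep hlim ψ ψ₀ hψ₀ hψ
  have hψ₀r : ψ₀ ∈ Bx (n + 1) r := fun i hi => rcm hr₂1 hr₂1 (hψ₀ i hi)
  have h1 := hlim ψ ψ₀ hψ₀r hψ
  obtain ⟨C, hC, hfp⟩ := Pool.Agent.Y481.far_part e a
  -- the parameters are in the small box
  have hbox : ∀ᶠ N : ℕ in atTop, ∀ i ∈ range (n + 1), ψ N i ∈ Rc r₂ r₂ := by
    rw [Filter.eventually_all_finset]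
    intro i hi
    rw [mem_range] at hi
    exact (hψ i hi).eventually ((rc_open _ _).mem_nhds (hψ₀ i hi))
  have hnR : ψ₀ n ∈ Rc R R := rcm (hr₂1.trans hrR) (hr₂1.trans hrR) (hψ₀ n (by omega))
  have hgc : Tendsto (fun N => g (ψ N n)) atTop (𝓝 (g (ψ₀ n))) :=
    ((hg _ hnR).continuousAt ((rc_open _ _).mem_nhds hnR)).tendsto.comp (hψ n (by omega))
  have hgc' : ∀ᶠ N : ℕ in atTop, g (ψ N n) ≤ g (ψ₀ n) + κ / 8 :=
    (hgc.eventually (gt_mem_nhds (by linarith : g (ψ₀ n) < g (ψ₀ n) + κ / 8))).mono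
      fun N hN => hN.le
  have hlo : g (ψ₀ n) - κ / 4 ≤ (S ψ₀).re := by
    have h1 := hlow ψ₀ hψ₀r
    have h2 : ∑ i ∈ Ico e n, ‖ψ₀ i‖ ≤ ∑ _i ∈ Ico e n, 2 * q := by
      refine sum_le_sum fun i hi => ?_
      rw [mem_Ico] at hi
      have h3 := hψ₀ i (by omega)
      have h4 := Complex.norm_le_abs_re_add_abs_im (ψ₀ i)
      linarith [h3.1, h3.2]
    rw [sum_const, Nat.card_Ico, nsmul_eq_mul] at h2
    have h3 : ((n - e : ℕ) : ℝ) * (2 * q) ≤ (n + 1) * (2 * q) := by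
      refine mul_le_mul_of_nonneg_right ?_ (by positivity)
      have : n - e ≤ n + 1 := by omega
      exact_mod_cast this
    have h4 : Lp * ∑ i ∈ Ico e n, ‖ψ₀ i‖ ≤ (Lp + 1) * ((n + 1) * (2 * q)) :=
      mul_le_mul (by linarith) (h2.trans h3) (sum_nonneg fun _ _ => norm_nonneg _) (by positivity)
    have h5 : (Lp + 1) * ((n + 1) * (2 * q)) = κ / 8 := by
      rw [hq]
      field_simp
      norm_num
    linarith
  refine log_near (g' := g (ψ₀ n) - κ / 2) (Cf := C) (lt_of_lt_of_le hp (hpos ψ₀ hψ₀r)) (by linarith)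
    h1 ?_
  filter_upwards [hfp (fun _ => ρ) (fun _ _ => ⟨hρ, hρπ⟩), hFB ρ hρ, hbox, hgc',
    eventually_ge_atTop 1] with N k1 k2 k3 k4 hN
  have hNp : (0 : ℝ) < N := by exact_mod_cast hN
  have k5 := k1 (fun φ => f N (mix e (ψ N) φ)) (Real.exp (N * (g (ψ N n) - κ)))
    (Real.exp_pos _).le (sep_mix (by omega) (hsep N) _) (by
      rintro φ hφ ⟨j, hj, hj2⟩
      have e1 : mix e (ψ N) φ n = ψ N n := by
        unfold mix
        rw [if_neg (by omega)]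
      have k6 := k2 (mix e (ψ N) φ) (by
        intro i hi
        by_cases hie : i < e
        · left
          unfold mix
          rw [if_pos hie]
          exact hφ i hie
        · right
          unfold mix
          rw [if_neg hie]
          exact rcm hr₂T hr₂T (k3 i (mem_range.2 (by omega)))) (by
        rw [e1]
        exact rcm (hr₂1.trans hrR) (hr₂1.trans hrR) (k3 n (mem_range.2 (by omega))))
        ⟨j, by omega, by
          unfold mix
          rw [if_pos hj]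
          exact hj2⟩
      rw [e1, ← hκ] at k6
      exact k6)
  have e2 : itG (fun i => Lc (b i) (a i) N) e (f N) (ψ N) =
      itI a N e (fun φ => f N (mix e (ψ N) φ)) 0 := by
    rw [itI_eq, itG_freeze, itG_lam _ e (Λ' := fun j => LI (a j) N)]
    intro i hi
    rw [hb i hi, Lc_false]
  have e3 : itN (fun _ => ρ) a N e (f N) (ψ N) =
      itN (fun _ => ρ) a N e (fun φ => f N (mix e (ψ N) φ)) 0 := by
    unfold itN
    rw [itG_freeze]
  rw [e2, e3]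
  refine k5.trans (mul_le_mul_of_nonneg_left ?_ hC.le)
  refine Real.exp_le_exp.2 (mul_le_mul_of_nonneg_left ?_ hNp.le)
  linarith

end Pool.Agent.N518.RC
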