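import Pool.Agent.N518.RC.Circ
import Pool.Agent.TH219.J139

/-!
# The iterated functionals with circles
-/

set_option autoImplicit false

namespace Pool.Agent.N518.RC

open Finset Filter Topology Metric
open Pool.Agent.W711.HT hiding XX
open Pool.Agent.Y472
open Pool.Agent.TH563.UV (UN)
open Pool.Agent.TH219.J139 (Ub Ub_diff)
open Pool.Agent.Y481 (itI itN itG itG_sep itI_eq LI_lin Sep cw LI LN)
open scoped Real

lemma pow_ev {κ : ℝ} (hκ : 0 < κ) (C : ℝ) (j : ℕ) :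
    ∀ᶠ N : ℕ in atTop, C * (N : ℝ) ^ j ≤ Real.exp (κ * N) := by
  have hC : 0 < 1 / (|C| + 1) := by positivity
  have h1 : ∀ᶠ x : ℝ in atTop, ‖x ^ j‖ ≤ 1 / (|C| + 1) * ‖Real.exp (κ * x)‖ :=
    (isLittleO_pow_exp_pos_mul_atTop j hκ).bound hC
  filter_upwards [tendsto_natCast_atTop_atTop.eventually h1] with N h2
  rw [Real.norm_eq_abs, Real.norm_eq_abs, Real.abs_exp, abs_of_nonneg (by positivity)] at h2
  rw [div_mul_eq_mul_div, one_mul, le_div_iff₀ (by positivity)] at h2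
  have h3 : C * (N : ℝ) ^ j ≤ |C| * (N : ℝ) ^ j :=
    mul_le_mul_of_nonneg_right (le_abs_self C) (by positivity)
  have h4 : 0 ≤ (N : ℝ) ^ j := by positivity
  nlinarith

/-- the functional of a vertex; `b` says whether there is a circle -/
noncomputable def Lc (b : Bool) (a : ℤ) (N : ℕ) (F : ℂ → ℂ) : ℂ := LI a N fun w => Ub b N w * F w

lemma Lc_false (a : ℤ) (N : ℕ) : Lc false a N = LI a N := by
  funext F
  unfold Lc Ub
  simp

lemma Lc_true (a : ℤ) (N : ℕ) (F : ℂ → ℂ) : Lc true a N F = LI a N fun w => UN N w * F w := by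
  unfold Lc Ub
  simp

lemma Lc_lin (b : Bool) (a : ℤ) {N : ℕ} (hN : 1 ≤ N) : Sep.Lin (Lc b a N) := by
  intro ι I c h hh
  unfold Lc
  have e : (fun w => Ub b N w * ∑ i ∈ I, c i * h i w) =
      fun w => ∑ i ∈ I, c i * (Ub b N w * h i w) := by
    funext w
    rw [mul_sum]
    exact sum_congr rfl fun i _ => by ring
  rw [e]
  exact LI_lin a hN ι I c (fun i w => Ub b N w * h i w) fun i => (Ub_diff b N).mul (hh i)

lemma Ub_bd {N : ℕ} (hN : 1 ≤ N) (b : Bool) {x y : ℝ} (hy : |y| ≤ 1 / N) :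
    ‖Ub b N (x + y * Complex.I)‖ ≤ 3 * N := by
  have hN1 : (1 : ℝ) ≤ N := by exact_mod_cast hN
  cases b with
  | false =>
    unfold Ub
    simp only [Bool.false_eq_true, if_false, norm_one]
    linarith
  | true =>
    unfold Ub
    simp only [if_true]
    exact Pool.Agent.TH929.J29.UN_bd (by omega) hy

/-- the size of the functional of a vertex -/
lemma Lc_bd (a : ℤ) : ∃ D : ℝ, 0 < D ∧ ∀ᶠ N : ℕ in atTop, ∀ (b : Bool) (F : ℂ → ℂ) (B : ℝ), 0 ≤ B →
    Continuous F → (∀ x y : ℝ, |x| ≤ π → |y| ≤ 1 / N → ‖F (x + y * Complex.I)‖ ≤ B) →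
    ‖Lc b a N F‖ ≤ D * N * B := by
  obtain ⟨C, hC, hU⟩ := upb a
  refine ⟨6 * C, by positivity, ?_⟩
  filter_upwards [hU π Real.pi_pos le_rfl, eventually_ge_atTop 1] with N hN h1 b F B hB hF hb
  have hN1 : (1 : ℝ) ≤ N := by exact_mod_cast h1
  obtain ⟨k1, k2⟩ := hN (fun w => Ub b N w * F w) (3 * N * B)
    ((Ub_diff b N).continuous.mul hF)
  have hb' : ∀ x y : ℝ, |x| ≤ π → |y| ≤ 1 / N →
      ‖Ub b N (x + y * Complex.I) * F (x + y * Complex.I)‖ ≤ 3 * N * B := by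
    intro x y hx hy
    rw [norm_mul]
    exact mul_le_mul (Ub_bd h1 b hy) (hb x y hx hy) (norm_nonneg _) (by positivity)
  have k3 := k1 fun x y _ hx hy => hb' x y hx hy
  have k4 := k2 fun x y hx hy => hb' x y hx hy
  have k5 := norm_add_le ((upp (1 / N) fun ψ => Ea a N ψ * (Ub b N ψ * F ψ) * kr N ψ) -
    ∫ x in (-π)..π, Ea a N (x + (1 / N : ℝ) * Complex.I) *
      (Ub b N (x + (1 / N : ℝ) * Complex.I) * F (x + (1 / N : ℝ) * Complex.I)) *
        kr N (x + (1 / N : ℝ) * Complex.I))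
    (∫ x in (-π)..π, Ea a N (x + (1 / N : ℝ) * Complex.I) *
      (Ub b N (x + (1 / N : ℝ) * Complex.I) * F (x + (1 / N : ℝ) * Complex.I)) *
        kr N (x + (1 / N : ℝ) * Complex.I))
  rw [sub_add_cancel] at k5
  unfold Lc LI
  refine k5.trans ?_
  linarith

/-- the size of the iterated functional -/
lemma itG_bd (a : ℕ → ℤ) (j : ℕ) : ∃ C : ℝ, 0 < C ∧ ∀ᶠ N : ℕ in atTop, ∀ (b : ℕ → Bool) (n : ℕ)
    (f : (ℕ → ℂ) → ℂ) (B : ℝ), j ≤ n → 0 ≤ B → Sep n f → ∀ ψ : ℕ → ℂ,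
    (∀ ψ' : ℕ → ℂ, (∀ i < j, |(ψ' i).re| ≤ π ∧ |(ψ' i).im| ≤ 1 / N) → (∀ i, j ≤ i → ψ' i = ψ i) →
      ‖f ψ'‖ ≤ B) →
    ‖itG (fun i => Lc (b i) (a i) N) j f ψ‖ ≤ C * N ^ j * B := by
  induction j with
  | zero =>
    refine ⟨1, one_pos, ?_⟩
    filter_upwards with N b n f B _ hB _ ψ h
    rw [pow_zero, mul_one, one_mul]
    exact h ψ (fun i hi => absurd hi (Nat.not_lt_zero i)) fun i _ => rfl
  | succ j ih =>
    obtain ⟨C, hC, ih⟩ := ih
    obtain ⟨D, hD, hU⟩ := Lc_bd (a j)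
    refine ⟨D * C, by positivity, ?_⟩
    filter_upwards [ih, hU, eventually_ge_atTop 1] with N ih hU hN b n f B hjn hB hf ψ h
    have hN1 : (1 : ℝ) ≤ N := by exact_mod_cast hN
    have e : itG (fun i => Lc (b i) (a i) N) (j + 1) f ψ =
      Lc (b j) (a j) N fun w => itG (fun i => Lc (b i) (a i) N) j f (Function.update ψ j w) := rfl
    have hS : Sep n (itG (fun i => Lc (b i) (a i) N) j f) :=
      itG_sep (fun i => Lc_lin (b i) (a i) hN) hf (by omega)
    rw [e]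
    refine (hU (b j) _ (C * N ^ j * B) (by positivity) (hS.diff ψ j).continuous ?_).trans
      (le_of_eq (by ring))
    intro x y hx hy
    refine ih b n f B (by omega) hB hf _ fun ψ' h1 h2 => h ψ' ?_ ?_
    · intro i hi
      by_cases hij : i = j
      · rw [h2 i hij.ge, hij, Function.update_self]
        have e1 : ((x : ℂ) + y * Complex.I).re = x := by simp
        have e2 : ((x : ℂ) + y * Complex.I).im = y := by simp
        rw [e1, e2]
        exact ⟨hx, hy⟩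
      · exact h1 i (by omega)
    · intro i hi
      rw [h2 i (by omega), Function.update_of_ne (by omega)]

lemma seqlim_congr {L : ℕ} {r : ℝ} {f g : ℕ → (ℕ → ℂ) → ℂ} {S : (ℕ → ℂ) → ℂ}
    (h : SeqLim L r f S) (he : ∀ N : ℕ, 1 ≤ N → f N = g N) : SeqLim L r g S := by
  intro ψ ψ₀ h0 h1
  refine (h ψ ψ₀ h0 h1).congr' ?_
  filter_upwards [eventually_ge_atTop 1] with N hN
  rw [he N hN]

lemma seqlim_mono {L : ℕ} {r r' : ℝ} {f : ℕ → (ℕ → ℂ) → ℂ} {S : (ℕ → ℂ) → ℂ}
    (h : SeqLim L r f S) (hr : r' ≤ r) : SeqLim L r' f S :=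
  fun ψ ψ₀ h0 h1 => h ψ ψ₀ (fun i hi => rcm hr hr (h0 i hi)) h1

/-- asymptotics at a vertex with a circle -/
theorem circ_step' {L j : ℕ} (a : ℤ) {f : ℕ → (ℕ → ℂ) → ℂ} {S : (ℕ → ℂ) → ℂ} {r r' c B p : ℝ}
    (hr' : 0 < r') (hrr : r' ≤ r) (hr1 : r ≤ 1) (hc : 0 < c) (hp : 0 < p) (hB : 0 ≤ B)
    (hsep : ∀ N, 1 ≤ N → Sep L (f N)) (hlim : SeqLim L r f S)
    (hdif : ∀ ψ ∈ Bx L r, DifferentiableOn ℂ (fun w => S (Function.update ψ j w)) (Rc r r))
    (hconc : ∀ ψ ∈ Bx L r, (deriv (deriv fun w => S (Function.update ψ j w)) (ψ j)).re ≤ -c)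
    (hev : ∀ ψ ∈ Bx L r, S (Function.update ψ j (-ψ j)) = S ψ)
    (hbd : ∀ ψ ∈ Bx L r, ‖S ψ‖ ≤ B) (hpos : ∀ ψ ∈ Bx L r, p ≤ (S ψ).re)
    (hfar : ∀ (ψ : ℕ → ℕ → ℂ) (ψ₀ : ℕ → ℂ), ψ₀ ∈ Bx L r' →
      (∀ i < L, Tendsto (fun N => ψ N i) atTop (𝓝 (ψ₀ i))) →
      ∃ κ : ℝ, 0 < κ ∧ ∀ᶠ N : ℕ in atTop, ∀ x y : ℝ, r / 4 ≤ |x| → |x| ≤ π → |y| ≤ 1 / N →
        ‖f N (Function.update (ψ N) j (x + y * Complex.I))‖ ≤
          Real.exp (N * ((S (Function.update ψ₀ j 0)).re - κ))) :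
    SeqLim L r' (fun N ψ => Lc true a N fun w => f N (Function.update ψ j w))
      (fun ψ => S (Function.update ψ j 0)) := by
  obtain ⟨g, hg⟩ : ∃ g : ℕ → (ℕ → ℂ) → ℂ, g = fun N => if N = 0 then fun _ => 0 else f N :=
    ⟨_, rfl⟩
  have hge : ∀ N : ℕ, 1 ≤ N → f N = g N := by
    intro N hN
    rw [hg]
    simp only
    rw [if_neg (by omega)]
  have h := circ_step (j := j) a (f := g) hr' hrr hr1 hc hp hB (fun N => by
    by_cases hN : N = 0
    · rw [hg]
      simp only [hN, if_true]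
      exact Sep.const 0
    · rw [← hge N (by omega)]
      exact hsep N (by omega)) (seqlim_congr hlim hge) hdif hconc hev hbd hpos (by
    intro ψ ψ₀ h0 h1
    obtain ⟨κ, hκ, h2⟩ := hfar ψ ψ₀ h0 h1
    refine ⟨κ, hκ, ?_⟩
    filter_upwards [h2, eventually_ge_atTop 1] with N h2 hN
    rw [← hge N hN]
    exact h2)
  refine seqlim_congr h fun N hN => ?_
  funext ψ
  rw [Lc_true, hge N hN]

/-! ### All circles -/

/-- the circles of number `e ≤ i < j` at zero -/
def zr (e j : ℕ) (ψ : ℕ → ℂ) : ℕ → ℂ := fun i => if e ≤ i ∧ i < j then 0 else ψ i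

lemma zr_self (e : ℕ) (ψ : ℕ → ℂ) : zr e e ψ = ψ := by
  funext i
  unfold zr
  rw [if_neg (by omega)]

lemma zr_mem {e j L : ℕ} {r : ℝ} (hr : 0 < r) {ψ : ℕ → ℂ} (hψ : ψ ∈ Bx L r) : zr e j ψ ∈ Bx L r := by
  intro i hi
  unfold zr
  split_ifs
  · constructor <;> simpa using hr
  · exact hψ i hi

lemma zr_update {e j : ℕ} (ψ : ℕ → ℂ) (w : ℂ) :
    zr e j (Function.update ψ j w) = Function.update (zr e j ψ) j w := by
  funext i
  by_cases h : i = j
  · subst h
    unfold zr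
    rw [if_neg (by omega), Function.update_self, Function.update_self]
  · rw [Function.update_of_ne h]
    unfold zr
    rw [Function.update_of_ne h]

lemma zr_succ {e j : ℕ} (h : e ≤ j) (ψ : ℕ → ℂ) :
    zr e j (Function.update ψ j 0) = zr e (j + 1) ψ := by
  rw [zr_update]
  funext i
  by_cases hi : i = j
  · subst hi
    rw [Function.update_self]
    unfold zr
    rw [if_pos ⟨h, by omega⟩]
  · rw [Function.update_of_ne hi]
    unfold zr
    by_cases h1 : e ≤ i ∧ i < j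
    · rw [if_pos h1, if_pos ⟨h1.1, by omega⟩]
    · rw [if_neg h1, if_neg (by omega)]

/-- bounds of `f` if one of the variables is far from zero; each variable is near the real axis or
in the box of size `T ρ` -/
def FB (n : ℕ) (T K : ℝ → ℝ) (R : ℝ) (g : ℂ → ℝ) (f : ℕ → (ℕ → ℂ) → ℂ) : Prop :=
  ∀ ρ : ℝ, 0 < ρ → ∀ᶠ N : ℕ in atTop, ∀ ψ : ℕ → ℂ,
    (∀ i < n, (|(ψ i).re| ≤ π ∧ |(ψ i).im| ≤ 1 / N) ∨ ψ i ∈ Rc (T ρ) (T ρ)) →
    ψ n ∈ Rc R R → (∃ j < n, ρ ≤ |(ψ j).re|) → ‖f N ψ‖ ≤ Real.exp (N * (g (ψ n) - K ρ))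

/-- the properties of the potential of the circles -/
structure CP (n e : ℕ) (r c B p Lp η : ℝ) (g : ℂ → ℝ) (S : (ℕ → ℂ) → ℂ) : Prop where
  dif : ∀ ψ ∈ Bx (n + 1) r, ∀ j, e ≤ j → j < n →
    DifferentiableOn ℂ (fun w => S (Function.update ψ j w)) (Rc r r)
  conc : ∀ ψ ∈ Bx (n + 1) r, ∀ j, e ≤ j → j < n →
    (deriv (deriv fun w => S (Function.update ψ j w)) (ψ j)).re ≤ -c
  ev : ∀ ψ ∈ Bx (n + 1) r, ∀ j, e ≤ j → j < n → S (Function.update ψ j (-ψ j)) = S ψ
  bd : ∀ ψ ∈ Bx (n + 1) r, ‖S ψ‖ ≤ B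
  pos : ∀ ψ ∈ Bx (n + 1) r, p ≤ (S ψ).re
  low : ∀ ψ ∈ Bx (n + 1) r, g (ψ n) - η - Lp * ∑ i ∈ Ico e n, ‖ψ i‖ ≤ (S ψ).re

lemma CP.mono {n e : ℕ} {r r' c B p Lp η : ℝ} {g : ℂ → ℝ} {S : (ℕ → ℂ) → ℂ}
    (h : CP n e r c B p Lp η g S) (hr : r' ≤ r) : CP n e r' c B p Lp η g S := by
  have h0 : ∀ ψ ∈ Bx (n + 1) r', ψ ∈ Bx (n + 1) r := fun ψ hψ i hi => rcm hr hr (hψ i hi)
  exact ⟨fun ψ hψ j h1 h2 => (h.dif ψ (h0 ψ hψ) j h1 h2).mono (rcm hr hr),
    fun ψ hψ => h.conc ψ (h0 ψ hψ), fun ψ hψ => h.ev ψ (h0 ψ hψ), fun ψ hψ => h.bd ψ (h0 ψ hψ),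
    fun ψ hψ => h.pos ψ (h0 ψ hψ), fun ψ hψ => h.low ψ (h0 ψ hψ)⟩

theorem circ_iter (n e : ℕ) {T K : ℝ → ℝ} (hT : ∀ ρ, 0 < ρ → 0 < T ρ) (hK : ∀ ρ, 0 < ρ → 0 < K ρ)
    {r c B p Lp R : ℝ} (hr : 0 < r) (hr1 : r ≤ 1) (hrR : r ≤ R) (hc : 0 < c) (hB : 0 ≤ B)
    (hp : 0 < p) (hL : 0 ≤ Lp) (m : ℕ) (hm : e + m ≤ n) :
    ∃ r' η₀ : ℝ, 0 < r' ∧ r' ≤ r ∧ 0 < η₀ ∧ ∀ (a : ℕ → ℤ) (b : ℕ → Bool) (g : ℂ → ℝ)
      (f : ℕ → (ℕ → ℂ) → ℂ) (S : (ℕ → ℂ) → ℂ) (η : ℝ), η ≤ η₀ → ContinuousOn g (Rc R R) →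
      (∀ j, e ≤ j → j < n → b j = true) →
      CP n e r c B p Lp η g S → FB n T K R g f → (∀ N, Sep (n + 1) (f N)) →
      SeqLim (n + 1) r (fun N => itG (fun i => Lc (b i) (a i) N) e (f N)) S →
      SeqLim (n + 1) r' (fun N => itG (fun i => Lc (b i) (a i) N) (e + m) (f N))
        (fun ψ => S (zr e (e + m) ψ)) := by
  induction m with
  | zero =>
    refine ⟨r, 1, hr, le_rfl, one_pos, ?_⟩
    intro a b g f S η _ _ _ _ _ _ h
    have e1 : (fun ψ => S (zr e (e + 0) ψ)) = S := by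
      funext ψ
      rw [Nat.add_zero, zr_self]
    rw [e1]
    exact h
  | succ m ih =>
    obtain ⟨r₁, η₁, hr₁, hr₁r, hη₁, ih⟩ := ih (by omega)
    obtain ⟨ρ, hρ⟩ : ∃ ρ : ℝ, ρ = r₁ / 4 := ⟨_, rfl⟩
    have hρ0 : 0 < ρ := by rw [hρ]; positivity
    have hT0 := hT ρ hρ0
    have hK0 := hK ρ hρ0
    obtain ⟨κ, hκ⟩ : ∃ κ : ℝ, κ = K ρ := ⟨_, rfl⟩
    rw [← hκ] at hK0
    obtain ⟨q, hq⟩ : ∃ q : ℝ, q = κ / (16 * (Lp + 1) * (n + 1)) := ⟨_, rfl⟩
    have hq0 : 0 < q := by rw [hq]; positivity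
    refine ⟨min r₁ (min (T ρ) q), min η₁ (κ / 8), by positivity, (min_le_left _ _).trans hr₁r,
      by positivity, ?_⟩
    obtain ⟨r₂, hr₂⟩ : ∃ r₂ : ℝ, r₂ = min r₁ (min (T ρ) q) := ⟨_, rfl⟩
    have hr₂0 : 0 < r₂ := by rw [hr₂]; positivity
    have hr₂1 : r₂ ≤ r₁ := by rw [hr₂]; exact min_le_left _ _
    have hr₂T : r₂ ≤ T ρ := by rw [hr₂]; exact (min_le_right _ _).trans (min_le_left _ _)
    have hr₂q : r₂ ≤ q := by rw [hr₂]; exact (min_le_right _ _).trans (min_le_right _ _)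
    rw [← hr₂]
    intro a b g f S η hη hg hb hCP hFB hsep h
    have hη1 : η ≤ η₁ := hη.trans (min_le_left _ _)
    have hη2 : η ≤ κ / 8 := hη.trans (min_le_right _ _)
    have hlim := ih a b g f S η hη1 hg hb hCP hFB hsep h
    obtain ⟨j, hj⟩ : ∃ j, j = e + m := ⟨_, rfl⟩
    rw [← hj] at hlim
    have hej : e ≤ j := by omega
    have hjn : j < n := by omega
    have hCP' := hCP.mono hr₁r
    have hmem : ∀ ψ ∈ Bx (n + 1) r₁, zr e j ψ ∈ Bx (n + 1) r₁ := fun ψ hψ => zr_mem hr₁ hψ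
    have hzj : ∀ ψ : ℕ → ℂ, zr e j ψ j = ψ j := fun ψ => by
      unfold zr
      rw [if_neg (by omega)]
    have hstep := circ_step' (L := n + 1) (j := j) (a j)
      (f := fun N => itG (fun i => Lc (b i) (a i) N) j (f N)) (S := fun ψ => S (zr e j ψ))
      (r := r₁) (r' := r₂) (c := c) (B := B) (p := p) hr₂0 hr₂1 (hr₁r.trans hr1) hc hp hB
      (fun N hN => itG_sep (fun i => Lc_lin (b i) (a i) hN) (hsep N) (by omega)) hlim
      (fun ψ hψ => by
        simp only [zr_update]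
        exact hCP'.dif _ (hmem ψ hψ) j hej hjn)
      (fun ψ hψ => by
        simp only [zr_update]
        rw [← hzj ψ]
        exact hCP'.conc _ (hmem ψ hψ) j hej hjn)
      (fun ψ hψ => by
        show S (zr e j (Function.update ψ j (-ψ j))) = S (zr e j ψ)
        rw [zr_update]
        have := hCP'.ev _ (hmem ψ hψ) j hej hjn
        rw [hzj] at this
        exact this)
      (fun ψ hψ => hCP'.bd _ (hmem ψ hψ)) (fun ψ hψ => hCP'.pos _ (hmem ψ hψ)) (by
        intro ψ ψ₀ hψ₀ hψ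
        refine ⟨κ / 4, by positivity, ?_⟩
        rw [← hρ]
        obtain ⟨C, hC, hbdN⟩ := itG_bd a j
        -- the parameters are in the small box
        have hbox : ∀ᶠ N : ℕ in atTop, ∀ i ∈ range (n + 1), ψ N i ∈ Rc r₂ r₂ := by
          rw [Filter.eventually_all_finset]
          intro i hi
          rw [mem_range] at hi
          exact (hψ i hi).eventually ((Pool.Agent.W293.HT.isOpen_Rc _ _).mem_nhds (hψ₀ i hi))
        have hnR : ψ₀ n ∈ Rc R R := rcm (hr₂1.trans (hr₁r.trans hrR)) (hr₂1.trans (hr₁r.trans hrR))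
          (hψ₀ n (by omega))
        have hgc : Tendsto (fun N => g (ψ N n)) atTop (𝓝 (g (ψ₀ n))) :=
          ((hg _ hnR).continuousAt ((Pool.Agent.W293.HT.isOpen_Rc _ _).mem_nhds hnR)).tendsto.comp
            (hψ n (by omega))
        have hgc' : ∀ᶠ N : ℕ in atTop, g (ψ N n) ≤ g (ψ₀ n) + κ / 8 :=
          (hgc.eventually (gt_mem_nhds (by linarith : g (ψ₀ n) < g (ψ₀ n) + κ / 8))).mono
            fun N hN => hN.le
        have hlow : g (ψ₀ n) - κ / 4 ≤ (S (zr e j (Function.update ψ₀ j 0))).re := by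
          have hm1 : zr e j (Function.update ψ₀ j 0) ∈ Bx (n + 1) r₁ := by
            refine hmem _ ?_
            refine Bx_update hr₂1 hψ₀ ?_
            constructor <;> simpa using hr₁
          have h1 := hCP'.low _ hm1
          have hnn : zr e j (Function.update ψ₀ j 0) n = ψ₀ n := by
            unfold zr
            rw [if_neg (by omega), Function.update_of_ne (by omega)]
          rw [hnn] at h1
          have h2 : ∑ i ∈ Ico e n, ‖zr e j (Function.update ψ₀ j 0) i‖ ≤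
              ∑ _i ∈ Ico e n, 2 * q := by
            refine sum_le_sum fun i hi => ?_
            rw [mem_Ico] at hi
            unfold zr
            split_ifs
            · rw [norm_zero]; positivity
            · by_cases hij : i = j
              · rw [hij, Function.update_self, norm_zero]; positivity
              · rw [Function.update_of_ne hij]
                have h3 := hψ₀ i (by omega)
                have h4 := Complex.norm_le_abs_re_add_abs_im (ψ₀ i)
                linarith [h3.1, h3.2]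
          rw [sum_const, Nat.card_Ico, nsmul_eq_mul] at h2
          have h3 : ((n - e : ℕ) : ℝ) * (2 * q) ≤ (n + 1) * (2 * q) := by
            refine mul_le_mul_of_nonneg_right ?_ (by positivity)
            have : n - e ≤ n + 1 := by omega
            exact_mod_cast this
          have h4 : Lp * ∑ i ∈ Ico e n, ‖zr e j (Function.update ψ₀ j 0) i‖ ≤
              (Lp + 1) * ((n + 1) * (2 * q)) :=
            mul_le_mul (by linarith) (h2.trans h3) (sum_nonneg fun _ _ => norm_nonneg _)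
              (by positivity)
          have h5 : (Lp + 1) * ((n + 1) * (2 * q)) = κ / 8 := by
            rw [hq]
            field_simp
            norm_num
          linarith
        filter_upwards [hbdN, hFB ρ hρ0, hbox, hgc',
          pow_ev (show 0 < κ / 8 by positivity) C j,
          eventually_ge_atTop 1] with N h1 h2 h3 h4 h5 hN x y hx1 hx2 hy
        have hNp : (0 : ℝ) < N := by exact_mod_cast hN
        have k1 := h1 b (n + 1) (f N) (Real.exp (N * (g (ψ N n) - κ))) (by omega)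
          (Real.exp_pos _).le (hsep N) (Function.update (ψ N) j (x + y * Complex.I)) (by
            intro ψ' q1 q2
            have e1 : ψ' n = ψ N n := by
              rw [q2 n (by omega), Function.update_of_ne (by omega)]
            have e2 : ψ' j = x + y * Complex.I := by
              rw [q2 j le_rfl, Function.update_self]
            have e3 : ((x : ℂ) + y * Complex.I).re = x := by simp
            have e4 : ((x : ℂ) + y * Complex.I).im = y := by simp
            have k2 := h2 ψ' (by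
              intro i hi
              rcases lt_trichotomy i j with hij | hij | hij
              · exact Or.inl (q1 i hij)
              · rw [hij, e2, e3, e4]
                exact Or.inl ⟨hx2, hy⟩
              · rw [q2 i hij.le, Function.update_of_ne (by omega)]
                exact Or.inr (rcm hr₂T hr₂T (h3 i (mem_range.2 (by omega))))) (by
              rw [e1]
              exact rcm (hr₂1.trans (hr₁r.trans hrR)) (hr₂1.trans (hr₁r.trans hrR))
                (h3 n (mem_range.2 (by omega)))) ⟨j, hjn, by rw [e2, e3]; exact hx1⟩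
            rw [e1, ← hκ] at k2
            exact k2)
        refine k1.trans ?_
        have k3 : C * (N : ℝ) ^ j ≤ Real.exp (N * (κ / 8)) := by
          refine h5.trans (le_of_eq ?_)
          rw [mul_comm]
        refine (mul_le_mul_of_nonneg_right k3 (Real.exp_pos _).le).trans ?_
        rw [← Real.exp_add, ← mul_add]
        refine Real.exp_le_exp.2 (mul_le_mul_of_nonneg_left ?_ hNp.le)
        linarith)
    have hbj : b j = true := hb j hej hjn
    have e3 : (fun N => itG (fun i => Lc (b i) (a i) N) (e + (m + 1)) (f N)) =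
        fun N ψ => Lc true (a j) N fun w =>
          itG (fun i => Lc (b i) (a i) N) j (f N) (Function.update ψ j w) := by
      funext N ψ
      rw [show e + (m + 1) = j + 1 by omega]
      show Lc (b j) (a j) N (fun w => itG (fun i => Lc (b i) (a i) N) j (f N)
        (Function.update ψ j w)) = _
      rw [hbj]
    have e4 : (fun ψ => S (zr e (e + (m + 1)) ψ)) =
        fun ψ => S (zr e j (Function.update ψ j 0)) := by
      funext ψ
      rw [zr_succ hej, show e + (m + 1) = j + 1 by omega]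
    rw [e3, e4]
    exact hstep

end Pool.Agent.N518.RC
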