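import Pool.Agent.Y785.DR.Mird
import Pool.Agent.N518.RC.Exc

/-!
# Mirror images of rings of trees with circles at the ring vertices
-/

set_option autoImplicit false

namespace Pool.Agent.N518.RC

open Finset
open Pool.Agent.W711.HT hiding XX
open Pool.Agent.Y472
open Pool.Agent.Y481.DR
open Pool.Agent.Y458.CG
open Pool.Agent.TH563.UV (Tb XX ngb)
open Pool.Agent.TH219.J139 (XX_diff wt_ngb bl_ngb ne_ngb ngb_XX Ub Ub_conj Ub_even)
open Pool.Agent.Y785.DR (ngl nel_ngl prod_ngl trace_smul_map sign_mul)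
open scoped Real ComplexConjugate

theorem cV_ngb (N : ℕ) (t : Tb) (i j : ℕ) :
    cV N (tvc (ngb t)) i j = -(-1) ^ t.ne * conj (cV N (tvc t) i j) := by
  unfold cV tvc
  show (-1) ^ (N - 1 - j + i) / (2 * (π : ℂ)) * upp (1 / N) (fun ψ => Ea (ngb t).wt N ψ *
    (Ub (ngb t).bl N ψ * XX (ngb t) N ψ) * Rp N (N - 1 - j) ψ * Rp N i ψ * kr N ψ) =
      -(-1) ^ t.ne * conj
      ((-1) ^ (N - 1 - j + i) / (2 * (π : ℂ)) * upp (1 / N) fun ψ => Ea t.wt N ψ *
        (Ub t.bl N ψ * XX t N ψ) * Rp N (N - 1 - j) ψ * Rp N i ψ * kr N ψ)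
  rw [wt_ngb, bl_ngb]
  have h1 : upp (1 / N) (fun ψ => Ea (-t.wt) N ψ *
      (Ub t.bl N ψ * XX (ngb t) N ψ) * Rp N (N - 1 - j) ψ * Rp N i ψ * kr N ψ) =
      (-1) ^ t.ne * upp (1 / N) (fun ψ => Ea (-t.wt) N ψ *
        (conj (Ub t.bl N (conj ψ)) * conj (XX t N (conj ψ))) * Rp N (N - 1 - j) ψ *
          Rp N i ψ * kr N ψ) := by
    rw [← Pool.Agent.W658.AX.upp_mul]
    refine Pool.Agent.W658.AX.upp_congr _ fun ψ => ?_
    rw [ngb_XX, Ub_conj]
    ring
  rw [h1, upp_conj (1 / N) (by positivity)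
    (fun ψ => Ea t.wt N ψ * (Ub t.bl N ψ * XX t N ψ) * Rp N (N - 1 - j) ψ * Rp N i ψ * kr N ψ)]
  · simp only [map_mul, map_div₀, map_pow, map_neg, map_one, map_ofNat, Complex.conj_ofReal]
    ring
  · intro ψ
    simp only [map_mul, conj_Ea, conj_Rp, conj_kr, Complex.conj_conj]
  · intro ψ
    rw [Ea_even, Rp_even, Rp_even, kr_odd, map_neg, (XX_diff t).2, Ub_even]
    ring

theorem MAV_ngb (N : ℕ) (t : Tb) :
    MAV N (tvc (ngb t)) = (-(-1 : ℂ) ^ t.ne) • (MAV N (tvc t)).map (starRingEnd ℂ) := by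
  ext i j
  change (if j ≤ i then cV N (tvc (ngb t)) j i else 0) =
    (-(-1 : ℂ) ^ t.ne) * conj (if j ≤ i then cV N (tvc t) j i else 0)
  split_ifs
  · exact cV_ngb N t j i
  · simp

theorem MBV_ngb (N : ℕ) (χ : ℂ) (t : Tb) :
    MBV N χ (tvc (ngb t)) =
      (-(-1 : ℂ) ^ t.ne) • (MBV N (conj χ) (tvc t)).map (starRingEnd ℂ) := by
  ext i j
  change (if i ≤ j then (∏ t ∈ Ioc (i : ℕ) j, Ph N χ t) * cV N (tvc (ngb t)) i j else 0) =
    (-(-1 : ℂ) ^ t.ne) *
      conj (if i ≤ j then (∏ t ∈ Ioc (i : ℕ) j, Ph N (conj χ) t) * cV N (tvc t) i j else 0)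
  split_ifs
  · rw [cV_ngb, map_mul, map_prod]
    simp only [conj_Ph, Complex.conj_conj]
    ring
  · simp

theorem TV_ngl (N : ℕ) (ts : List (Tb × Tb)) (χ : ℂ) :
    TV N (tvcl (ngl ts)) χ = (-1) ^ nel ts * conj (TV N (tvcl ts) (conj χ)) := by
  unfold TV
  rw [← trace_smul_map]
  congr 1
  have h := prod_ngl (n := N) ts (fun p => MAV N (tvc p.1) * MBV N χ (tvc p.2))
    (fun p => MAV N (tvc p.1) * MBV N (conj χ) (tvc p.2)) (fun p => by
      show MAV N (tvc (ngb p.1)) * MBV N χ (tvc (ngb p.2)) = _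
      rw [MAV_ngb, MBV_ngb, map_mulM, smul_mul_smul_comm, sign_mul])
  unfold tvcl
  rw [List.map_map, List.map_map]
  exact h

theorem ThV_ngl (N : ℕ) (ts : List (Tb × Tb)) (p : ℕ) :
    ThV N (tvcl (ngl ts)) p = (-1) ^ nel ts * conj (ThV N (tvcl ts) p) := by
  have hr : conj (2 * (π : ℂ) * p / N) = 2 * (π : ℂ) * p / N := by
    simp only [map_div₀, map_mul, Complex.conj_ofReal, map_natCast, map_ofNat]
  unfold ThV
  rw [← trace_smul_map, map_mulM, map_pH, ← Matrix.mul_smul]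
  congr 2
  have h := prod_ngl (n := N) ts
    (fun q => MAV N (tvc q.1) * pH N p * MBV N (2 * π * p / N) (tvc q.2) * pH N p)
    (fun q => MAV N (tvc q.1) * pH N p * MBV N (2 * π * p / N) (tvc q.2) * pH N p) (fun q => by
      show MAV N (tvc (ngb q.1)) * pH N p * MBV N (2 * π * p / N) (tvc (ngb q.2)) * pH N p = _
      rw [MAV_ngb, MBV_ngb, hr, map_mulM, map_mulM, map_mulM, map_pH, Matrix.smul_mul,
        smul_mul_smul_comm, sign_mul, Matrix.smul_mul])
  unfold tvcl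
  rw [List.map_map, List.map_map]
  exact h

theorem ES_ngl (N : ℕ) (ts : List (Tb × Tb)) (m : ℤ) :
    ES N (tvcl (ngl ts)) (-m) = (-1) ^ nel ts * conj (ES N (tvcl ts) m) := by
  have hr : ∀ p : ℕ, conj (2 * (π : ℂ) * p / N) = 2 * (π : ℂ) * p / N := by
    intro p
    simp only [map_div₀, map_mul, Complex.conj_ofReal, map_natCast, map_ofNat]
  have hd : ∀ p : ℕ, deriv (fun χ => wE N (-m) χ * TV N (tvcl (ngl ts)) χ)
      (2 * π * p / N) = (-1) ^ nel ts *
        conj (deriv (fun χ => wE N m χ * TV N (tvcl ts) χ) (2 * π * p / N)) := by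
    intro p
    have h1 : (fun χ => wE N (-m) χ * TV N (tvcl (ngl ts)) χ) =
        fun χ => (-1) ^ nel ts *
          (conj ∘ (fun χ => wE N m χ * TV N (tvcl ts) χ) ∘ conj) χ := by
      funext χ
      simp only [Function.comp, map_mul]
      rw [wE_neg, TV_ngl]
      ring
    rw [h1, deriv_const_mul_field, deriv_conj_conj, Function.comp_apply, Function.comp_apply, hr]
  have hs : ∀ p : ℕ, wE N (-m) (2 * π * p / N) * ThV N (tvcl (ngl ts)) p =
      (-1) ^ nel ts * conj (wE N m (2 * π * p / N) * ThV N (tvcl ts) p) := by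
    intro p
    rw [wE_neg, ThV_ngl, hr, map_mul]
    ring
  unfold ES
  simp only [hd, hs]
  rw [← Finset.mul_sum, ← Finset.mul_sum, ← map_sum, ← map_sum]
  simp only [map_sub, map_mul, Complex.conj_I, map_intCast, map_natCast,
    map_ofNat, Int.cast_neg]
  ring

theorem norm_ES_ngl (N : ℕ) (ts : List (Tb × Tb)) (m : ℤ) :
    ‖ES N (tvcl (ngl ts)) (-m)‖ = ‖ES N (tvcl ts) m‖ := by
  rw [ES_ngl, norm_mul, norm_pow, norm_neg, norm_one, one_pow, one_mul, Complex.norm_conj]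

/-- mirror images -/
theorem mirc (ts : List (Tb × Tb)) (m : ℤ) (N : ℕ) (hN : 2 ≤ N) (hts : ts ≠ []) :
    ‖JD (ts.map fun p => (ngb p.1, ngb p.2)) (-m) N (vN N)‖ = ‖JD ts m N (vN N)‖ := by
  have h1 : ngl ts ≠ [] := fun h => hts (List.map_eq_nil_iff.mp h)
  have h2 := exc N (ngl ts) (-m) hN h1
  rw [nel_ngl, norm_ES_ngl, ← exc N ts m hN hts] at h2
  exact h2

end Pool.Agent.N518.RC
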