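import Pool.Agent.N518.RC.Iter
import Pool.Agent.Y472.E.Defs

/-!
# Permutations of the variables
-/

set_option autoImplicit false
set_option linter.all false

namespace Pool.Agent.N518.RC

open Finset Filter Topology Metric
open Pool.Agent.W711.HT hiding XX
open Pool.Agent.Y472
open Pool.Agent.TH219.J139 (Ub Ub_diff)
open Pool.Agent.Y481 (itI itN itG itG_sep itI_eq LI_lin Sep cw LI LN)
open scoped Real

/-- a permutation which puts the vertices without circle first -/
lemma perm_ex (b : ℕ → Bool) (n : ℕ) : ∃ (σ : Equiv.Perm ℕ) (e : ℕ), e ≤ n ∧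
    (∀ i, n ≤ i → σ i = i) ∧ ∀ i < n, (b (σ i) = false ↔ i < e) := by
  induction n with
  | zero => exact ⟨1, 0, le_rfl, fun i _ => rfl, fun i hi => absurd hi (Nat.not_lt_zero i)⟩
  | succ n ih =>
    obtain ⟨σ, e, he, h1, h2⟩ := ih
    by_cases hb : b n = false
    · refine ⟨(Equiv.swap e n).trans σ, e + 1, by omega, fun i hi => ?_, fun i hi => ?_⟩
      · rw [Equiv.trans_apply, Equiv.swap_apply_of_ne_of_ne (by omega) (by omega)]
        exact h1 i (by omega)
      · rw [Equiv.trans_apply]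
        by_cases hie : i = e
        · rw [hie, Equiv.swap_apply_left, h1 n le_rfl]
          exact ⟨fun _ => by omega, fun _ => hb⟩
        · by_cases hin : i = n
          · rw [hin, Equiv.swap_apply_right]
            have h3 := h2 e (by omega)
            constructor
            · intro h4
              exact absurd (h3.1 h4) (lt_irrefl e)
            · intro h4
              omega
          · rw [Equiv.swap_apply_of_ne_of_ne hie hin, h2 i (by omega)]
            omega
    · refine ⟨σ, e, by omega, fun i hi => h1 i (by omega), fun i hi => ?_⟩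
      by_cases hin : i = n
      · rw [hin, h1 n le_rfl]
        constructor
        · intro h4
          exact absurd h4 hb
        · intro h4
          omega
      · exact h2 i (by omega)

section

variable {σ : Equiv.Perm ℕ} {n : ℕ}

lemma perm_lt (h : ∀ i, n ≤ i → σ i = i) {i : ℕ} (hi : i < n) : σ i < n := by
  by_contra hc
  rw [not_lt] at hc
  have h1 := σ.injective (h _ hc)
  omega

lemma perm_symm (h : ∀ i, n ≤ i → σ i = i) : ∀ i, n ≤ i → σ.symm i = i := by
  intro i hi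
  rw [Equiv.symm_apply_eq]
  exact (h i hi).symm

lemma perm_le {m : ℕ} (h : ∀ i, n ≤ i → σ i = i) (hm : n ≤ m) : ∀ i, m ≤ i → σ i = i :=
  fun i hi => h i (hm.trans hi)

lemma upd_comp (σ : Equiv.Perm ℕ) (ψ : ℕ → ℂ) (i : ℕ) (w : ℂ) :
    Function.update ψ i w ∘ σ.symm = Function.update (ψ ∘ σ.symm) (σ i) w := by
  funext j
  by_cases h : j = σ i
  · rw [h, Function.update_self, Function.comp_apply, Equiv.symm_apply_apply, Function.update_self]
  · rw [Function.update_of_ne h, Function.comp_apply, Function.comp_apply,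
      Function.update_of_ne]
    intro h1
    exact h (by rw [← h1, Equiv.apply_symm_apply])

lemma bx_comp {L : ℕ} {R : ℝ} (h : ∀ i, L ≤ i → σ i = i) {ψ : ℕ → ℂ} (hψ : ψ ∈ Bx L R) :
    ψ ∘ σ.symm ∈ Bx L R := fun i hi => hψ _ (perm_lt (perm_symm h) hi)

lemma bx_comp' {L : ℕ} {R : ℝ} (h : ∀ i, L ≤ i → σ i = i) {ψ : ℕ → ℂ} (hψ : ψ ∈ Bx L R) :
    ψ ∘ σ ∈ Bx L R := fun i hi => hψ _ (perm_lt h hi)

lemma sep_perm {L : ℕ} {f : (ℕ → ℂ) → ℂ} (h : ∀ i, L ≤ i → σ i = i) (hf : Sep L f) :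
    Sep L (fun ψ => f (ψ ∘ σ.symm)) := by
  obtain ⟨ι, I, c, A, hA, hf⟩ := hf
  refine ⟨ι, I, c, fun i j => A i (σ j), fun i j => hA i (σ j), fun ψ => ?_⟩
  beta_reduce
  rw [hf]
  refine sum_congr rfl fun i _ => ?_
  congr 1
  refine (prod_equiv σ (fun j => ?_) fun j _ => ?_).symm
  · rw [mem_range, mem_range]
    constructor
    · exact perm_lt h
    · intro hj
      have := perm_lt (perm_symm h) hj
      rwa [Equiv.symm_apply_apply] at this
  · rw [Function.comp_apply, Equiv.symm_apply_apply]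

lemma seqlim_perm {L : ℕ} {r : ℝ} {f : ℕ → (ℕ → ℂ) → ℂ} {S : (ℕ → ℂ) → ℂ}
    (hσ : ∀ i, L ≤ i → σ i = i) (h : SeqLim L r f S) :
    SeqLim L r (fun N ψ => f N (ψ ∘ σ.symm)) (fun ψ => S (ψ ∘ σ.symm)) :=
  fun ψ ψ₀ h0 h1 => h (fun N => ψ N ∘ σ.symm) (ψ₀ ∘ σ.symm) (bx_comp hσ h0)
    fun i hi => h1 _ (perm_lt (perm_symm hσ) hi)

/-- the potential with permuted variables -/
theorem potE_perm {L e e' : ℕ} {R c B p₀ : ℝ} {S : (ℕ → ℂ) → ℂ} {D : ℕ → (ℕ → ℂ) → ℂ}
    (hP : PotE L e R c B p₀ S D) (h : ∀ i, L ≤ i → σ i = i) (he : e' ≤ L)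
    (hee : ∀ i < e', σ i < e) :
    PotE L e' R c B p₀ (fun ψ => S (ψ ∘ σ.symm)) (fun j ψ => D (σ j) (ψ ∘ σ.symm)) := by
  have hs := perm_symm h
  have hex : ∀ x : Fin L → ℂ, ∀ i < L, (ex L x ∘ σ.symm) i =
      ex L (fun i : Fin L => x ⟨σ.symm i, perm_lt hs i.2⟩) i := by
    intro x i hi
    have h1 := perm_lt hs hi
    show ex L x (σ.symm i) = _
    unfold ex
    rw [dif_pos h1, dif_pos hi]
  have hdm : DifferentiableOn ℂ (fun (x : Fin L → ℂ) (i : Fin L) =>
      x ⟨σ.symm i, perm_lt hs i.2⟩) (bx L R) :=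
    (differentiable_pi.2 fun i => differentiable_apply _).differentiableOn
  have hmt : Set.MapsTo (fun (x : Fin L → ℂ) (i : Fin L) => x ⟨σ.symm i, perm_lt hs i.2⟩)
      (bx L R) (bx L R) := fun x hx i => hx _
  refine ⟨he, hP.hR, hP.hc, hP.hB, hP.hp, ?_, ?_, ?_, ?_, ?_, ?_, ?_, ?_⟩
  · intro ψ ψ' hψ
    have h1 := hP.dep (ψ ∘ σ.symm) (ψ' ∘ σ.symm) fun i hi => hψ _ (perm_lt hs hi)
    exact ⟨h1.1, fun j => h1.2 _⟩
  · have h1 := hP.an.comp hdm hmt
    refine h1.congr fun x _ => ?_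
    exact (hP.dep _ _ (hex x)).1
  · intro j hj
    have h1 := (hP.dan (σ j) (perm_lt h hj)).comp hdm hmt
    refine h1.congr fun x _ => ?_
    exact (hP.dep _ _ (hex x)).2 _
  · intro ψ hψ j hj
    have h1 := hP.der (ψ ∘ σ.symm) (bx_comp h hψ) (σ j) (perm_lt h hj)
    simp only [upd_comp]
    rw [Function.comp_apply, Equiv.symm_apply_apply] at h1
    exact h1
  · intro ψ hψ
    obtain ⟨h1, h2⟩ := hP.bd _ (bx_comp h hψ)
    exact ⟨h1, fun j hj => h2 _ (perm_lt h hj)⟩
  · intro ψ hψ j hj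
    have h1 := hP.ev (ψ ∘ σ.symm) (bx_comp h hψ) (σ j) (hee j hj)
    rw [Function.comp_apply, Equiv.symm_apply_apply] at h1
    simp only [upd_comp]
    exact h1
  · intro ψ hψ j hj
    have h1 := hP.conc (ψ ∘ σ.symm) (bx_comp h hψ) (σ j) (perm_lt h hj)
    rw [Function.comp_apply, Equiv.symm_apply_apply] at h1
    simp only [upd_comp]
    exact h1
  · intro ψ hψ
    exact hP.pos _ (bx_comp h hψ)

end

/-! ### The value of the iterated functional -/

lemma itG_val {Λ : ℕ → (ℂ → ℂ) → ℂ} (hΛ : ∀ j, Sep.Lin (Λ j)) {ι : Type} (I : Finset ι) (c : ι → ℂ)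
    (A : ι → ℕ → ℂ → ℂ) (hA : ∀ i j, Differentiable ℂ (A i j)) {n : ℕ} {f : (ℕ → ℂ) → ℂ}
    (hf : ∀ ψ, f ψ = ∑ i ∈ I, c i * ∏ j ∈ range n, A i j (ψ j)) (m : ℕ) (hm : m ≤ n) :
    ∀ ψ, itG Λ m f ψ = ∑ i ∈ I, c i * ((∏ j ∈ range m, Λ j (A i j)) *
      ∏ j ∈ Ico m n, A i j (ψ j)) := by
  induction m with
  | zero =>
    intro ψ
    show f ψ = _
    rw [hf]
    refine sum_congr rfl fun i _ => ?_
    rw [prod_range_zero, one_mul, Nat.Ico_zero_eq_range]
  | succ m ih =>
    intro ψ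
    show Λ m (fun w => itG Λ m f (Function.update ψ m w)) = _
    have e : (fun w => itG Λ m f (Function.update ψ m w)) = fun w => ∑ i ∈ I,
        (c i * ((∏ j ∈ range m, Λ j (A i j)) * ∏ j ∈ Ico (m + 1) n, A i j (ψ j))) * A i m w := by
      funext w
      rw [ih (by omega)]
      refine sum_congr rfl fun i _ => ?_
      rw [prod_eq_prod_Ico_succ_bot (by omega : m < n), Function.update_self]
      have e1 : ∏ j ∈ Ico (m + 1) n, A i j (Function.update ψ m w j) =
          ∏ j ∈ Ico (m + 1) n, A i j (ψ j) := by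
        refine prod_congr rfl fun j hj => ?_
        rw [mem_Ico] at hj
        rw [Function.update_of_ne (by omega)]
      rw [e1]
      ring
    rw [e, hΛ m ι I _ _ fun i => hA i m]
    refine sum_congr rfl fun i _ => ?_
    rw [prod_range_succ]
    ring

/-- the order of the integrations is irrelevant -/
theorem itG_perm {σ : Equiv.Perm ℕ} {n : ℕ} (hσ : ∀ i, n ≤ i → σ i = i) {N : ℕ} (hN : 1 ≤ N)
    (a : ℕ → ℤ) (b : ℕ → Bool) {f : (ℕ → ℂ) → ℂ} (hf : Sep n f) (ψ₁ ψ₂ : ℕ → ℂ) :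
    itI a N n (fun ψ => (∏ j ∈ range n, Ub (b j) N (ψ j)) * f ψ) ψ₁ =
      itG (fun i => Lc (b (σ i)) (a (σ i)) N) n (fun φ => f (φ ∘ σ.symm)) ψ₂ := by
  obtain ⟨ι, I, c, A, hA, hf⟩ := hf
  rw [itI_eq, itG_val (Λ := fun j => LI (a j) N) (fun j => LI_lin (a j) hN) I c
      (fun i j w => Ub (b j) N w * A i j w) (fun i j => (Ub_diff (b j) N).mul (hA i j)) (n := n)
      (by
        intro ψ
        rw [hf, mul_sum]
        refine sum_congr rfl fun i _ => ?_
        rw [prod_mul_distrib]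
        ring) n le_rfl,
    itG_val (Λ := fun i => Lc (b (σ i)) (a (σ i)) N) (fun i => Lc_lin _ _ hN) I c
      (fun i j => A i (σ j)) (fun i j => hA i (σ j)) (n := n) (by
        intro φ
        rw [hf]
        refine sum_congr rfl fun i _ => ?_
        congr 1
        refine (prod_equiv σ (fun j => ?_) fun j _ => ?_).symm
        · rw [mem_range, mem_range]
          constructor
          · exact perm_lt hσ
          · intro hj
            have := perm_lt (perm_symm hσ) hj
            rwa [Equiv.symm_apply_apply] at this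
        · rw [Function.comp_apply, Equiv.symm_apply_apply]) n le_rfl]
  refine sum_congr rfl fun i _ => ?_
  rw [Ico_self, prod_empty, prod_empty, mul_one, mul_one]
  congr 1
  refine (prod_equiv σ (fun j => ?_) fun j _ => ?_).symm
  · rw [mem_range, mem_range]
    constructor
    · exact perm_lt hσ
    · intro hj
      have := perm_lt (perm_symm hσ) hj
      rwa [Equiv.symm_apply_apply] at this
  · rfl

end Pool.Agent.N518.RC
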