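import Pool.Agent.N518.RC.Perm
import Pool.Agent.Y674.CG.Core

/-!
# The potential of the circles
-/

set_option autoImplicit false
set_option linter.all false

namespace Pool.Agent.N518.RC

open Finset Filter Topology Metric
open Pool.Agent.W711.HT hiding XX
open Pool.Agent.Y472
open Pool.Agent.Y674.CB (rc_open rc_mono rc_norm rc_zero rc_neg bx_mono)
open Pool.Agent.Y481 (itI itN itG itG_sep itI_eq LI_lin Sep cw LI LN)
open scoped Real

lemma convex_Rc' (R : ℝ) : Convex ℝ (Rc R R) := by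
  have e : Rc R R = Set.Ioo (-R) R ×ℂ Set.Ioo (-R) R := by
    ext w
    rw [Complex.mem_reProdIm, Set.mem_Ioo, Set.mem_Ioo, ← abs_lt, ← abs_lt]
    rfl
  rw [e]
  exact ((convex_Ioo _ _).linear_preimage Complex.reLm).inter
    ((convex_Ioo _ _).linear_preimage Complex.imLm)

section

variable {L e : ℕ} {R c B p₀ : ℝ} {S : (ℕ → ℂ) → ℂ} {D : ℕ → (ℕ → ℂ) → ℂ}

lemma bxu {φ : ℕ → ℂ} (hφ : φ ∈ Bx L R) {j : ℕ} {w : ℂ} (hw : w ∈ Rc R R) :
    Function.update φ j w ∈ Bx L R := Bx_update le_rfl hφ hw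

lemma pot_der (hP : PotE L e R c B p₀ S D) {φ : ℕ → ℂ} (hφ : φ ∈ Bx L R) {j : ℕ} (hj : j < L)
    {w : ℂ} (hw : w ∈ Rc R R) :
    HasDerivAt (fun w => S (Function.update φ j w)) (D j (Function.update φ j w)) w := by
  have h := hP.der _ (bxu (j := j) hφ hw) j hj
  simp only [Function.update_idem, Function.update_self] at h
  exact h

lemma lip1 (hP : PotE L e R c B p₀ S D) {φ : ℕ → ℂ} (hφ : φ ∈ Bx L R) {j : ℕ} (hj : j < L) :
    ‖S φ - S (Function.update φ j 0)‖ ≤ B * ‖φ j‖ := by
  have h1 := (convex_Rc' R).norm_image_sub_le_of_norm_deriv_le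
    (f := fun w => S (Function.update φ j w)) (C := B)
    (fun w hw => (pot_der hP hφ hj hw).differentiableAt)
    (fun w hw => by
      rw [(pot_der hP hφ hj hw).deriv]
      exact (hP.bd _ (bxu hφ hw)).2 j hj) (rc_zero hP.hR.1) (hφ j hj)
  rw [Function.update_eq_self, sub_zero] at h1
  exact h1

lemma lipz (hP : PotE L e R c B p₀ S D) {φ : ℕ → ℂ} (hφ : φ ∈ Bx L R) {e' m : ℕ} (hm : e' ≤ m)
    (hmL : m ≤ L) : ‖S φ - S (zr e' m φ)‖ ≤ B * ∑ i ∈ Ico e' m, ‖φ i‖ := by
  induction m, hm using Nat.le_induction with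
  | base => rw [zr_self, sub_self, norm_zero, Ico_self, sum_empty, mul_zero]
  | succ m hm ih =>
    have ih := ih (by omega)
    have hz := zr_mem (e := e') (j := m) hP.hR.1 hφ
    have h1 := lip1 hP hz (j := m) (by omega)
    have h2 : zr e' m φ m = φ m := by
      unfold zr
      rw [if_neg (by omega)]
    have h3 : Function.update (zr e' m φ) m 0 = zr e' (m + 1) φ := by
      rw [← zr_succ hm, zr_update]
    rw [h2, h3] at h1
    rw [sum_Ico_succ_top hm, mul_add]
    have h4 := norm_add_le (S φ - S (zr e' m φ)) (S (zr e' m φ) - S (zr e' (m + 1) φ))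
    rw [sub_add_sub_cancel] at h4
    linarith

lemma D_even (hP : PotE L e R c B p₀ S D) {φ : ℕ → ℂ} (hφ : φ ∈ Bx L R) {i j : ℕ} (hi : i < L)
    (hj : j < e) (hij : i ≠ j) : D i (Function.update φ j (-φ j)) = D i φ := by
  have hjL : j < L := lt_of_lt_of_le hj hP.he
  have hm : Function.update φ j (-φ j) ∈ Bx L R := bxu hφ (rc_neg (hφ j hjL))
  have h1 := hP.der φ hφ i hi
  have h2 := hP.der _ hm i hi
  rw [Function.update_of_ne hij] at h2
  have h3 : (fun w => S (Function.update (Function.update φ j (-φ j)) i w)) =ᶠ[𝓝 (φ i)]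
      fun w => S (Function.update φ i w) := by
    filter_upwards [(rc_open R R).mem_nhds (hφ i hi)] with w hw
    rw [Function.update_comm hij.symm]
    have h4 := hP.ev _ (bxu (j := i) hφ hw) j hj
    rw [Function.update_of_ne hij.symm] at h4
    exact h4
  exact (h2.congr_of_eventuallyEq h3.symm).unique h1

end

/-- the potential after the elimination of the vertices without circle -/
theorem cp_of {n e : ℕ} {R c B p₀ C M : ℝ} {S : (ℕ → ℂ) → ℂ} {D : ℕ → (ℕ → ℂ) → ℂ} {a : ℕ → ℤ}
    {zz : ℕ → (ℕ → ℂ) → ℕ → ℂ} (he : e ≤ n) (hP : PotE (n + 1) n R c B p₀ S D)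
    (hz : CrtE (n + 1) e R c B p₀ C S D a zz) (hC : 0 < C) (hM : 0 < M)
    (haM : ∀ i < e, M ≤ |(a i : ℝ)|) {g : ℂ → ℝ}
    (hg : ∀ χ ∈ Rc R R, g χ ≤ (S (Function.update 0 n χ)).re) :
    CP n e (R / 2) (c / 2) (B + n * (C / M)) (p₀ / 2) B (n * (C / M)) g
      (fun ψ => Uj S a e (zz e ψ)) := by
  have hR := hP.hR.1
  have hR2 : 0 < R / 2 := by positivity
  have hsub : Rc (R / 2) (R / 2) ⊆ Rc R R := rcm (by linarith) (by linarith)
  have hsubB : ∀ ψ ∈ Bx (n + 1) (R / 2), ψ ∈ Bx (n + 1) R := fun ψ hψ i hi => hsub (hψ i hi)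
  have hzm : ∀ ψ ∈ Bx (n + 1) (R / 2), zz e ψ ∈ Bx (n + 1) (R / 2) := by
    intro ψ hψ i hi
    by_cases h : i < e
    · have h1 := hz.sm e le_rfl ψ hψ i h
      exact rc_norm (by linarith [h1.1, h1.2.1])
    · rw [hz.rest e le_rfl ψ hψ i (by omega)]
      exact hψ i hi
  have hder : ∀ ψ ∈ Bx (n + 1) (R / 2), ∀ j, e ≤ j → j < n + 1 → ∀ w ∈ Rc (R / 2) (R / 2),
      HasDerivAt (fun w => Uj S a e (zz e (Function.update ψ j w)))
        (D j (zz e (Function.update ψ j w))) w := by
    intro ψ hψ j h1 h2 w hw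
    have h := hz.der e le_rfl (Function.update ψ j w) (bxu hψ hw) j h1 h2
    simp only [Function.update_idem, Function.update_self] at h
    exact h
  have hCM : ∑ i ∈ range e, C / |(a i : ℝ)| ≤ n * (C / M) := by
    have h1 : ∑ i ∈ range e, C / |(a i : ℝ)| ≤ ∑ _i ∈ range e, C / M :=
      sum_le_sum fun i hi => div_le_div_of_nonneg_left hC.le hM (haM i (mem_range.1 hi))
    rw [sum_const, card_range, nsmul_eq_mul] at h1
    refine h1.trans (mul_le_mul_of_nonneg_right ?_ (by positivity))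
    exact_mod_cast he
  have hclose : ∀ ψ ∈ Bx (n + 1) (R / 2), ‖Uj S a e (zz e ψ) -
      S (fun i => if i < e then 0 else ψ i)‖ ≤ n * (C / M) := fun ψ hψ =>
    (hz.close e le_rfl ψ hψ).1.trans hCM
  have hm1 : ∀ ψ ∈ Bx (n + 1) (R / 2), (fun i => if i < e then 0 else ψ i) ∈ Bx (n + 1) R := by
    intro ψ hψ i hi
    by_cases h : i < e
    · simp only [if_pos h]; exact rc_zero hR
    · simp only [if_neg h]; exact hsub (hψ i hi)
  refine ⟨?_, ?_, ?_, ?_, ?_, ?_⟩
  · intro ψ hψ j h1 h2 w hw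
    exact (hder ψ hψ j h1 (by omega) w hw).differentiableAt.differentiableWithinAt
  · intro ψ hψ j h1 h2
    have e1 : deriv (fun w => Uj S a e (zz e (Function.update ψ j w))) =ᶠ[𝓝 (ψ j)]
        fun w => D j (zz e (Function.update ψ j w)) := by
      filter_upwards [(rc_open (R / 2) (R / 2)).mem_nhds (hψ j (by omega))] with w hw
      exact (hder ψ hψ j h1 (by omega) w hw).deriv
    rw [e1.deriv_eq]
    exact hz.conc e le_rfl ψ hψ j h1 (by omega)
  · intro ψ hψ j h1 h2
    have hn : Function.update ψ j (-ψ j) ∈ Bx (n + 1) (R / 2) :=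
      bxu hψ (rc_neg (hψ j (by omega)))
    have hzj : zz e ψ j = ψ j := hz.rest e le_rfl ψ hψ j h1
    have hy := hz.uniq e le_rfl _ hn (Function.update (zz e ψ) j (-ψ j))
      (bxu (hzm ψ hψ) (rc_neg (hψ j (by omega)))) (by
        intro i hi
        by_cases hij : i = j
        · rw [hij, Function.update_self, Function.update_self]
        · rw [Function.update_of_ne hij, Function.update_of_ne hij]
          exact hz.rest e le_rfl ψ hψ i hi) (by
        intro i hi
        have h3 := hz.crit e le_rfl ψ hψ i hi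
        have h4 := D_even hP (hsubB _ (hzm ψ hψ)) (i := i) (j := j) (by omega) h2 (by omega)
        rw [hzj] at h4
        rw [h4, Function.update_of_ne (by omega)]
        exact h3)
    show Uj S a e (zz e (Function.update ψ j (-ψ j))) = Uj S a e (zz e ψ)
    rw [← hy]
    have h5 := hP.ev _ (hsubB _ (hzm ψ hψ)) j h2
    rw [hzj] at h5
    unfold Uj
    rw [h5]
    congr 1
    refine sum_congr rfl fun i hi => ?_
    rw [mem_range] at hi
    rw [Function.update_of_ne (by omega)]
  · intro ψ hψ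
    have h1 := hclose ψ hψ
    have h2 := (hP.bd _ (hm1 ψ hψ)).1
    have h3 := norm_le_insert' (Uj S a e (zz e ψ)) (S (fun i => if i < e then 0 else ψ i))
    linarith
  · intro ψ hψ
    exact (hz.close e le_rfl ψ hψ).2
  · intro ψ hψ
    have h1 := hclose ψ hψ
    have h2 := lipz hP (hm1 ψ hψ) he (by omega)
    have h3 : ∑ i ∈ Ico e n, ‖(fun i => if i < e then 0 else ψ i) i‖ = ∑ i ∈ Ico e n, ‖ψ i‖ := by
      refine sum_congr rfl fun i hi => ?_
      rw [mem_Ico] at hi
      simp only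
      rw [if_neg (by omega)]
    rw [h3] at h2
    have h4 : S (zr e n (fun i => if i < e then 0 else ψ i)) = S (Function.update 0 n (ψ n)) := by
      refine (hP.dep _ _ fun i hi => ?_).1
      by_cases hin : i = n
      · rw [hin, Function.update_self]
        unfold zr
        rw [if_neg (by omega)]
        beta_reduce
        rw [if_neg (by omega)]
      · rw [Function.update_of_ne hin]
        unfold zr
        by_cases hie : i < e
        · rw [if_neg (by omega)]
          beta_reduce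
          rw [if_pos hie]
          rfl
        · rw [if_pos ⟨by omega, by omega⟩]
          rfl
    rw [h4] at h2
    have h5 := hg (ψ n) (hsub (hψ n (by omega)))
    have h6 := (Complex.abs_re_le_norm _).trans h1
    have h7 := (Complex.abs_re_le_norm _).trans h2
    rw [Complex.sub_re, abs_le] at h6 h7
    linarith [h6.1, h7.1]

end Pool.Agent.N518.RC
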