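import Pool.Agent.N566.PS.Rg
import Pool.Agent.N518.RC.Fin
import Pool.Agent.N518.RC.Mir

/-!
# Rings of tangles with crossing circles at the roots: definitions, the growth rate

The definitions not given here are in `Pool.Agent.Results.MP_bdeb5b_gt.PolyhedralLinks` (`Small`,
`FineBelow` are in `Pool.Agent.N566.PS.Rg`).
-/

set_option autoImplicit false

namespace Pool.Agent.N518.RC.Rg

open Finset Filter Topology
open Pool.Agent.Results.MP_bdeb5b_gt.PolyhedralLinks
open Pool.Agent.N566.PS.Rg (Small FineBelow fineBelow_ok)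

/-- The trees admitted in the ring: the root has at most `D` children, and it has a crossing circle,
which is a component of the link, or a weight of absolute value at least `M`; the other vertices are
large or small, no two small vertices being neighbours. -/
def Admissible (K D M : ℕ) (t : Tree) : Prop :=
  t.children ≤ D ∧ (t.circle = true ∨ (M : ℤ) ≤ |t.weight|) ∧ FineBelow K True t

/-- There is a crossing circle at a root. -/
def RootCircle (ts : List (Tree × Tree)) : Prop :=
  ∃ p ∈ ts, p.1.circle = true ∨ p.2.circle = true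

/-- The conditions at the circle `C = C_{j+1}` of a root of weight `w` with the edges `l` to its
children: those of `PolyhedralLinks.RingCondition`, but `C` is filled only if it is not a component of
the link (`b = false`).  As for the other circles, no further condition is needed if it is a
component of the link. -/
structure RootCondition (b : Bool) (w : ℤ) (l : List (Angles × Angles))
    (f g F G f' g' F' G' : Angles) : Prop where
  /-- the edge between the third strand and the axis -/
  axis : f.b' + g.a' + F.a + G.a' + (f'.a' + g'.b' + F'.a' + G'.a) = 2 * Real.pi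
  /-- the edge from `C` to the axis -/
  toAxis : g.c' + G.c + G.b' + (f'.c' + F'.c + F'.b') = 2 * Real.pi
  /-- the edge from `C` to the third strand -/
  toThird : g.c + g.b' + G.c' + (f'.c + f'.b' + F'.c') = 2 * Real.pi
  /-- no children: the edge between the two strands enclosed by `C` -/
  arc : l = [] → f.a + g.c + F.b' + G.c + (f'.c + g'.a + F'.c + G'.b') = 2 * Real.pi
  /-- no children: the edges from `C` to the two strands enclosed by `C`, `w` even -/
  even : l = [] → Even w → g.a + g.a' + G.b + (f'.a + f'.a' + F'.b) = 2 * Real.pi ∧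
    g.b + G.a + G.a' + (f'.b + F'.a + F'.a') = 2 * Real.pi
  /-- no children: the edges from `C` to the two strands enclosed by `C`, `w` odd -/
  odd : l = [] → Odd w → g.b + G.a + G.a' + (f'.a + f'.a' + F'.b) = 2 * Real.pi ∧
    g.a + g.a' + G.b + (f'.b + F'.a + F'.a') = 2 * Real.pi
  /-- the arc above the first child -/
  first : ∀ y ∈ l.head?, f'.c + g'.a + F'.c + G'.b' + (2 * y.1.a' + (y.2.a + y.2.b')) =
    2 * Real.pi
  /-- the arcs between the children -/
  between : l.IsChain Gap
  /-- the arc below the last child -/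
  last : ∀ x ∈ l.getLast?, 2 * x.1.c + (x.2.a + x.2.b') + (f.a + g.c + F.b' + G.c) =
    2 * Real.pi
  /-- the edges from `C` to the enclosed strands: above the first child, and below the last one (the
  two octahedra of a child contribute `π - halfTwist` above and `π + halfTwist` below it) -/
  strands : ∀ x ∈ l,
    f'.a + f'.a' + F'.b + (Real.pi - x.1.halfTwist) = 2 * Real.pi ∧
    f'.b + F'.a + F'.a' + (Real.pi - x.1.halfTwist) = 2 * Real.pi ∧
    g.a + g.a' + G.b + (Real.pi + x.1.halfTwist) = 2 * Real.pi ∧
    g.b + G.a + G.a' + (Real.pi + x.1.halfTwist) = 2 * Real.pi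
  /-- if `C` is not a component of the link, then the rotation angle of two parallel copies of its
  filling slope (once around `C`, with `w` half twists) is `4 π` -/
  fill : b = false →
    f'.across + F'.across - (g.across + G.across) + 2 * (l.map fun y => y.1.across).sum =
      4 * Real.pi + w * (f'.halfTwist + F'.halfTwist)

/-- Angle structures of the complement of the closure of `(s_1 s_2 s_1)^{2 m} T_1 U_1 ⋯ T_k U_k`, where
the roots may have crossing circles (the indices are taken modulo `2 k`): `y j` are angles on the tree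
number `j`, and `f j`, `g j`, `F j`, `G j` those between `C_j` and `C_{j+1}`.  The angles are positive,
the sums around the diagonals of the octahedra are `2 π`, the conditions at the vertices hold, and the
axis is filled (two parallel copies of the filling slope: meridian plus `m` times longitude). -/
structure IsAngle (m : ℤ) (ts : List (Tree × Tree)) (y : ℕ → AngleTree) (f g F G : ℕ → Angles) :
    Prop where
  trees : ∀ j < 2 * ts.length, (y j).tree = ringTree ts j ∧ Below (y j)
  positive : ∀ j < 2 * ts.length,
    (f j).Positive ∧ (g j).Positive ∧ (F j).Positive ∧ (G j).Positive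
  diagonals : ∀ j < 2 * ts.length, (f j).b + (f j).c' + ((g j).b + (g j).c') = 2 * Real.pi ∧
    (F j).b + (F j).c' + ((G j).b + (G j).c') = 2 * Real.pi
  roots : ∀ j < 2 * ts.length, RootCondition (y ((j + 1) % (2 * ts.length))).circle
    (y ((j + 1) % (2 * ts.length))).weight (y ((j + 1) % (2 * ts.length))).edges
    (f j) (g j) (F j) (G j) (f ((j + 1) % (2 * ts.length))) (g ((j + 1) % (2 * ts.length)))
    (F ((j + 1) % (2 * ts.length))) (G ((j + 1) % (2 * ts.length)))
  axis : ∑ j ∈ range (2 * ts.length), meridianPart (f j) (g j) (F j) (G j) =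
    -(4 * Real.pi + 2 * m * longitude (f 0) (g 0) (F 0) (G 0))

/-! ### Bridges -/

section Conversion

open Pool.Agent.W719.AR (Fl)
open Pool.Agent.TH563.UV (Tb AB)
open Pool.Agent.Y481.DR (JD dVol tj)

lemma root_to (b : Bool) (w : ℤ) (l : List (Angles × Angles)) (f g F G f' g' F' G' : Angles) :
    VDC b w (l.map toFl2) (toFl f) (toFl g) (toFl F) (toFl G) (toFl f') (toFl g') (toFl F')
      (toFl G') ↔ RootCondition b w l f g F G f' g' F' G' := by
  have hsum : ((l.map toFl2).map fun y => y.1.cr).sum = (l.map fun y => y.1.across).sum := by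
    rw [List.map_map]
    rfl
  have hch : (l.map toFl2).IsChain Pool.Agent.W719.AR.Gap ↔ l.IsChain Gap := by
    rw [List.isChain_map]
    exact Iff.rfl
  constructor
  · intro h
    refine ⟨h.axis, h.ca, h.cr, fun hl => (h.nil (by rw [hl]; rfl)).strand,
      fun hl => (h.nil (by rw [hl]; rfl)).even, fun hl => (h.nil (by rw [hl]; rfl)).odd,
      ?_, hch.1 h.gaps, ?_, ?_, ?_⟩
    · intro y hy
      refine h.first (toFl2 y) ?_
      rw [List.head?_map]
      exact Option.mem_map_of_mem toFl2 hy
    · intro x hx
      refine h.last (toFl2 x) ?_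
      rw [List.getLast?_map]
      exact Option.mem_map_of_mem toFl2 hx
    · intro x hx
      obtain ⟨h1, h2, h3, h4⟩ := h.str (toFl2 x) (List.mem_map_of_mem hx)
      have e : (toFl2 x).1.tw = x.1.halfTwist := rfl
      rw [e] at h1 h2 h3 h4
      change g.a + g.a' + G.b = Real.pi - x.1.halfTwist at h1
      change g.b + G.a + G.a' = Real.pi - x.1.halfTwist at h2
      change f'.a + f'.a' + F'.b = Real.pi + x.1.halfTwist at h3
      change f'.b + F'.a + F'.a' = Real.pi + x.1.halfTwist at h4
      exact ⟨by linarith, by linarith, by linarith, by linarith⟩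
    · intro hb
      have := h.fill hb
      rw [hsum] at this
      exact this
  · intro h
    refine ⟨?_, h.axis, h.toAxis, h.toThird, ?_, hch.2 h.between, ?_, ?_, ?_⟩
    · intro hl
      have hl' : l = [] := by simpa using hl
      refine ⟨h.arc hl', h.axis, h.toAxis, h.toThird, h.even hl', h.odd hl', ?_⟩
      intro hb
      have := h.fill hb
      rw [hl'] at this
      simp only [List.map_nil, List.sum_nil, mul_zero, add_zero] at this
      exact this
    · intro y hy
      rw [List.head?_map] at hy
      obtain ⟨x, hx, rfl⟩ := Option.mem_map.1 hy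
      exact h.first x hx
    · intro y hy
      rw [List.getLast?_map] at hy
      obtain ⟨x, hx, rfl⟩ := Option.mem_map.1 hy
      exact h.last x hx
    · intro y hy
      obtain ⟨x, hx, rfl⟩ := List.mem_map.1 hy
      obtain ⟨h1, h2, h3, h4⟩ := h.strands x hx
      have e : (toFl2 x).1.tw = x.1.halfTwist := rfl
      rw [e]
      change g.a + g.a' + G.b = Real.pi - x.1.halfTwist ∧ g.b + G.a + G.a' =
        Real.pi - x.1.halfTwist ∧ f'.a + f'.a' + F'.b = Real.pi + x.1.halfTwist ∧
        f'.b + F'.a + F'.a' = Real.pi + x.1.halfTwist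
      exact ⟨by linarith, by linarith, by linarith, by linarith⟩
    · intro hb
      rw [hsum]
      exact h.fill hb

lemma volume_eq (m : ℤ) (ts : List (Tree × Tree)) :
    {W : ℝ | ∃ (y : ℕ → AngleTree) (f g F G : ℕ → Angles), IsAngle m ts y f g F G ∧
      vol ts y f g F G = W} =
    {W : ℝ | ∃ (y : ℕ → AB) (f g F G : ℕ → Fl),
      (∀ j < 2 * ts.length, (y j).shape =
        tj (toTs ts) ((2 * ts.length - j) % (2 * ts.length))) ∧
      DAngC (2 * ts.length) m y f g F G ∧ dVol (2 * ts.length) y f g F G = W} := by
  ext W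
  constructor
  · rintro ⟨y, f, g, F, G, h1, h2⟩
    refine ⟨fun j => toAB (y j), fun j => toFl (f j), fun j => toFl (g j), fun j => toFl (F j),
      fun j => toFl (G j), ?_, ⟨h1.positive, h1.diagonals, ?_, ?_, h1.axis⟩, ?_⟩
    · intro j hj
      rw [shape_to, (h1.trees j hj).1, tj_to]
      rfl
    · intro j hj
      exact (below_to _).2 (h1.trees j hj).2
    · intro j hj
      have h3 := (root_to _ _ _ _ _ _ _ _ _ _ _).2 (h1.roots j hj)
      rw [← edges_to, ← weight_to, ← circle_to] at h3
      exact h3
    · rw [vol_ring]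
      exact h2
  · rintro ⟨y, f, g, F, G, h0, h1, h2⟩
    refine ⟨fun j => ofAB (y j), fun j => ofFl (f j), fun j => ofFl (g j), fun j => ofFl (F j),
      fun j => ofFl (G j), ⟨?_, h1.pos, h1.diag, ?_, h1.fill⟩, ?_⟩
    · intro j hj
      refine ⟨toTb_inj _ _ ?_, ?_⟩
      · rw [← shape_to, toAB_of, h0 j hj, tj_to]
        rfl
      · rw [← below_to, toAB_of]
        exact h1.tree j hj
    · intro j hj
      have h3 := h1.vert j hj
      rw [← root_to, ← edges_to, ← weight_to, ← circle_to, toAB_of]
      exact h3
    · rw [← vol_ring]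
      simp only [toAB_of]
      exact h2

end Conversion

open Pool.Agent.TH563.UV (Tb)
open Pool.Agent.N561 (OkT2)

/-- the growth rate, all links -/
theorem main : ∃ K : ℕ, ∀ k m D : ℕ, 1 ≤ k → ¬ (k = 1 ∧ m = 0) → ∃ M : ℕ,
    ∀ ts : List (Tree × Tree), ts.length = k →
    (∀ p ∈ ts, Admissible K D M p.1 ∧ Admissible K D M p.2) →
    (∀ N : ℕ, 1 ≤ N → ContinuousAt (jones m ts N) (root N) ∧
      ContinuousAt (jones (-m) (mirror ts) N) (root N)) ∧
    ∃ V : ℝ, IsGreatest {W : ℝ | ∃ (y : ℕ → AngleTree) (f g F G : ℕ → Angles),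
        IsAngle m ts y f g F G ∧ vol ts y f g F G = W} V ∧
      ∀ e f : ℤ, ((∀ᶠ N : ℕ in atTop, kashaev e f m ts N ≠ 0) ∧
        ∀ᶠ N : ℕ in atTop, kashaev e f (-m) (mirror ts) N ≠ 0) ∧
        Tendsto (fun N : ℕ => 2 * Real.pi *
          (Real.log ‖kashaev e f m ts N‖ / N)) atTop (𝓝 V) ∧
        Tendsto (fun N : ℕ => 2 * Real.pi *
          (Real.log ‖kashaev e f (-m) (mirror ts) N‖ / N)) atTop (𝓝 V) := by
  obtain ⟨K, hK, hM⟩ := findc_s
  refine ⟨⌈K⌉₊, fun k m D hk hkm => ?_⟩
  obtain ⟨M, hM⟩ := hM k (m : ℤ) D hk (by positivity) (by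
    rintro ⟨h1, h2⟩
    exact hkm ⟨h1, by exact_mod_cast h2⟩)
  refine ⟨⌈M⌉₊, fun ts hlen hts => ⟨?_, ?_⟩⟩
  · intro N hN
    have hj : ∀ (m' : ℤ) (ts' : List (Tree × Tree)),
        ContinuousAt (jones m' ts' N) (root N) := by
      intro m' ts'
      have h1 : jones m' ts' N = Pool.Agent.Y481.DR.JD (toTs ts') m' N := by
        funext v
        exact jones_to m' ts' N v
      rw [h1]
      exact Pool.Agent.Y481.DR.cnd' (toTs ts') m' N hN
    exact ⟨hj _ _, hj _ _⟩
  · have hc : ∀ (c : Bool) (x : ℤ), (c = true ∨ (⌈M⌉₊ : ℤ) ≤ |x|) →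
        c = false → M ≤ |(x : ℝ)| := by
      intro c x hx hcf
      rcases hx with hx | hx
      · rw [hcf] at hx
        exact absurd hx (by simp)
      · have h1 : ((⌈M⌉₊ : ℤ) : ℝ) ≤ ((|x| : ℤ) : ℝ) := by exact_mod_cast hx
        rw [Int.cast_abs] at h1
        have h2 := Nat.le_ceil M
        have h3 : ((⌈M⌉₊ : ℤ) : ℝ) = (⌈M⌉₊ : ℝ) := by push_cast; rfl
        linarith
    have hlen' : (toTs ts).length = ts.length := by simp [toTs]
    have hne' : toTs ts ≠ [] := by
      intro h0
      rw [h0] at hlen'
      simp only [List.length_nil] at hlen'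
      omega
    have hKc : K ≤ (⌈K⌉₊ : ℝ) := Nat.le_ceil K
    obtain ⟨V, h1, h0, h2⟩ := hM (toTs ts) (by rw [hlen', hlen]) (by
      intro q hq
      obtain ⟨p, hp, rfl⟩ := List.mem_map.1 hq
      obtain ⟨⟨a2, a3, a4⟩, ⟨b2, b3, b4⟩⟩ := hts p hp
      simp only [nc_to, wt_to, bl_to]
      exact ⟨fineBelow_ok hK hKc _ _ _ (fun _ => rfl) a4,
        fineBelow_ok hK hKc _ _ _ (fun _ => rfl) b4, a2, b2, hc _ _ a3, hc _ _ b3⟩)
    refine ⟨V, ?_, ?_⟩
    · rw [volume_eq, hlen]
      exact h1
    · have hnorm : ∀ (e f m' : ℤ) (ts' : List (Tree × Tree)) (N : ℕ),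
          ‖kashaev e f m' ts' N‖ =
            ‖Pool.Agent.Y481.DR.JD (toTs ts') m' N (Pool.Agent.W711.HT.vN N)‖ := by
        intro e f m' ts' N
        have hr : ‖root N‖ = 1 := by
          have : root N = Complex.exp ((Real.pi / N : ℝ) * Complex.I) := by
            unfold root
            congr 1
            push_cast
            ring
          rw [this, Complex.norm_exp_ofReal_mul_I]
        unfold kashaev
        rw [norm_mul, norm_mul, norm_zpow, norm_zpow, norm_neg, norm_one, _root_.one_zpow, hr,
          _root_.one_zpow, one_mul, one_mul, jones_to]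
        rfl
      have hmir : ∀ (e f : ℤ) (N : ℕ), 2 ≤ N → ‖kashaev e f (-m) (mirror ts) N‖ =
          ‖Pool.Agent.Y481.DR.JD (toTs ts) m N (Pool.Agent.W711.HT.vN N)‖ := by
        intro e f N hN
        rw [hnorm, mirror_ts, mirc (toTs ts) m N hN hne']
      intro e f
      refine ⟨⟨?_, ?_⟩, ?_, ?_⟩
      · filter_upwards [h0] with N hN h3
        apply hN
        rw [← norm_eq_zero, ← hnorm e f m ts N, h3, norm_zero]
      · filter_upwards [h0, eventually_ge_atTop 2] with N hN hN2 h3
        apply hN
        rw [← norm_eq_zero, ← hmir e f N hN2, h3, norm_zero]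
      · refine h2.congr' ?_
        filter_upwards with N
        rw [hnorm]
      · refine h2.congr' ?_
        filter_upwards [eventually_ge_atTop 2] with N hN
        rw [hmir e f N hN]

end Pool.Agent.N518.RC.Rg
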